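import Pool.Agent.H42.ZD.Pl

/-!
# ZD row AP: approximation (elements of `K` with prescribed reductions, and a pole at a last place)

PROOF. Let `p_i = (v i).p`, `q = w.p`, distinct primes.

(1) Teichmüller lifts. For a place `v` and `ρ ∈ v.k` there is `ζ ∈ K` integral over `ℤ` with
`Red v ζ ρ`. Indeed take `r > 0` with `ρ^(p^r) = ρ`. The polynomial `X^(p^r) - X` over `K` splits,
`X^(p^r) - X = ∏_{ζ ∈ Z} (X - ζ)` (multiset `Z` of roots in `K`, algebraically closed, monic), and all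
`ζ ∈ Z` are integral over `ℤ`, so in `v.Λ` (`v.int`). This identity holds over `v.Λ` (injective
`v.Λ → K`), and applying `v.ψ` gives `X^(p^r) - X = ∏ (X - ψ ζ)` over `v.k`. Evaluate at `ρ`: the left
side is `0`, so `ρ = ψ ζ` for some `ζ`.

(2) Integers. By the Chinese remainder theorem there are natural numbers `E_i` with
`E_i ≡ 1 mod p_i`, `E_i ≡ 0 mod p_j` (`j ≠ i`), `E_i ≡ 0 mod q`, and `E` with `E ≡ 0 mod p_i` for
all `i` and `E ≡ 1 mod q`. (`E = (∏ p_i)^(q-1)` by Fermat, and `E_i = (q ∏_{j≠i} p_j)^(p_i - 1)`.)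

(3) For `M : ℕ` put `y_M = Σ_i E_i ζ_i + E (1 + q M) / q ∈ K`, with `ζ_i` a lift of `ρ i` at `v i`.
At `v_i`: `ζ_j ∈ (v i).Λ` for all `j` (integral over `ℤ`), `E_j ζ_j` reduces to `0` for `j ≠ i`
(`Red.natCast`, `(E_j : k) = 0` as `p_i ∣ E_j`), `E_i ζ_i` reduces to `ρ i`; `q⁻¹ ∈ (v i).Λ`
(`(v i).inv`, as `p_i ∤ q`), so `E (1 + q M) * q⁻¹` reduces to `0 * … = 0`. So `Red (v i) y_M (ρ i)`.
At `w`: `q * y_M = q * Σ E_i ζ_i + E (1 + q M) ∈ w.Λ` reduces to `0 + 1 * 1 = 1 ≠ 0`
(`(q : w.k) = 0`).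
(4) `M ↦ y_M` is injective: `y_M - y_{M'} = E (M - M')` and `E ≠ 0` (`E ≡ 1 mod q`),
characteristic 0. So the set is infinite (`Set.infinite_of_injective_forall_mem`).
-/

namespace H42.ZD

universe u

private theorem AP_lift {K : Type u} [Field K] [IsAlgClosed K] (v : Plc K) (ρ : v.k) :
    ∃ ζ : K, IsIntegral ℤ ζ ∧ Red v ζ ρ := by
  obtain ⟨r, hr, hρ⟩ := v.lf ρ
  have hN : 1 < v.p ^ r := Nat.one_lt_pow hr.ne' v.hp.one_lt
  obtain ⟨N, hNe⟩ : ∃ N, N = v.p ^ r := ⟨_, rfl⟩
  rw [← hNe] at hρ hN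
  have hmonZ : ∀ (R : Type u) [CommRing R] [Nontrivial R],
      (Polynomial.X ^ N - Polynomial.X : Polynomial R).Monic := by
    intro R _ _
    apply Polynomial.monic_X_pow_sub
    rw [Polynomial.degree_X]
    exact_mod_cast hN
  have hmonI : (Polynomial.X ^ N - Polynomial.X : Polynomial ℤ).Monic := by
    apply Polynomial.monic_X_pow_sub
    rw [Polynomial.degree_X]
    exact_mod_cast hN
  obtain ⟨P, hP⟩ : ∃ P : Polynomial K, P = Polynomial.X ^ N - Polynomial.X := ⟨_, rfl⟩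
  have hPm : P.Monic := by
    rw [hP]
    exact hmonZ K
  have hroot : ∀ a ∈ P.roots, IsIntegral ℤ a := by
    intro a ha
    have h1 := Polynomial.isRoot_of_mem_roots ha
    rw [hP, Polynomial.IsRoot.def, Polynomial.eval_sub, Polynomial.eval_pow,
      Polynomial.eval_X] at h1
    refine ⟨Polynomial.X ^ N - Polynomial.X, hmonI, ?_⟩
    rw [Polynomial.eval₂_sub, Polynomial.eval₂_pow, Polynomial.eval₂_X]
    exact h1
  have hprod := (IsAlgClosed.splits P).eq_prod_roots_of_monic hPm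
  obtain ⟨R', hR'⟩ : ∃ R' : Multiset v.Λ,
      R' = P.roots.attach.map (fun a => (⟨a.1, v.int a.1 (hroot a.1 a.2)⟩ : v.Λ)) := ⟨_, rfl⟩
  have hR'map : R'.map (fun a : v.Λ => (a : K)) = P.roots := by
    rw [hR', Multiset.map_map]
    exact Multiset.attach_map_val _
  have hpoly : (Polynomial.X ^ N - Polynomial.X : Polynomial v.Λ) =
      (R'.map (fun a => Polynomial.X - Polynomial.C a)).prod := by
    apply Polynomial.map_injective v.Λ.subtype Subtype.val_injective
    rw [Polynomial.map_sub, Polynomial.map_pow, Polynomial.map_X, ← hP, hprod, ← hR'map,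
      Polynomial.map_multiset_prod, Multiset.map_map, Multiset.map_map]
    congr 1
    refine Multiset.map_congr rfl fun a _ => ?_
    simp
  have hev := congrArg (Polynomial.eval₂RingHom v.ψ ρ) hpoly
  rw [map_sub, map_pow, map_multiset_prod, Multiset.map_map] at hev
  have hX : (Polynomial.eval₂RingHom v.ψ ρ) Polynomial.X = ρ := by
    simp
  rw [hX, hρ, sub_self] at hev
  obtain ⟨a, _, ha⟩ := Multiset.mem_map.1 (Multiset.prod_eq_zero_iff.1 hev.symm)
  have ha' : ρ - v.ψ a = 0 := by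
    rw [← ha]
    simp
  refine ⟨(a : K), ?_, a.2, ?_⟩
  · have h2 : (a : K) ∈ P.roots := by
      rw [← hR'map]
      exact Multiset.mem_map_of_mem _ (by assumption)
    exact hroot _ h2
  · exact (sub_eq_zero.1 ha').symm

private theorem AP_sum {K : Type u} [Field K] (v : Plc K) {ι : Type} (s : Finset ι) (f : ι → K)
    (g : ι → v.k) (h : ∀ i ∈ s, Red v (f i) (g i)) : Red v (∑ i ∈ s, f i) (∑ i ∈ s, g i) := by
  classical
  induction s using Finset.induction_on with
  | empty =>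
    have h0 := Red.natCast v 0
    rw [Nat.cast_zero, Nat.cast_zero] at h0
    simpa using h0
  | insert a s ha ih =>
    rw [Finset.sum_insert ha, Finset.sum_insert ha]
    exact Red.add (h a (Finset.mem_insert_self _ _))
      (ih fun i hi => h i (Finset.mem_insert_of_mem hi))

private theorem AP_one {K : Type u} [Field K] (v : Plc K) (A : ℕ) (hA : Nat.Coprime A v.p) :
    ((A ^ Nat.totient v.p : ℕ) : v.k) = 1 := by
  have h1 := Nat.ModEq.pow_totient hA
  have h2 := (CharP.natCast_eq_natCast v.k v.p).2 h1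
  rw [h2, Nat.cast_one]

private theorem AP_zero {K : Type u} [Field K] (v : Plc K) (A : ℕ) (hA : v.p ∣ A) :
    (A : v.k) = 0 := (CharP.cast_eq_zero_iff v.k v.p A).2 hA

theorem AP {K : Type u} [Field K] [CharZero K] [IsAlgClosed K] {m : ℕ} (v : Fin m → Plc K)
    (ρ : ∀ i, (v i).k) (hv : Function.Injective fun i => (v i).p) (w : Plc K)
    (hw : ∀ i, (v i).p ≠ w.p) :
    {y : K | (∀ i, Red (v i) y (ρ i)) ∧ ∃ h : (w.p : K) * y ∈ w.Λ, w.ψ ⟨_, h⟩ ≠ 0}.Infinite := by
  classical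
  choose ζ hζi hζr using fun i => AP_lift (v i) (ρ i)
  obtain ⟨q, hq⟩ : ∃ q, q = w.p := ⟨_, rfl⟩
  have hqp : q.Prime := hq ▸ w.hp
  obtain ⟨A, hA⟩ : ∃ A : ℕ, A = ∏ i, (v i).p := ⟨_, rfl⟩
  obtain ⟨B, hB⟩ : ∃ B : Fin m → ℕ, B = fun i => q * ∏ j ∈ Finset.univ.erase i, (v j).p :=
    ⟨_, rfl⟩
  obtain ⟨E, hE⟩ : ∃ E : ℕ, E = A ^ Nat.totient q := ⟨_, rfl⟩
  obtain ⟨F, hF⟩ : ∃ F : Fin m → ℕ, F = fun i => B i ^ Nat.totient (v i).p := ⟨_, rfl⟩
  have hneq : ∀ i j, i ≠ j → (v i).p ≠ (v j).p := fun i j hij h => hij (hv h)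
  have hAq : Nat.Coprime A w.p := by
    rw [hA]
    apply Nat.Coprime.prod_left
    intro i _
    exact (Nat.coprime_primes (v i).hp w.hp).2 (hw i)
  have hBp : ∀ i, Nat.Coprime (B i) (v i).p := by
    intro i
    rw [hB]
    apply Nat.Coprime.mul_left
    · rw [hq]
      exact (Nat.coprime_primes w.hp (v i).hp).2 (hw i).symm
    · apply Nat.Coprime.prod_left
      intro j hj
      exact (Nat.coprime_primes (v j).hp (v i).hp).2 (hneq j i (Finset.ne_of_mem_erase hj))
  have hdA : ∀ i, (v i).p ∣ E := by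
    intro i
    rw [hE]
    apply dvd_pow _ (Nat.totient_pos.2 hqp.pos).ne'
    rw [hA]
    exact Finset.dvd_prod_of_mem _ (Finset.mem_univ i)
  have hdB : ∀ i j, i ≠ j → (v i).p ∣ F j := by
    intro i j hij
    rw [hF]
    apply dvd_pow _ (Nat.totient_pos.2 (v j).hp.pos).ne'
    rw [hB]
    exact Dvd.dvd.mul_left (Finset.dvd_prod_of_mem (fun j => (v j).p)
      (Finset.mem_erase.2 ⟨hij, Finset.mem_univ i⟩)) _
  have hE1 : (E : w.k) = 1 := by
    rw [hE, hq]
    exact AP_one w A hAq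
  have hF1 : ∀ i, (F i : (v i).k) = 1 := by
    intro i
    rw [hF]
    exact AP_one (v i) (B i) (hBp i)
  have hE0 : E ≠ 0 := by
    intro h
    rw [h, Nat.cast_zero] at hE1
    exact zero_ne_one hE1
  obtain ⟨y, hy⟩ : ∃ y : ℕ → K, y = fun M => ∑ i, (F i : K) * ζ i +
      ((E * (1 + q * M) : ℕ) : K) * ((q : K))⁻¹ := ⟨_, rfl⟩
  have hqK : (q : K) ≠ 0 := by exact_mod_cast hqp.ne_zero
  apply Set.infinite_of_injective_forall_mem (f := y)
  · intro M M' hMM
    rw [hy] at hMM
    have h1 := add_left_cancel hMM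
    have h2 := mul_right_cancel₀ (inv_ne_zero hqK) h1
    have h3 : E * (1 + q * M) = E * (1 + q * M') := by exact_mod_cast h2
    have h4 := Nat.eq_of_mul_eq_mul_left (Nat.pos_of_ne_zero hE0) h3
    exact Nat.eq_of_mul_eq_mul_left hqp.pos (Nat.add_left_cancel h4)
  · intro M
    constructor
    · intro i
      have h1 : Red (v i) (∑ j, (F j : K) * ζ j) (∑ j, if j = i then ρ i else 0) := by
        apply AP_sum
        intro j _
        by_cases hj : j = i
        · subst hj
          rw [if_pos rfl]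
          have h2 := Red.mul (Red.natCast (v j) (F j)) (hζr j)
          rw [hF1 j, one_mul] at h2
          exact h2
        · rw [if_neg hj]
          have h2 : Red (v i) (ζ j) ((v i).ψ ⟨ζ j, (v i).int _ (hζi j)⟩) := ⟨_, rfl⟩
          have h3 := Red.mul (Red.natCast (v i) (F j)) h2
          rw [AP_zero (v i) (F j) (hdB i j (Ne.symm hj)), zero_mul] at h3
          exact h3
      rw [Finset.sum_ite_eq' Finset.univ i (fun _ => ρ i), if_pos (Finset.mem_univ i)] at h1
      have hqi : ¬ (v i).p ∣ q := by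
        intro h
        rw [hq] at h
        exact hw i ((Nat.prime_dvd_prime_iff_eq (v i).hp w.hp).1 h)
      have h4 : Red (v i) ((q : K))⁻¹ ((v i).ψ ⟨_, (v i).inv q hqi⟩) := ⟨_, rfl⟩
      have h5 := Red.mul (Red.natCast (v i) (E * (1 + q * M))) h4
      rw [AP_zero (v i) (E * (1 + q * M)) (Dvd.dvd.mul_right (hdA i) _), zero_mul] at h5
      have h6 := Red.add h1 h5
      rw [add_zero] at h6
      rw [hy]
      exact h6
    · have h1 : Red w (∑ j, (F j : K) * ζ j)
          (∑ j, (F j : w.k) * w.ψ ⟨ζ j, w.int _ (hζi j)⟩) := by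
        apply AP_sum
        intro j _
        exact Red.mul (Red.natCast w (F j)) ⟨_, rfl⟩
      have h2 := Red.add (Red.mul (Red.natCast w q) h1) (Red.natCast w (E * (1 + q * M)))
      have h3 : (q : K) * ∑ j, (F j : K) * ζ j + ((E * (1 + q * M) : ℕ) : K) =
          (w.p : K) * y M := by
        have h7 : ∀ a b : K, (q : K) * a + b = (q : K) * (a + b * ((q : K))⁻¹) := by
          intro a b
          rw [mul_add]
          congr 1
          rw [mul_comm (q : K), mul_assoc, inv_mul_cancel₀ hqK, mul_one]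
        rw [hy, ← hq]
        exact h7 _ _
      rw [h3] at h2
      obtain ⟨h4, h5⟩ := h2
      refine ⟨h4, ?_⟩
      rw [h5, AP_zero w q (by rw [hq])]
      have h6 : ((E * (1 + q * M) : ℕ) : w.k) = 1 := by
        push_cast
        rw [hE1, AP_zero w q (by rw [hq]), zero_mul, add_zero, one_mul]
      rw [h6, zero_mul, zero_add]
      exact one_ne_zero

end H42.ZD
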