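import Pool.Agent.H42.ZD.Tn

/-!
# ZD: a dense orbit avoiding a given hypersurface (field of finite transcendence degree)
-/

open MvPolynomial

namespace H42.ZD

universe u

theorem Av_main {K : Type u} [Field K] [CharZero K] [IsAlgClosed K] (A : Finset K)
    (hA : Algebra.IsAlgebraic (Algebra.adjoin ℤ (A : Set K)) K) {n : ℕ}
    (f : Fin n → MvPolynomial (Fin n) K) (hf : Tri f)
    (hcond : (∀ i, 2 ≤ degreeOf i (f i)) ∨ ¬ Inv f) (H : MvPolynomial (Fin n) K) (hH : H ≠ 0) :
    ∃ x : Fin n → K, Dense f x ∧ ∀ t : ℕ, eval ((act f)^[t] x) H ≠ 0 := by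
  classical
  set HK : MvPolynomial (Fin n) K := H * ∏ i, pderiv i (f i) with hHK
  have hHK0 : HK ≠ 0 :=
    mul_ne_zero hH (Finset.prod_ne_zero_iff.2 fun i _ => Tn_pderiv_ne_zero i _ (hf i).2)
  obtain ⟨m, hm⟩ := ne_zero_iff.1 hHK0
  let B : Finset K := (Finset.univ.biUnion fun i => (f i).coeffs) ∪ H.coeffs
  obtain ⟨w, -, hwB, hb, hψb⟩ := GP A hA B (coeff m HK) hm 0
  have hgl : ∀ i, ∃ q : MvPolynomial (Fin n) w.Λ, map w.Λ.subtype q = f i := by
    intro i
    refine Tn_lift _ _ fun c hc => hwB c ?_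
    exact Finset.mem_union_left _ (Finset.mem_biUnion.2 ⟨i, Finset.mem_univ _, hc⟩)
  choose fL hfL using hgl
  obtain ⟨HL0, hHL0⟩ : ∃ q : MvPolynomial (Fin n) w.Λ, map w.Λ.subtype q = H :=
    Tn_lift _ _ fun c hc => hwB c (Finset.mem_union_right _ hc)
  have hfK : (fun i => map w.Λ.subtype (fL i)) = f := funext hfL
  set HL : MvPolynomial (Fin n) w.Λ := HL0 * ∏ i, pderiv i (fL i) with hHL
  have hHLK : map w.Λ.subtype HL = HK := by
    rw [hHL, hHK, map_mul, hHL0, map_prod]
    congr 1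
    refine Finset.prod_congr rfl fun i _ => ?_
    rw [← pderiv_map, hfL]
  have hHred : map w.ψ HL = map w.ψ HL0 * ∏ i, pderiv i (map w.ψ (fL i)) := by
    rw [hHL, map_mul, map_prod]
    congr 1
    refine Finset.prod_congr rfl fun i _ => ?_
    rw [pderiv_map]
  have hHred0 : map w.ψ HL ≠ 0 := by
    rw [ne_zero_iff]
    refine ⟨m, ?_⟩
    rw [coeff_map]
    have : coeff m HL = ⟨coeff m HK, hb⟩ := by
      apply Subtype.ext
      have := congrArg (coeff m) hHLK
      rw [coeff_map] at this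
      exact this
    rw [this]
    exact hψb
  rw [hHred] at hHred0
  have hTri : Tri fun i => map w.ψ (fL i) := by
    intro i
    constructor
    · intro j hj
      refine (hf i).1 j ?_
      rw [← hfL i, vars_map_of_injective _ Subtype.val_injective]
      exact vars_map (fL i) w.ψ hj
    · by_contra hi
      have h1 : pderiv i (map w.ψ (fL i)) = 0 := pderiv_eq_zero_of_notMem_vars hi
      exact (Finset.prod_ne_zero_iff.1 (right_ne_zero_of_mul hHred0) i (Finset.mem_univ i)) h1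
  have : Fact w.p.Prime := ⟨w.hp⟩
  obtain ⟨ξ, N0, hN0, hξ, hcyc⟩ := CL w.lf _ hTri _ hHred0
  obtain ⟨x, hx, hxξ⟩ := Tn A hA n f hf hcond 1 (fun _ => w)
    (fun i j _ => Subsingleton.elim i j) (fun _ => ξ)
  refine ⟨x, hx, fun t h0 => ?_⟩
  have hx0 := fun j => hxξ 0 j
  choose hxΛ hxξ' using hx0
  set xL : Fin n → w.Λ := fun j => ⟨x j, hxΛ j⟩ with hxL
  have hξL : (fun i => w.ψ (xL i)) = ξ := funext hxξ'
  have e1 : (fun i => w.Λ.subtype ((act fL)^[t] xL i)) = (act f)^[t] x := by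
    have := Tn_iter_map w.Λ.subtype fL xL t
    rw [hfK] at this
    exact this
  have e2 : (fun i => w.ψ ((act fL)^[t] xL i)) = (act fun i => map w.ψ (fL i))^[t] ξ := by
    have := Tn_iter_map w.ψ fL xL t
    rw [hξL] at this
    exact this
  have e3 : eval ((act fL)^[t] xL) HL0 = 0 := by
    apply Subtype.val_injective
    have := Tn_eval_map w.Λ.subtype HL0 ((act fL)^[t] xL)
    rw [hHL0, e1, h0] at this
    exact this
  have e5 := Tn_eval_map w.ψ HL0 ((act fL)^[t] xL)
  rw [e3, map_zero, e2] at e5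
  apply hcyc t
  rw [map_mul, ← e5, zero_mul]

end H42.ZD
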