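import Mathlib

/-!
# ZD row IPa: degree-one polynomials over a locally finite field have only periodic points

PROOF. `Φ = aX + b` with `a ≠ 0`. Given `y`, choose `r_1, r_2, r_3 > 0` with `a^(p^r_1) = a`,
`b^(p^r_2) = b`, `y^(p^r_3) = y` and put `r = r_1 r_2 r_3 > 0`, `q = p^r`. Iterating, `z ↦ z^(p^{r_i})`
fixed implies `z^(p^r) = z` for `z = a, b, y` (`z^(p^(r_1 m)) = z` by induction on `m`).
The set `E = {z : k | z ^ q = z}` is finite (roots of the non-zero polynomial `X^q - X`, `q ≥ 2`)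
and closed under addition and multiplication (`add_pow_char_pow`, `mul_pow`), so the map
`φ(z) = a z + b` maps `E` to `E`; it is injective because `a ≠ 0`. An injective self-map of a finite
set is a permutation, so some iterate `φ^[N]`, `N > 0`, fixes `y`
(e.g. `Function.Injective.mem_periodicPts`/`isPeriodicPt...` of Mathlib for `Finite` types, or
pigeonhole: `φ^[i] y = φ^[j] y` with `i < j`, cancel `φ^[i]` by injectivity).
-/

namespace H42.ZD

private theorem IPa_pow {k : Type*} [Field k] (p : ℕ) (z : k) (r m : ℕ) (h : z ^ (p ^ r) = z) :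
    z ^ (p ^ (r * m)) = z := by
  induction m with
  | zero => simp
  | succ m ih => rw [Nat.mul_succ, pow_add, pow_mul, ih, h]

private theorem IPa_iter {k : Type*} (f : k → k) (P : k → Prop) (h : ∀ z, P z → P (f z)) (y : k)
    (hy : P y) (n : ℕ) : P (f^[n] y) := by
  induction n with
  | zero => simpa using hy
  | succ n ih =>
    rw [Function.iterate_succ_apply']
    exact h _ ih

theorem IPa {k : Type*} [Field k] {p : ℕ} [Fact p.Prime] [CharP k p]
    (lf : ∀ y : k, ∃ r : ℕ, 0 < r ∧ y ^ (p ^ r) = y) (Φ : Polynomial k) (hΦ : Φ.natDegree = 1)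
    (y : k) : ∃ N : ℕ, 0 < N ∧ (fun z => Φ.eval z)^[N] y = y := by
  obtain ⟨a, ha⟩ : ∃ a, a = Φ.coeff 1 := ⟨_, rfl⟩
  obtain ⟨b, hb⟩ : ∃ b, b = Φ.coeff 0 := ⟨_, rfl⟩
  have hΦab : ∀ z, Φ.eval z = a * z + b := by
    intro z
    have h1 := Polynomial.eq_X_add_C_of_natDegree_le_one (p := Φ) hΦ.le
    rw [← ha, ← hb] at h1
    rw [h1]
    simp
  have ha0 : a ≠ 0 := by
    rw [ha, ← hΦ]
    intro h0
    have h1 : Φ.leadingCoeff = 0 := h0
    rw [Polynomial.leadingCoeff_eq_zero] at h1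
    rw [h1] at hΦ
    simp at hΦ
  obtain ⟨r1, hr1, h1⟩ := lf a
  obtain ⟨r2, hr2, h2⟩ := lf b
  obtain ⟨r3, hr3, h3⟩ := lf y
  obtain ⟨r, hr⟩ : ∃ r, r = r1 * r2 * r3 := ⟨_, rfl⟩
  have hr0 : 0 < r := by rw [hr]; positivity
  have hpp : p.Prime := Fact.out
  have hA : a ^ (p ^ r) = a := by
    have h := IPa_pow p a r1 (r2 * r3) h1
    rwa [← mul_assoc, ← hr] at h
  have hB : b ^ (p ^ r) = b := by
    have h := IPa_pow p b r2 (r1 * r3) h2
    have h' : r2 * (r1 * r3) = r := by rw [hr]; ring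
    rwa [h'] at h
  have hY : y ^ (p ^ r) = y := by
    have h := IPa_pow p y r3 (r1 * r2) h3
    have h' : r3 * (r1 * r2) = r := by rw [hr]; ring
    rwa [h'] at h
  have hq : 1 < p ^ r := Nat.one_lt_pow (by omega) hpp.one_lt
  have hfin : {z : k | z ^ (p ^ r) = z}.Finite := by
    have hne : (Polynomial.X ^ (p ^ r) - Polynomial.X : Polynomial k) ≠ 0 :=
      FiniteField.X_pow_card_sub_X_ne_zero k hq
    refine (Polynomial.finite_setOfPred_isRoot hne).subset ?_
    intro z hz
    have hz' : z ^ (p ^ r) = z := hz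
    show Polynomial.IsRoot _ z
    rw [Polynomial.IsRoot.def]
    simp [hz']
  have hmap : ∀ z : k, z ^ (p ^ r) = z → (Φ.eval z) ^ (p ^ r) = Φ.eval z := by
    intro z hz
    rw [hΦab, add_pow_char_pow, mul_pow, hA, hB, hz]
  have hinj : Function.Injective (fun z => Φ.eval z) := by
    intro z w hzw
    have h : Φ.eval z = Φ.eval w := hzw
    rw [hΦab, hΦab] at h
    exact mul_left_cancel₀ ha0 (add_right_cancel h)
  have hmem : ∀ n : ℕ, (fun z => Φ.eval z)^[n] y ∈ {z : k | z ^ (p ^ r) = z} := by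
    intro n
    exact IPa_iter (fun z => Φ.eval z) (fun z => z ^ (p ^ r) = z) hmap y hY n
  obtain ⟨i, j, hij, he⟩ := Set.Finite.exists_lt_map_eq_of_forall_mem hmem hfin
  refine ⟨j - i, by omega, ?_⟩
  have hj : j = i + (j - i) := by omega
  rw [hj, Function.iterate_add_apply] at he
  exact (hinj.iterate i he).symm

end H42.ZD
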