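import Mathlib

/-!
# ZD row IPb: polynomials of degree `≥ 2` over `\bar F_p` have infinitely many periodic points

PROOF. Write `Φ^r` for the `r`-th compositional iterate (a polynomial of degree `E^r`,
`Polynomial.natDegree_iterate_comp`, or define `It r = (fun q => q.comp Φ)^[r] X`), and suppose the
set `S` of periodic points of `Φ` is finite.

(1) Choose `M > 0` such that `G = Φ^M` fixes every point of `S` and `G'(s) ∈ {0, 1}` for all `s ∈ S`:
first take `M_1` = product of the periods of the points of `S` (finite), then `G_1 = Φ^{M_1}` fixes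
`S` pointwise; the multiplier `λ_s = G_1'(s)` satisfies `λ_s^(p^r) = λ_s` for some `r > 0`, so
`λ_s = 0` or `λ_s^(p^r - 1) = 1`; take `M_2` = product over `s ∈ S` of `p^{r_s} - 1 > 0` and
`G = G_1^{M_2}`; `G'(s) = λ_s^{M_2}` because `(A ∘ B)'(s) = A'(B s) B'(s)` and `G_1 s = s`.
`G` has degree `E := deg G ≥ 2`. Every periodic point of `G` is a periodic point of `Φ`, so lies in
`S`; in particular every root of `G^r - X` (`r ≥ 1`) lies in `S`.

(2) Fix `s ∈ S`. `s` is a root of `G - X ≠ 0`. Write `G - X = (X - s)^m w` with `w(s) ≠ 0`, `m ≥ 1`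
the root multiplicity, and `G - s = (X - s) v`, so `v(s) = G'(s) ∈ {0, 1}`.
If `v(s) = 0` then `(G - X)'(s) = -1 ≠ 0`, so `m = 1`.
Put `D_r = G^r - X`. Then `D_{r+1} = D_r ∘ G + D_1`. By induction on `r ≥ 1`, `D_r = (X - s)^m w_r`
with `w_1 = w`, `w_{r+1} = v^m · (w_r ∘ G) + w`, because
`D_r ∘ G = (G - s)^m (w_r ∘ G) = (X - s)^m v^m (w_r ∘ G)`. Evaluate at `s` (`G(s) = s`):
`w_{r+1}(s) = v(s)^m w_r(s) + w(s)`.
If `v(s) = 0` (then `m = 1`): `w_{r+1}(s) = w(s)`. If `v(s) = 1`: `w_r(s) = r w(s)`.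
So for `r = p + 1`, in both cases `w_{p+1}(s) = w(s) ≠ 0` in characteristic `p`.
Hence `rootMultiplicity s (G^{p+1} - X) = rootMultiplicity s (G - X)` for all `s ∈ S`.

(3) `k` is algebraically closed, so (degree = number of roots with multiplicity, all roots in `S`)
`deg (G^{p+1} - X) = Σ_{s ∈ S} mult_s (G^{p+1} - X) = Σ_{s ∈ S} mult_s (G - X) = deg (G - X)`,
i.e. `E^{p+1} = E` (as `E ≥ 2`, subtracting `X` does not change the degree). This is absurd since
`E ≥ 2`. (Equivalently: `roots (G^{p+1} - X) = roots (G - X)` as multisets, by `Multiset.ext` and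
`Polynomial.count_roots`, and `IsAlgClosed.card_roots_eq_natDegree`-type lemma
(`Polynomial.splits_iff_card_roots` + `IsAlgClosed.splits`).)
-/

namespace H42.ZD

open Polynomial in
/-- The `r`-th compositional iterate. -/
noncomputable def IPb_It {k : Type*} [Field k] (G : Polynomial k) (r : ℕ) : Polynomial k :=
  (fun q => q.comp G)^[r] X

section aux

open Polynomial

variable {k : Type*} [Field k]

theorem IPb_zero (G : Polynomial k) : IPb_It G 0 = X := rfl

theorem IPb_succ (G : Polynomial k) (r : ℕ) : IPb_It G (r + 1) = (IPb_It G r).comp G :=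
  Function.iterate_succ_apply' _ _ _

theorem IPb_one (G : Polynomial k) : IPb_It G 1 = G := by
  rw [IPb_succ, IPb_zero, X_comp]

theorem IPb_deg (G : Polynomial k) (r : ℕ) : (IPb_It G r).natDegree = G.natDegree ^ r := by
  induction r with
  | zero => rw [IPb_zero, natDegree_X, pow_zero]
  | succ r ih => rw [IPb_succ, natDegree_comp, ih, pow_succ]

theorem IPb_eval (G : Polynomial k) (r : ℕ) (y : k) :
    (IPb_It G r).eval y = (fun z => G.eval z)^[r] y := by
  induction r generalizing y with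
  | zero => rw [IPb_zero, eval_X, Function.iterate_zero, id]
  | succ r ih => rw [IPb_succ, eval_comp, ih, Function.iterate_succ_apply]

theorem IPb_der (G : Polynomial k) {s : k} (hs : G.eval s = s) (r : ℕ) :
    (derivative (IPb_It G r)).eval s = (derivative G).eval s ^ r := by
  induction r with
  | zero => rw [IPb_zero, derivative_X, eval_one, pow_zero]
  | succ r ih => rw [IPb_succ, derivative_comp, eval_mul, eval_comp, hs, ih, pow_succ, mul_comm]

theorem IPb_subdeg {G : Polynomial k} (hG : 2 ≤ G.natDegree) {r : ℕ} (hr : r ≠ 0) :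
    (IPb_It G r - X).natDegree = G.natDegree ^ r := by
  have h1 : 1 < G.natDegree ^ r := Nat.one_lt_pow hr (by omega)
  rw [natDegree_sub_eq_left_of_natDegree_lt, IPb_deg]
  rw [IPb_deg, natDegree_X]
  exact h1

theorem IPb_ne {G : Polynomial k} (hG : 2 ≤ G.natDegree) {r : ℕ} (hr : r ≠ 0) :
    IPb_It G r - X ≠ 0 := by
  intro h0
  have h1 := IPb_subdeg hG hr
  rw [h0, natDegree_zero] at h1
  have h2 : 1 < G.natDegree ^ r := Nat.one_lt_pow hr (by omega)
  omega

theorem IPb_mult {p : ℕ} [Fact p.Prime] [CharP k p] {G : Polynomial k} (hG : 2 ≤ G.natDegree)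
    {s : k} (hs : G.eval s = s)
    (h01 : (derivative G).eval s = 0 ∨ (derivative G).eval s = 1) :
    (IPb_It G (p + 1) - X).rootMultiplicity s = (IPb_It G 1 - X).rootMultiplicity s := by
  rw [IPb_one]
  have hne : G - X ≠ 0 := by
    have h := IPb_ne hG one_ne_zero
    rwa [IPb_one] at h
  obtain ⟨w, hw, hnd⟩ := exists_eq_pow_rootMultiplicity_mul_and_not_dvd (G - X) hne s
  obtain ⟨m, hm⟩ : ∃ m, m = (G - X).rootMultiplicity s := ⟨_, rfl⟩
  rw [← hm] at hw ⊢
  have hws : w.eval s ≠ 0 := fun h0 => hnd (dvd_iff_isRoot.2 h0)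
  have hm0 : m ≠ 0 := by
    rintro rfl
    rw [pow_zero, one_mul] at hw
    apply hws
    rw [← hw, eval_sub, eval_X, hs, sub_self]
  obtain ⟨v, hv⟩ : (X - C s) ∣ G - C s := by
    refine dvd_iff_isRoot.2 ?_
    change (G - C s).eval s = 0
    rw [eval_sub, eval_C, hs, sub_self]
  have hvs : v.eval s = (derivative G).eval s := by
    have h1 := congrArg (fun q => (derivative q).eval s) hv
    simp only [derivative_sub, derivative_C, sub_zero, derivative_mul, derivative_X, one_mul,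
      eval_add, eval_mul, eval_sub, eval_X, eval_C, sub_self, zero_mul, add_zero] at h1
    exact h1.symm
  have key : ∀ r : ℕ, ∃ u : Polynomial k, IPb_It G (r + 1) - X = (X - C s) ^ m * u ∧
      (v.eval s = 0 → u.eval s = w.eval s) ∧
      (v.eval s = 1 → u.eval s = ((r : k) + 1) * w.eval s) := by
    intro r
    induction r with
    | zero =>
      refine ⟨w, ?_, fun _ => rfl, fun _ => ?_⟩
      · rw [zero_add, IPb_one]
        exact hw
      · rw [Nat.cast_zero, zero_add, one_mul]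
    | succ r ih =>
      obtain ⟨u, hu, h0, h1⟩ := ih
      refine ⟨v ^ m * u.comp G + w, ?_, fun h => ?_, fun h => ?_⟩
      · have e1 : IPb_It G (r + 1 + 1) - X = (IPb_It G (r + 1) - X).comp G + (G - X) := by
          rw [IPb_succ, sub_comp, X_comp]
          ring
        have e2 : ((X - C s) ^ m * u).comp G = (G - C s) ^ m * u.comp G := by
          rw [mul_comp, pow_comp, sub_comp, X_comp, C_comp]
        rw [e1, hu, e2, hv, hw, mul_pow]
        ring
      · rw [eval_add, eval_mul, eval_pow, h, zero_pow hm0, zero_mul, zero_add]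
      · rw [eval_add, eval_mul, eval_pow, h, one_pow, one_mul, eval_comp, hs, h1 h]
        push_cast
        ring
  obtain ⟨u, hu, h0, h1⟩ := key p
  have hus : u.eval s ≠ 0 := by
    rcases h01 with h | h
    · rw [h0 (hvs.trans h)]
      exact hws
    · rw [h1 (hvs.trans h), CharP.cast_eq_zero, zero_add, one_mul]
      exact hws
  have hu0 : u ≠ 0 := by
    rintro rfl
    exact hus eval_zero
  rw [hu, mul_comm, rootMultiplicity_mul_X_sub_C_pow hu0, rootMultiplicity_eq_zero hus, zero_add]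

theorem IPb_main [IsAlgClosed k] {p : ℕ} [Fact p.Prime] [CharP k p] {G : Polynomial k}
    (hG : 2 ≤ G.natDegree)
    (h : ∀ s : k, (∃ r : ℕ, r ≠ 0 ∧ (fun z => G.eval z)^[r] s = s) → G.eval s = s ∧
      ((derivative G).eval s = 0 ∨ (derivative G).eval s = 1)) : False := by
  have hroot : ∀ (r : ℕ), r ≠ 0 → ∀ a : k, ¬ (G.eval a = a ∧
      ((derivative G).eval a = 0 ∨ (derivative G).eval a = 1)) →
      (IPb_It G r - X).rootMultiplicity a = 0 := by
    intro r hr a ha
    refine rootMultiplicity_eq_zero fun h0 => ha (h a ⟨r, hr, ?_⟩)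
    have h1 : (IPb_It G r - X).eval a = 0 := h0
    rw [eval_sub, eval_X, IPb_eval] at h1
    exact sub_eq_zero.1 h1
  have hr : (IPb_It G (p + 1) - X).roots = (IPb_It G 1 - X).roots := by
    classical
    refine Multiset.ext.2 fun a => ?_
    rw [count_roots, count_roots]
    by_cases ha : G.eval a = a ∧ ((derivative G).eval a = 0 ∨ (derivative G).eval a = 1)
    · exact IPb_mult hG ha.1 ha.2
    · rw [hroot _ (Nat.succ_ne_zero p) a ha, hroot _ one_ne_zero a ha]
  have h1 : ∀ q : Polynomial k, q.roots.card = q.natDegree := fun q =>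
    splits_iff_card_roots.1 (IsAlgClosed.splits q)
  have h2 := h1 (IPb_It G (p + 1) - X)
  rw [hr, h1, IPb_subdeg hG one_ne_zero, IPb_subdeg hG (Nat.succ_ne_zero p)] at h2
  have hp : 1 < p + 1 := Nat.succ_lt_succ (Fact.out (p := p.Prime)).pos
  exact absurd h2 (Nat.pow_lt_pow_right (by omega) hp).ne

end aux

theorem IPb {k : Type*} [Field k] [IsAlgClosed k] {p : ℕ} [Fact p.Prime] [CharP k p]
    (lf : ∀ y : k, ∃ r : ℕ, 0 < r ∧ y ^ (p ^ r) = y) (Φ : Polynomial k) (hΦ : 2 ≤ Φ.natDegree) :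
    {y : k | ∃ N : ℕ, 0 < N ∧ (fun z => Φ.eval z)^[N] y = y}.Infinite := by
  intro hfin
  obtain ⟨f, hf⟩ : ∃ f : k → k, f = fun z => Φ.eval z := ⟨_, rfl⟩
  rw [← hf] at hfin
  obtain ⟨S, hS⟩ : ∃ S : Finset k, ∀ y, y ∈ S ↔ ∃ N : ℕ, 0 < N ∧ f^[N] y = y :=
    ⟨hfin.toFinset, fun y => hfin.mem_toFinset⟩
  have hc : ∀ y : k, ∃ N : ℕ, 0 < N ∧ (y ∈ S → Function.IsPeriodicPt f N y) := by
    intro y
    by_cases hy : y ∈ S
    · obtain ⟨N, h1, h2⟩ := (hS y).1 hy
      exact ⟨N, h1, fun _ => h2⟩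
    · exact ⟨1, one_pos, fun h => absurd h hy⟩
  choose N hN0 hN using hc
  obtain ⟨M₁, hM₁⟩ : ∃ M, M = ∏ y ∈ S, N y := ⟨_, rfl⟩
  have hM₁0 : 0 < M₁ := by
    rw [hM₁]
    exact Finset.prod_pos fun y _ => hN0 y
  have hfix : ∀ y ∈ S, Function.IsPeriodicPt f M₁ y := by
    intro y hy
    refine (hN y hy).trans_dvd ?_
    rw [hM₁]
    exact Finset.dvd_prod_of_mem _ hy
  obtain ⟨G₁, hG₁⟩ : ∃ G, G = IPb_It Φ M₁ := ⟨_, rfl⟩
  have hev₁ : (fun z => G₁.eval z) = f^[M₁] := by
    funext z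
    rw [hG₁, IPb_eval, ← hf]
  have hs₁ : ∀ s ∈ S, G₁.eval s = s := by
    intro s hs
    exact (congrFun hev₁ s).trans (hfix s hs)
  choose R hR0 hR using fun s : k => lf ((Polynomial.derivative G₁).eval s)
  have hp2 : 2 ≤ p := (Fact.out (p := p.Prime)).two_le
  have hpr : ∀ s, 0 < p ^ R s - 1 := fun s =>
    Nat.sub_pos_of_lt (Nat.one_lt_pow (hR0 s).ne' (by omega))
  obtain ⟨M₂, hM₂⟩ : ∃ M, M = ∏ y ∈ S, (p ^ R y - 1) := ⟨_, rfl⟩
  have hM₂0 : 0 < M₂ := by
    rw [hM₂]
    exact Finset.prod_pos fun y _ => hpr y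
  obtain ⟨G, hG⟩ : ∃ G, G = IPb_It G₁ M₂ := ⟨_, rfl⟩
  have hev : (fun z => G.eval z) = f^[M₁ * M₂] := by
    funext z
    rw [hG, IPb_eval, hev₁, Function.iterate_mul]
  have hdeg : 2 ≤ G.natDegree := by
    rw [hG, IPb_deg, hG₁, IPb_deg]
    have h1 : 2 ≤ Φ.natDegree ^ M₁ := hΦ.trans (Nat.le_self_pow hM₁0.ne' _)
    exact h1.trans (Nat.le_self_pow hM₂0.ne' _)
  refine IPb_main (p := p) hdeg ?_
  rintro s ⟨r, hr, h1⟩
  have hs : s ∈ S := by
    rw [hS]
    refine ⟨M₁ * M₂ * r, Nat.mul_pos (Nat.mul_pos hM₁0 hM₂0) (Nat.pos_of_ne_zero hr), ?_⟩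
    rw [Function.iterate_mul, ← hev]
    exact h1
  refine ⟨?_, ?_⟩
  · rw [hG, IPb_eval]
    exact Function.iterate_fixed (hs₁ s hs) M₂
  · rw [hG, IPb_der G₁ (hs₁ s hs)]
    by_cases h0 : (Polynomial.derivative G₁).eval s = 0
    · left
      rw [h0, zero_pow hM₂0.ne']
    · right
      have h2 : (Polynomial.derivative G₁).eval s ^ (p ^ R s - 1) = 1 := by
        refine mul_right_cancel₀ h0 ?_
        rw [← pow_succ, Nat.sub_add_cancel (Nat.one_le_pow _ _ (by omega)), one_mul]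
        exact hR s
      obtain ⟨c, hcc⟩ : p ^ R s - 1 ∣ M₂ := by
        rw [hM₂]
        exact Finset.dvd_prod_of_mem (fun y => p ^ R y - 1) hs
      rw [hcc, pow_mul, h2, one_pow]

end H42.ZD
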