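import Pool.Agent.H42.ZD.Df
import Pool.Agent.H42.ZD.IPa
import Pool.Agent.H42.ZD.IPb

/-!
# ZD row CL: a triangular map over `\bar F_p` has a cycle avoiding a given hypersurface

PROOF. Induction on `n`.

`n = 0`: `k^0` is one point, fixed by `act f`; `H ≠ 0` is a non-zero constant
(`MvPolynomial.isEmptyRingEquiv` / `eval` at the unique point is injective on
`MvPolynomial (Fin 0) k`); take `N = 1`.

`n + 1`: by `tri_step`, `f = Step g h` with `g` triangular and `d = h.natDegree ≥ 1`. Let
`Ĥ = finSuccEquiv k n H ≠ 0` (a polynomial over `MvPolynomial (Fin n) k`) and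
`H' = Ĥ.leadingCoeff * h.leadingCoeff ≠ 0`. By induction there are `x` and `N > 0` with
`(act g)^[N] x = x` and `eval (x_t) H' ≠ 0` for all `t`, where `x_t = (act g)^[t] x`.
Let `h_t = h.map (eval x_t)`, a polynomial over `k` of degree `d` (its leading coefficient is
`eval x_t h.leadingCoeff ≠ 0`), and `Φ = h_{N-1} ∘ … ∘ h_0` (define `Φ_0 = X`,
`Φ_{t+1} = h_t.comp Φ_t`, `Φ = Φ_N`), of degree `d^N ≥ 1`. By definition
`fib g h x y t = Φ_t.eval y`, and `x_{t+N} = x_t` gives
`(act f)^[N] (cons y x) = cons (Φ.eval y) x`, hence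
`(act f)^[N * m] (cons y x) = cons ((fun z => Φ.eval z)^[m] y) x` (`step_iter` of `Df.lean`).
By `IPa` (if `natDegree Φ = 1`, all `y`; `k` is infinite) or `IPb` (degree `≥ 2`), the set `Per` of
`Φ`-periodic `y` is infinite. For `y ∈ Per`, `(y, x)` is `act f`-periodic: if
`(fun z => Φ.eval z)^[m] y = y` with `m > 0` then `(act f)^[N * m] (y, x) = (y, x)`.

Bad points: for each `t < N` the set `B_t = {z : k | (Ĥ.map (eval x_t)).eval z = 0}` is finite because
`Ĥ.map (eval x_t) ≠ 0` (its leading coefficient `eval x_t Ĥ.leadingCoeff` is non-zero). Let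
`B = {cons z x_t | t < N, z ∈ B_t}`, a finite set of points of `k^{n+1}`. Suppose for every
`y ∈ Per` the orbit of `(y, x)` meets `{H = 0}`. By `eval_eq_eval_mv_eval'` and
`step_iter`, the orbit point `(act f)^[t] (y,x) = cons (fib … t) x_t` with `H = 0` at it lies in `B`
(`x_t` depends only on `t mod N`). So `Per` is the union over `b ∈ B` of
`Per_b = {y ∈ Per | b ∈ orbit of (y, x)}`, and each `Per_b` is finite: if `y ∈ Per_b` then `(y, x)` is
periodic, so it lies on the forward orbit of `b` (periodic point: `b = F^[t](y,x)` and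
`(y,x) = F^[s] b` for some `s`), `b` is periodic, and the orbit of a periodic point is a finite set;
`y ↦ (y, x)` is injective. So `Per` would be finite, a contradiction. Hence some `y ∈ Per` works,
`ξ = cons y x`.
-/

open MvPolynomial

namespace H42.ZD

private theorem CL_orbit_finite {α : Type*} (F : α → α) (b : α) (M : ℕ) (hM : 0 < M)
    (h : F^[M] b = b) : (Set.range fun s : ℕ => F^[s] b).Finite := by
  have hp : Function.IsPeriodicPt F M b := h
  refine ((Finset.range M).finite_toSet.image (fun s : ℕ => F^[s] b)).subset ?_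
  rintro _ ⟨s, rfl⟩
  exact ⟨s % M, by simpa using Nat.mod_lt s hM, hp.iterate_mod_apply s⟩

private theorem CL_back {α : Type*} (F : α → α) (q : α) (M t : ℕ) (hM : 0 < M)
    (h : F^[M] q = q) : F^[M] (F^[t] q) = F^[t] q ∧ ∃ s : ℕ, F^[s] (F^[t] q) = q := by
  have hp : Function.IsPeriodicPt F M q := h
  refine ⟨hp.apply_iterate t, (M - 1) * t, ?_⟩
  rw [← Function.iterate_add_apply]
  have e : (M - 1) * t + t = t * M := by
    obtain ⟨m, rfl⟩ : ∃ m, M = m + 1 := ⟨M - 1, by omega⟩
    simp only [Nat.add_sub_cancel]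
    ring
  rw [e]
  exact hp.const_mul t

private noncomputable def CL_Phi {k : Type*} [Field k] {n : ℕ} (g : Fin n → MvPolynomial (Fin n) k)
    (h : Polynomial (MvPolynomial (Fin n) k)) (x : Fin n → k) : ℕ → Polynomial k
  | 0 => Polynomial.X
  | t + 1 => (h.map (eval ((act g)^[t] x))).comp (CL_Phi g h x t)

private theorem CL_fib {k : Type*} [Field k] {n : ℕ} (g : Fin n → MvPolynomial (Fin n) k)
    (h : Polynomial (MvPolynomial (Fin n) k)) (x : Fin n → k) (y : k) (t : ℕ) :
    fib g h x y t = (CL_Phi g h x t).eval y := by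
  induction t with
  | zero => simp [fib, CL_Phi]
  | succ t ih => rw [CL_Phi, Polynomial.eval_comp, ← ih, fib]

private theorem CL_deg {k : Type*} [Field k] {n : ℕ} (g : Fin n → MvPolynomial (Fin n) k)
    (h : Polynomial (MvPolynomial (Fin n) k)) (x : Fin n → k)
    (hx : ∀ t : ℕ, eval ((act g)^[t] x) h.leadingCoeff ≠ 0) (t : ℕ) :
    (CL_Phi g h x t).natDegree = h.natDegree ^ t := by
  induction t with
  | zero => simp [CL_Phi]
  | succ t ih =>
    rw [CL_Phi, Polynomial.natDegree_comp, ih,
      Polynomial.natDegree_map_of_leadingCoeff_ne_zero _ (hx t), pow_succ, mul_comm]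

theorem CL {k : Type*} [Field k] [IsAlgClosed k] {p : ℕ} [Fact p.Prime] [CharP k p]
    (lf : ∀ y : k, ∃ r : ℕ, 0 < r ∧ y ^ (p ^ r) = y) {n : ℕ}
    (f : Fin n → MvPolynomial (Fin n) k) (hf : Tri f) (H : MvPolynomial (Fin n) k) (hH : H ≠ 0) :
    ∃ ξ : Fin n → k, ∃ N : ℕ, 0 < N ∧ (act f)^[N] ξ = ξ ∧
      ∀ t : ℕ, eval ((act f)^[t] ξ) H ≠ 0 := by
  induction n with
  | zero =>
    refine ⟨fun i => i.elim0, 1, one_pos, Subsingleton.elim _ _, fun t => ?_⟩
    rw [MvPolynomial.eq_C_of_isEmpty H] at hH ⊢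
    rw [eval_C]
    intro h0
    exact hH (by rw [h0, C_0])
  | succ n ih =>
    obtain ⟨g, h, hg, hd, rfl⟩ := tri_step f hf
    have hHh : finSuccEquiv k n H ≠ 0 := by
      intro h0; exact hH (by simpa using h0)
    have hh0 : h ≠ 0 := by
      rintro rfl; simp at hd
    obtain ⟨x, N, hN, hx, hxH⟩ := ih g hg ((finSuccEquiv k n H).leadingCoeff * h.leadingCoeff)
      (mul_ne_zero (Polynomial.leadingCoeff_ne_zero.2 hHh) (Polynomial.leadingCoeff_ne_zero.2 hh0))
    have hx1 : ∀ t : ℕ, eval ((act g)^[t] x) (finSuccEquiv k n H).leadingCoeff ≠ 0 := fun t h0 =>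
      hxH t (by rw [map_mul, h0, zero_mul])
    have hx2 : ∀ t : ℕ, eval ((act g)^[t] x) h.leadingCoeff ≠ 0 := fun t h0 =>
      hxH t (by rw [map_mul, h0, mul_zero])
    have hxp : Function.IsPeriodicPt (act g) N x := hx
    -- the return polynomial
    have hdeg := CL_deg g h x hx2 N
    have hF : ∀ (y : k) (m : ℕ), (act (Step g h))^[N * m] (Fin.cons y x) =
        Fin.cons ((fun z => (CL_Phi g h x N).eval z)^[m] y) x := by
      intro y m
      induction m with
      | zero => rfl
      | succ m ihm =>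
        rw [Nat.mul_succ, Nat.add_comm (N * m) N, Function.iterate_add_apply, ihm, step_iter, CL_fib, hx,
          Function.iterate_succ_apply']
    have hPer : {y : k | ∃ M : ℕ, 0 < M ∧
        (fun z => (CL_Phi g h x N).eval z)^[M] y = y}.Infinite := by
      by_cases h1 : (CL_Phi g h x N).natDegree = 1
      · have : Infinite k := IsAlgClosed.instInfinite
        have hu : {y : k | ∃ M : ℕ, 0 < M ∧
            (fun z => (CL_Phi g h x N).eval z)^[M] y = y} = Set.univ := by
          ext y
          simp only [Set.mem_ofPred_eq, Set.mem_univ, iff_true]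
          exact IPa lf _ h1 y
        rw [hu]
        exact Set.infinite_univ
      · refine IPb lf _ ?_
        have h2 : 1 ≤ h.natDegree ^ N := Nat.one_le_pow _ _ hd
        rw [← hdeg] at h2
        omega
    by_contra hcon
    push Not at hcon
    apply hPer
    -- bad points
    set B : Set (Fin (n + 1) → k) := ⋃ t ∈ Finset.range N,
      (fun z : k => (Fin.cons z ((act g)^[t] x) : Fin (n + 1) → k)) ''
        {z : k | ((finSuccEquiv k n H).map (eval ((act g)^[t] x))).IsRoot z} with hB
    have hBf : B.Finite := by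
      refine Set.Finite.biUnion (Finset.finite_toSet _) fun t _ => Set.Finite.image _ ?_
      refine Polynomial.finite_setOfPred_isRoot fun h0 => ?_
      have h3 := congrArg (fun q => Polynomial.coeff q (finSuccEquiv k n H).natDegree) h0
      simp only [Polynomial.coeff_map, Polynomial.coeff_zero] at h3
      exact hx1 t h3
    have hOf : (⋃ b ∈ B, {q : Fin (n + 1) → k | ∃ M : ℕ, 0 < M ∧ (act (Step g h))^[M] b = b ∧
        ∃ s : ℕ, (act (Step g h))^[s] b = q}).Finite := by
      refine Set.Finite.biUnion hBf fun b _ => ?_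
      by_cases hb : ∃ M : ℕ, 0 < M ∧ (act (Step g h))^[M] b = b
      · obtain ⟨M, hM, hMb⟩ := hb
        refine (CL_orbit_finite _ b M hM hMb).subset ?_
        rintro q ⟨_, _, _, s, rfl⟩
        exact ⟨s, rfl⟩
      · have he : {q : Fin (n + 1) → k | ∃ M : ℕ, 0 < M ∧ (act (Step g h))^[M] b = b ∧
            ∃ s : ℕ, (act (Step g h))^[s] b = q} = ∅ := by
          ext q
          simp only [Set.mem_ofPred_eq, Set.mem_empty_iff_false, iff_false]
          rintro ⟨M, hM, hMb, _⟩
          exact hb ⟨M, hM, hMb⟩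
        rw [he]
        exact Set.finite_empty
    have hinj : Function.Injective (fun y : k => (Fin.cons y x : Fin (n + 1) → k)) := by
      intro y y' hy
      have := congrFun hy 0
      simpa using this
    refine (hOf.preimage (f := fun y : k => (Fin.cons y x : Fin (n + 1) → k))
      (hinj.injOn)).subset ?_
    rintro y ⟨M, hM, hMy⟩
    have hq : (act (Step g h))^[N * M] (Fin.cons y x) = Fin.cons y x := by
      rw [hF, hMy]
    obtain ⟨t, ht⟩ := hcon (Fin.cons y x) (N * M) (Nat.mul_pos hN hM) hq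
    obtain ⟨hb1, s, hs⟩ := CL_back (act (Step g h)) (Fin.cons y x) (N * M) t
      (Nat.mul_pos hN hM) hq
    simp only [Set.mem_preimage, Set.mem_iUnion, Set.mem_ofPred_eq, exists_prop]
    refine ⟨(act (Step g h))^[t] (Fin.cons y x), ?_, N * M, Nat.mul_pos hN hM, hb1, s, hs⟩
    rw [step_iter] at ht ⊢
    rw [hB]
    simp only [Set.mem_iUnion, exists_prop, Finset.mem_range]
    have hxt : (act g)^[t % N] x = (act g)^[t] x := hxp.iterate_mod_apply t
    refine ⟨t % N, Nat.mod_lt t hN, fib g h x y t, ?_, ?_⟩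
    · rw [hxt]
      simp only [Set.mem_ofPred_eq, Polynomial.IsRoot.def]
      rw [← eval_eq_eval_mv_eval']
      exact ht
    · simp only [hxt]

end H42.ZD
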