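import Pool.Agent.H42.ZD.Df

/-!
# ZD row DS: descent from `K` to a subfield

`ι : K₁ → K` an embedding of fields, `f` over `K₁`.

PROOF.
(a) Dense over `K₁` implies dense over `K`. Let `0 ≠ P ∈ K[X]`; some coefficient `a = P.coeff m ≠ 0`.
Regard `K` as a `K₁`-vector space through `ι`; there is a `K₁`-linear functional `λ : K → K₁` with
`λ a ≠ 0` (`exists_dual_forall_apply_eq_zero_iff`-type lemma / `Module.forall_dual_apply_eq_zero_iff
K₁ a`). Let `Q = Σ_m monomial m (λ (P.coeff m)) ∈ K₁[X]` (finite sum over `P.support`), `Q ≠ 0`.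
For `x ∈ K₁^n`: `λ (eval (ι ∘ x) P) = eval x Q` since `eval (ι ∘ x) P = Σ_m P.coeff m * ι (∏ x_i^{m_i})`
and `λ (c * ι s) = s * λ c`. The orbit: `(act (map ι ∘ f))^[t] (ι ∘ x) = ι ∘ (act f)^[t] x`. If
`eval x_t Q ≠ 0` then `eval (ι ∘ x_t) P ≠ 0`.
(b) `Inv f` over `K₁` implies `Inv` over `K`: take `map ι P`, `map ι Q`. `map ι Q ≠ 0` and the
functional equation are clear (`map` commutes with `bind₁`: `MvPolynomial.map_bind₁`). If
`map ι P = C c * map ι Q` with `c ∈ K`: choose `m` with `Q.coeff m ≠ 0`; then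
`ι (P.coeff m) = c * ι (Q.coeff m)`, so `c = ι c₁` with `c₁ = P.coeff m / Q.coeff m`, and
`map ι P = map ι (C c₁ * Q)` gives `P = C c₁ * Q` by injectivity, a contradiction.
-/

open MvPolynomial

namespace H42.ZD

theorem DS_act {K₁ K : Type*} [Field K₁] [Field K] (ι : K₁ →+* K) {n : ℕ}
    (f : Fin n → MvPolynomial (Fin n) K₁) (y : Fin n → K₁) :
    act (fun i => map ι (f i)) (fun i => ι (y i)) = fun i => ι (act f y i) := by
  funext i
  simp only [act]
  rw [eval_map]
  have := eval₂_comp_left ι (RingHom.id K₁) y (f i)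
  rw [RingHom.comp_id] at this
  exact this.symm

theorem DS_orbit {K₁ K : Type*} [Field K₁] [Field K] (ι : K₁ →+* K) {n : ℕ}
    (f : Fin n → MvPolynomial (Fin n) K₁) (x : Fin n → K₁) (t : ℕ) :
    (act (fun i => map ι (f i)))^[t] (fun i => ι (x i)) = fun i => ι ((act f)^[t] x i) := by
  induction t with
  | zero => rfl
  | succ t ih =>
    rw [Function.iterate_succ_apply', ih, DS_act, Function.iterate_succ_apply']

theorem DSa {K₁ K : Type*} [Field K₁] [Field K] (ι : K₁ →+* K) {n : ℕ}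
    (f : Fin n → MvPolynomial (Fin n) K₁) (x : Fin n → K₁) (hx : Dense f x) :
    Dense (fun i => map ι (f i)) (fun i => ι (x i)) := by
  classical
  intro P hP
  obtain ⟨m, hm⟩ := ne_zero_iff.mp hP
  letI : Algebra K₁ K := ι.toAlgebra
  obtain ⟨φ, hφ⟩ : ∃ φ : Module.Dual K₁ K, φ (P.coeff m) ≠ 0 := by
    by_contra hcon
    push Not at hcon
    exact hm ((Module.forall_dual_apply_eq_zero_iff K₁ _).1 hcon)
  set Q : MvPolynomial (Fin n) K₁ := ∑ d ∈ P.support, monomial d (φ (P.coeff d)) with hQ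
  have hQm : Q.coeff m = φ (P.coeff m) := by
    rw [hQ, coeff_sum, Finset.sum_eq_single m]
    · rw [coeff_monomial, if_pos rfl]
    · intro d _ hd
      rw [coeff_monomial, if_neg hd]
    · intro hd
      rw [coeff_monomial, if_pos rfl, notMem_support_iff.1 hd, map_zero]
  have hQ0 : Q ≠ 0 := by
    intro h0
    apply hφ
    rw [← hQm, h0, coeff_zero]
  have key : ∀ y : Fin n → K₁, φ (eval (fun i => ι (y i)) P) = eval y Q := by
    intro y
    rw [eval_eq, hQ, map_sum, map_sum]
    apply Finset.sum_congr rfl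
    intro d _
    rw [eval_monomial]
    have h1 : P.coeff d * ∏ i ∈ d.support, (ι (y i)) ^ d i =
        (∏ i ∈ d.support, (y i) ^ d i : K₁) • P.coeff d := by
      rw [Algebra.smul_def, mul_comm]
      congr 1
      have : (algebraMap K₁ K) = ι := rfl
      rw [this, map_prod]
      simp only [map_pow]
    rw [h1, map_smul, smul_eq_mul, mul_comm]
    rfl
  obtain ⟨t, ht⟩ := hx Q hQ0
  refine ⟨t, ?_⟩
  intro h0
  apply ht
  rw [← key, ← DS_orbit, h0, map_zero]

theorem DSb {K₁ K : Type*} [Field K₁] [Field K] (ι : K₁ →+* K) {n : ℕ}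
    (f : Fin n → MvPolynomial (Fin n) K₁) (h : Inv f) : Inv (fun i => map ι (f i)) := by
  obtain ⟨P, Q, hQ, hc, he⟩ := h
  have hinj : Function.Injective (map (σ := Fin n) ι) := map_injective ι ι.injective
  refine ⟨map ι P, map ι Q, ?_, ?_, ?_⟩
  · intro h0
    apply hQ
    apply hinj
    rw [h0, map_zero]
  · intro c hcc
    obtain ⟨m, hm⟩ := ne_zero_iff.mp hQ
    have h1 : ι (P.coeff m) = c * ι (Q.coeff m) := by
      have := congrArg (coeff m) hcc
      rwa [coeff_map, coeff_C_mul, coeff_map] at this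
    have h2 : ι (Q.coeff m) ≠ 0 := by
      rwa [Ne, map_eq_zero]
    have h3 : c = ι (P.coeff m / Q.coeff m) := by
      rw [map_div₀, h1, mul_div_assoc, div_self h2, mul_one]
    apply hc (P.coeff m / Q.coeff m)
    apply hinj
    rw [hcc, h3, map_mul, map_C]
  · have h1 : ∀ p : MvPolynomial (Fin n) K₁,
        bind₁ (fun i => map ι (f i)) (map ι p) = map ι (bind₁ f p) := fun p =>
      (map_bind₁ ι f p).symm
    rw [h1, h1, ← map_mul, ← map_mul, he]

end H42.ZD
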