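import Mathlib

/-!
# MP_dd25b9 (Zariski dense orbits), project ZD: definitions and the triangular step

Triangular polynomial maps of affine space `R^n`, their orbits, and the decomposition
`f = Step g h`: coordinate `0` is the fibre coordinate, the coordinates `1, …, n` are the base.
-/

open MvPolynomial

namespace H42.ZD

section defs

variable {R : Type*} [CommRing R] {n : ℕ}

/-- `f = (f_0, …, f_{n-1})` is triangular: `f_i` only involves `X_j` with `j ≥ i`, and it really
involves `X_i`. -/
def Tri (f : Fin n → MvPolynomial (Fin n) R) : Prop :=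
  ∀ i, (∀ j ∈ (f i).vars, i ≤ j) ∧ i ∈ (f i).vars

/-- The self-map of affine space `R^n` given by `f`. -/
noncomputable def act (f : Fin n → MvPolynomial (Fin n) R) (x : Fin n → R) : Fin n → R :=
  fun i => eval x (f i)

/-- The forward orbit of `x` under `f` is Zariski dense: no non-zero polynomial vanishes on it. -/
def Dense (f : Fin n → MvPolynomial (Fin n) R) (x : Fin n → R) : Prop :=
  ∀ P : MvPolynomial (Fin n) R, P ≠ 0 → ∃ t : ℕ, eval ((act f)^[t] x) P ≠ 0

/-- `f` has a non-constant invariant rational function `P / Q`. -/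
def Inv (f : Fin n → MvPolynomial (Fin n) R) : Prop :=
  ∃ P Q : MvPolynomial (Fin n) R, Q ≠ 0 ∧ (∀ c : R, P ≠ C c * Q) ∧
    bind₁ f P * Q = P * bind₁ f Q

/-- The map with fibre component `h` (a polynomial in the fibre coordinate, with coefficients
polynomials in the base coordinates) over the base map `g`. -/
noncomputable def Step (g : Fin n → MvPolynomial (Fin n) R)
    (h : Polynomial (MvPolynomial (Fin n) R)) : Fin (n + 1) → MvPolynomial (Fin (n + 1)) R :=
  Fin.cons ((finSuccEquiv R n).symm h) (fun i => rename Fin.succ (g i))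

/-- The fibre coordinate of the orbit of `(y, x)` under `Step g h`. -/
noncomputable def fib (g : Fin n → MvPolynomial (Fin n) R)
    (h : Polynomial (MvPolynomial (Fin n) R)) (x : Fin n → R) (y : R) : ℕ → R
  | 0 => y
  | t + 1 => (h.map (eval ((act g)^[t] x))).eval (fib g h x y t)

theorem act_step (g : Fin n → MvPolynomial (Fin n) R)
    (h : Polynomial (MvPolynomial (Fin n) R)) (x : Fin n → R) (y : R) :
    act (Step g h) (Fin.cons y x) = Fin.cons ((h.map (eval x)).eval y) (act g x) := by
  funext i
  refine Fin.cases ?_ (fun i => ?_) i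
  · simp only [act, Step, Fin.cons_zero]
    rw [eval_eq_eval_mv_eval', AlgEquiv.apply_symm_apply]
  · simp only [act, Step, Fin.cons_succ, eval_rename]
    congr 1

theorem step_iter (g : Fin n → MvPolynomial (Fin n) R)
    (h : Polynomial (MvPolynomial (Fin n) R)) (x : Fin n → R) (y : R) (t : ℕ) :
    (act (Step g h))^[t] (Fin.cons y x) = Fin.cons (fib g h x y t) ((act g)^[t] x) := by
  induction t with
  | zero => rfl
  | succ t ih => rw [Function.iterate_succ_apply', ih, act_step, Function.iterate_succ_apply']; rfl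

theorem dense_step (g : Fin n → MvPolynomial (Fin n) R)
    (h : Polynomial (MvPolynomial (Fin n) R)) (x : Fin n → R) (y : R) :
    Dense (Step g h) (Fin.cons y x) ↔
      ∀ P : Polynomial (MvPolynomial (Fin n) R), P ≠ 0 →
        ∃ t : ℕ, (P.map (eval ((act g)^[t] x))).eval (fib g h x y t) ≠ 0 := by
  constructor
  · intro H P hP
    obtain ⟨t, ht⟩ := H ((finSuccEquiv R n).symm P) (by
      intro h0; exact hP (by simpa using h0))
    refine ⟨t, ?_⟩
    rwa [step_iter, eval_eq_eval_mv_eval', AlgEquiv.apply_symm_apply] at ht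
  · intro H P hP
    obtain ⟨t, ht⟩ := H (finSuccEquiv R n P) (by
      intro h0; exact hP (by simpa using h0))
    refine ⟨t, ?_⟩
    rwa [step_iter, eval_eq_eval_mv_eval']

theorem fse_C (a : R) : finSuccEquiv R n (C a) = Polynomial.C (C a) := by
  rw [finSuccEquiv_apply]
  exact eval₂Hom_C _ _ _

theorem fse_rename (p : MvPolynomial (Fin n) R) :
    finSuccEquiv R n (rename Fin.succ p) = Polynomial.C p := by
  induction p using MvPolynomial.induction_on with
  | C a => rw [rename_C, fse_C]
  | add p q hp hq => simp only [map_add, hp, hq]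
  | mul_X p i hp => rw [map_mul, map_mul, hp, rename_X, finSuccEquiv_X_succ, ← map_mul]

/-- The endomorphism of `R[X][Y]` induced by `Step g h`. -/
noncomputable def Th (g : Fin n → MvPolynomial (Fin n) R)
    (h P : Polynomial (MvPolynomial (Fin n) R)) : Polynomial (MvPolynomial (Fin n) R) :=
  (P.map ((bind₁ g : MvPolynomial (Fin n) R →ₐ[R] _) : MvPolynomial (Fin n) R →+* _)).comp h

theorem Th_add (g : Fin n → MvPolynomial (Fin n) R)
    (h P Q : Polynomial (MvPolynomial (Fin n) R)) : Th g h (P + Q) = Th g h P + Th g h Q := by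
  simp only [Th, Polynomial.map_add, Polynomial.add_comp]

theorem Th_mul (g : Fin n → MvPolynomial (Fin n) R)
    (h P Q : Polynomial (MvPolynomial (Fin n) R)) : Th g h (P * Q) = Th g h P * Th g h Q := by
  simp only [Th, Polynomial.map_mul, Polynomial.mul_comp]

theorem Th_C (g : Fin n → MvPolynomial (Fin n) R)
    (h : Polynomial (MvPolynomial (Fin n) R)) (p : MvPolynomial (Fin n) R) :
    Th g h (Polynomial.C p) = Polynomial.C (bind₁ g p) := by
  rw [Th, Polynomial.map_C, Polynomial.C_comp]; rfl

theorem Th_X (g : Fin n → MvPolynomial (Fin n) R)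
    (h : Polynomial (MvPolynomial (Fin n) R)) :
    Th g h Polynomial.X = h := by
  rw [Th, Polynomial.map_X, Polynomial.X_comp]

theorem bind_step_X (g : Fin n → MvPolynomial (Fin n) R)
    (h : Polynomial (MvPolynomial (Fin n) R)) (i : Fin (n + 1)) :
    finSuccEquiv R n (Step g h i) = Th g h (finSuccEquiv R n (X i)) := by
  refine Fin.cases ?_ (fun i => ?_) i
  · rw [finSuccEquiv_X_zero, Th_X]
    simp only [Step, Fin.cons_zero]
    rw [AlgEquiv.apply_symm_apply]
  · rw [finSuccEquiv_X_succ, Th_C, bind₁_X_right]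
    simp only [Step, Fin.cons_succ]
    rw [fse_rename]

theorem bind_step (g : Fin n → MvPolynomial (Fin n) R)
    (h : Polynomial (MvPolynomial (Fin n) R)) (P : MvPolynomial (Fin (n + 1)) R) :
    finSuccEquiv R n (bind₁ (Step g h) P) = Th g h (finSuccEquiv R n P) := by
  have fa : ∀ a b, finSuccEquiv R n (a + b) = finSuccEquiv R n a + finSuccEquiv R n b :=
    fun a b => map_add (finSuccEquiv R n) a b
  have fm : ∀ a b, finSuccEquiv R n (a * b) = finSuccEquiv R n a * finSuccEquiv R n b :=
    fun a b => map_mul (finSuccEquiv R n) a b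
  induction P using MvPolynomial.induction_on with
  | C a =>
    have h1 : bind₁ (Step g h) (C a) = C a := bind₁_C_right _ _
    have h2 : bind₁ g (C a) = C a := bind₁_C_right _ _
    rw [h1, fse_C, Th_C, h2]
  | add p q hp hq =>
    have h1 : bind₁ (Step g h) (p + q) = bind₁ (Step g h) p + bind₁ (Step g h) q :=
      map_add (bind₁ (Step g h)) p q
    rw [h1, fa, fa, hp, hq, Th_add]
  | mul_X p i hp =>
    have h1 : bind₁ (Step g h) (p * X i) = bind₁ (Step g h) p * Step g h i := by
      have h2 : bind₁ (Step g h) (p * X i) = bind₁ (Step g h) p * bind₁ (Step g h) (X i) :=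
        map_mul (bind₁ (Step g h)) p (X i)
      rw [h2, bind₁_X_right]
    rw [h1, fm, fm, hp, Th_mul, bind_step_X]

/-- Every triangular map is a `Step` over a triangular map. -/
theorem tri_step (f : Fin (n + 1) → MvPolynomial (Fin (n + 1)) R) (hf : Tri f) :
    ∃ (g : Fin n → MvPolynomial (Fin n) R) (h : Polynomial (MvPolynomial (Fin n) R)),
      Tri g ∧ 1 ≤ h.natDegree ∧ f = Step g h := by
  have hex : ∀ i : Fin n, ∃ q : MvPolynomial (Fin n) R, rename Fin.succ q = f i.succ := by
    intro i
    refine exists_rename_eq_of_vars_subset_range _ _ (Fin.succ_injective n) ?_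
    intro j hj
    have := (hf i.succ).1 j hj
    refine ⟨j.pred ?_, Fin.succ_pred _ _⟩
    rintro rfl
    exact absurd this (by simp)
  choose g hg using hex
  refine ⟨g, finSuccEquiv R n (f 0), ?_, ?_, ?_⟩
  · intro i
    have hv : ∀ j : Fin n, j ∈ (g i).vars ↔ j.succ ∈ (f i.succ).vars := by
      intro j
      rw [mem_vars_iff_degreeOf_ne_zero, mem_vars_iff_degreeOf_ne_zero, ← hg i,
        degreeOf_rename_of_injective (Fin.succ_injective n)]
    refine ⟨fun j hj => ?_, (hv i).2 (hf i.succ).2⟩
    exact Fin.succ_le_succ_iff.1 ((hf i.succ).1 _ ((hv j).1 hj))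
  · rw [natDegree_finSuccEquiv]
    have := (hf 0).2
    rw [mem_vars_iff_degreeOf_ne_zero] at this
    omega
  · funext i
    refine Fin.cases ?_ (fun i => ?_) i
    · simp only [Step, Fin.cons_zero]
      rw [AlgEquiv.symm_apply_apply]
    · simp only [Step, Fin.cons_succ]
      exact (hg i).symm

end defs

end H42.ZD
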