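import Pool.Agent.H42.ZD.Df

/-!
# ZD: from an invariant of an iterate to an invariant of the map

`σ : R → R` an injective `K`-algebra endomorphism of a domain, `K` algebraically closed. If some
iterate `σ^m` (`m ≥ 1`) has a non-constant invariant fraction `P / Q`, so has `σ`.
-/

open MvPolynomial

namespace H42.ZD

/-- `σ` has a non-constant invariant fraction. -/
def InvR {K R : Type*} [Field K] [CommRing R] [Algebra K R] (σ : R → R) : Prop :=
  ∃ P Q : R, Q ≠ 0 ∧ (∀ c : K, P ≠ algebraMap K R c * Q) ∧ σ P * Q = P * σ Q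

theorem Fr_main {K R : Type*} [Field K] [IsAlgClosed K] [CommRing R] [IsDomain R] [Algebra K R]
    (σ : R →ₐ[K] R) (hσ : Function.Injective σ) (m : ℕ) (hm : 0 < m)
    (h : InvR (K := K) (σ^[m] : R → R)) : InvR (K := K) (σ : R → R) := by
  classical
  obtain ⟨P, Q, hQ, hc, he⟩ := h
  set L := FractionRing R with hL
  let τ : L →+* L := IsFractionRing.map hσ
  have hτ : ∀ r : R, τ (algebraMap R L r) = algebraMap R L (σ r) := fun r =>
    IsLocalization.map_eq _ _
  have hinj : Function.Injective (algebraMap R L) := IsFractionRing.injective R L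
  have hQ0 : algebraMap R L Q ≠ 0 := fun h0 => hQ (hinj (by rw [h0, map_zero]))
  set φ : L := algebraMap R L P / algebraMap R L Q with hφ
  have hτm : ∀ (j : ℕ) (r : R), τ^[j] (algebraMap R L r) = algebraMap R L (σ^[j] r) := by
    intro j
    induction j with
    | zero => intro r; rfl
    | succ j ih =>
      intro r
      rw [Function.iterate_succ_apply, hτ, ih, Function.iterate_succ_apply]
  have hσm : ∀ j : ℕ, Function.Injective (σ^[j] : R → R) := fun j => hσ.iterate j
  have hφm : τ^[m] φ = φ := by
    have hdiv : ∀ (j : ℕ) (a b : L), τ^[j] (a / b) = τ^[j] a / τ^[j] b := by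
      intro j
      induction j with
      | zero => intro a b; rfl
      | succ j ih =>
        intro a b
        rw [Function.iterate_succ_apply, map_div₀, ih, Function.iterate_succ_apply,
          Function.iterate_succ_apply]
    rw [hφ, hdiv, hτm, hτm]
    have hσQ : σ^[m] Q ≠ 0 := by
      intro h0
      apply hQ
      apply hσm m
      rw [h0]
      have : ∀ j : ℕ, (σ^[j] : R → R) 0 = 0 := by
        intro j
        induction j with
        | zero => rfl
        | succ j ih => rw [Function.iterate_succ_apply', ih, map_zero]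
      rw [this]
    have hσQ0 : algebraMap R L (σ^[m] Q) ≠ 0 := fun h0 => hσQ (hinj (by rw [h0, map_zero]))
    rw [div_eq_div_iff hσQ0 hQ0, ← map_mul, ← map_mul, he]
  -- the polynomial with roots the conjugates
  let F : Polynomial L := ∏ i ∈ Finset.range m, (Polynomial.X - Polynomial.C (τ^[i] φ))
  have hFmap : F.map τ = F := by
    have h1 : F.map τ = ∏ i ∈ Finset.range m, (Polynomial.X - Polynomial.C (τ^[i + 1] φ)) := by
      simp only [F, Polynomial.map_prod, Polynomial.map_sub, Polynomial.map_X, Polynomial.map_C]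
      refine Finset.prod_congr rfl fun i _ => ?_
      rw [Function.iterate_succ_apply']
    obtain ⟨M, rfl⟩ : ∃ M, m = M + 1 := ⟨m - 1, by omega⟩
    rw [h1]
    simp only [F]
    rw [Finset.prod_range_succ, Finset.prod_range_succ' (fun i => _), hφm]
    rfl
  have hFmonic : F.Monic := Polynomial.monic_prod_of_monic _ _ fun i _ => Polynomial.monic_X_sub_C _
  have hFφ : F.eval φ = 0 := by
    simp only [F, Polynomial.eval_prod]
    refine Finset.prod_eq_zero (Finset.mem_range.2 hm) ?_
    simp
  by_cases hall : ∀ j, F.coeff j ∈ (algebraMap K L).range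
  · -- then `φ` is algebraic over `K`
    exfalso
    obtain ⟨q, hq⟩ : ∃ q : Polynomial K, q.map (algebraMap K L) = F := by
      rw [← Polynomial.mem_lifts, Polynomial.lifts_iff_coeff_lifts]
      intro j
      exact hall j
    have hint : IsAlgebraic K φ := by
      refine ⟨q, ?_, ?_⟩
      · rintro rfl
        rw [Polynomial.map_zero] at hq
        exact hFmonic.ne_zero hq.symm
      · rw [Polynomial.aeval_def, Polynomial.eval₂_eq_eval_map, hq, hFφ]
    obtain ⟨c, hc'⟩ : ∃ c : K, algebraMap K L c = φ := by
      have h1 : IsIntegral K φ := hint.isIntegral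
      exact minpoly.mem_range_of_degree_eq_one K φ
        (IsAlgClosed.degree_eq_one_of_irreducible K (minpoly.irreducible h1))
    apply hc c
    apply hinj
    rw [map_mul, ← IsScalarTower.algebraMap_apply K R L, hc', hφ, div_mul_cancel₀ _ hQ0]
  · push Not at hall
    obtain ⟨j, hj⟩ := hall
    obtain ⟨P', Q', hQ', hPQ⟩ := IsFractionRing.div_surjective (A := R) (F.coeff j)
    have hQ'0 : Q' ≠ 0 := nonZeroDivisors.ne_zero hQ'
    have hQ'L : algebraMap R L Q' ≠ 0 := fun h0 => hQ'0 (hinj (by rw [h0, map_zero]))
    have hσQ' : algebraMap R L (σ Q') ≠ 0 := fun h0 => hQ'0 (hσ (hinj (by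
      rw [h0, map_zero, map_zero])))
    refine ⟨P', Q', hQ'0, ?_, ?_⟩
    · intro c h0
      apply hj
      refine ⟨c, ?_⟩
      rw [← hPQ, h0, map_mul, mul_div_assoc, div_self hQ'L, mul_one]
      exact (IsScalarTower.algebraMap_apply K R L c)
    · have h1 : τ (F.coeff j) = F.coeff j := by
        rw [← Polynomial.coeff_map, hFmap]
      rw [← hPQ, map_div₀, hτ, hτ, div_eq_div_iff hσQ' hQ'L, ← map_mul, ← map_mul] at h1
      exact hinj h1

end H42.ZD
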