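import Pool.Agent.H42.ZD.Av
import Pool.Agent.H42.ZD.DS
import Pool.Agent.H42.ZD.Fr

/-!
# ZD: the final statements
-/

open MvPolynomial

namespace H42.ZD

universe u

/-- Triangular maps are dominant: `bind₁ f` is injective. -/
theorem Fin_inj {K : Type*} [Field K] (n : ℕ) : ∀ (f : Fin n → MvPolynomial (Fin n) K), Tri f →
    Function.Injective (bind₁ f) := by
  induction n with
  | zero =>
    intro f _ P Q h
    have : ∀ P : MvPolynomial (Fin 0) K, bind₁ f P = P := by
      intro P
      rw [eq_C_of_isEmpty P, bind₁_C_right]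
    rwa [this, this] at h
  | succ n ih =>
    intro f hf
    obtain ⟨g, h, hg, hh, rfl⟩ := tri_step f hf
    rw [injective_iff_map_eq_zero]
    intro P hP
    have h1 := bind_step g h P
    rw [hP, map_zero] at h1
    have h2 : (finSuccEquiv K n P).map ((bind₁ g : MvPolynomial (Fin n) K →ₐ[K] MvPolynomial (Fin n) K) :
        MvPolynomial (Fin n) K →+* MvPolynomial (Fin n) K) = 0 := by
      rw [Th] at h1
      rcases Polynomial.comp_eq_zero_iff.1 h1.symm with h3 | ⟨-, h3⟩
      · exact h3
      · rw [h3] at hh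
        simp at hh
    have h3 : finSuccEquiv K n P = 0 := by
      apply Polynomial.map_injective ((bind₁ g : MvPolynomial (Fin n) K →ₐ[K] MvPolynomial (Fin n) K) :
        MvPolynomial (Fin n) K →+* MvPolynomial (Fin n) K) (ih g hg)
      rw [Polynomial.map_zero]
      exact h2
    exact (map_eq_zero_iff _ (finSuccEquiv K n).injective).1 h3

/-- The main theorem for triangular maps over any algebraically closed field of characteristic
zero. -/
theorem Fin_tri {K : Type u} [Field K] [CharZero K] [IsAlgClosed K] {n : ℕ}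
    (f : Fin n → MvPolynomial (Fin n) K) (hf : Tri f)
    (hcond : (∀ i, 2 ≤ degreeOf i (f i)) ∨ ¬ Inv f) (H : MvPolynomial (Fin n) K) (hH : H ≠ 0) :
    ∃ x : Fin n → K, Dense f x ∧ ∀ t : ℕ, eval ((act f)^[t] x) H ≠ 0 := by
  classical
  let C0 : Finset K := (Finset.univ.biUnion fun i => (f i).coeffs) ∪ H.coeffs
  let R := Algebra.adjoin ℤ (C0 : Set K)
  let F := FractionRing R
  let _ : Algebra F K := FractionRing.liftAlgebra R K
  have : IsScalarTower R F K := FractionRing.isScalarTower_liftAlgebra R K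
  let K1 : IntermediateField F K := algebraicClosure F K
  have hmem : ∀ c : K, c ∈ C0 → c ∈ K1 := by
    intro c hc
    have h1 : c ∈ R := Algebra.subset_adjoin hc
    have h2 : algebraMap F K (algebraMap R F ⟨c, h1⟩) = c := by
      rw [← IsScalarTower.algebraMap_apply R F K]
      rfl
    rw [← h2]
    exact K1.algebraMap_mem _
  let ι : K1 →+* K := algebraMap K1 K
  have hlift : ∀ i, ∃ q : MvPolynomial (Fin n) K1, map ι q = f i := by
    intro i
    have : f i ∈ Set.range (map ι : MvPolynomial (Fin n) K1 → MvPolynomial (Fin n) K) := by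
      rw [mem_range_map_iff_coeffs_subset]
      intro c hc
      exact ⟨⟨c, hmem c (Finset.mem_union_left _
        (Finset.mem_biUnion.2 ⟨i, Finset.mem_univ _, hc⟩))⟩, rfl⟩
    obtain ⟨q, hq⟩ := this
    exact ⟨q, hq⟩
  choose f1 hf1 using hlift
  obtain ⟨H1, hH1⟩ : ∃ q : MvPolynomial (Fin n) K1, map ι q = H := by
    have : H ∈ Set.range (map ι : MvPolynomial (Fin n) K1 → MvPolynomial (Fin n) K) := by
      rw [mem_range_map_iff_coeffs_subset]
      intro c hc
      exact ⟨⟨c, hmem c (Finset.mem_union_right _ hc)⟩, rfl⟩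
    obtain ⟨q, hq⟩ := this
    exact ⟨q, hq⟩
  have hff : (fun i => map ι (f1 i)) = f := funext hf1
  have hvars : ∀ i, (f1 i).vars = (f i).vars := by
    intro i
    rw [← hf1 i, vars_map_of_injective _ ι.injective]
  have hTri : Tri f1 := by
    intro i
    rw [hvars]
    exact hf i
  have hdeg : ∀ i, degreeOf i (f1 i) = degreeOf i (f i) := by
    intro i
    rw [← hf1 i, degreeOf_eq_sup, degreeOf_eq_sup, support_map_of_injective _ ι.injective]
  have hcond1 : (∀ i, 2 ≤ degreeOf i (f1 i)) ∨ ¬ Inv f1 := by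
    rcases hcond with hc | hc
    · left
      intro i
      rw [hdeg]
      exact hc i
    · right
      intro h1
      apply hc
      rw [← hff]
      exact DSb ι f1 h1
  have : IsAlgClosed K1 := IsAlgClosure.isAlgClosed F
  let A : Finset K1 := C0.attach.image fun c => ⟨c.1, hmem c.1 c.2⟩
  have hA : Algebra.IsAlgebraic (Algebra.adjoin ℤ (A : Set K1)) K1 := by
    let ψ : K1 →ₐ[ℤ] K := ι.toIntAlgHom
    have hRS : R ≤ (Algebra.adjoin ℤ (A : Set K1)).map ψ := by
      refine Algebra.adjoin_le fun c hc => ?_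
      refine ⟨⟨c, hmem c hc⟩, Algebra.subset_adjoin ?_, rfl⟩
      exact Finset.mem_coe.2 (Finset.mem_image.2 ⟨⟨c, hc⟩, Finset.mem_attach _ _, rfl⟩)
    let j : R →+* K1 := (algebraMap F K1).comp (algebraMap R F)
    have hj : ∀ r : R, ι (j r) = (r : K) := by
      intro r
      have : ι (j r) = algebraMap F K (algebraMap R F r) := rfl
      rw [this, ← IsScalarTower.algebraMap_apply R F K]
      rfl
    have hjm : ∀ r : R, j r ∈ Algebra.adjoin ℤ (A : Set K1) := by
      intro r
      obtain ⟨a, ha, har⟩ := hRS r.2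
      have : j r = a := by
        apply ι.injective
        rw [hj]
        exact har.symm
      rw [this]
      exact ha
    let φ : R →+* Algebra.adjoin ℤ (A : Set K1) := j.codRestrict _ hjm
    have hφi : Function.Injective φ := by
      intro a b hab
      have h1 : j a = j b := congrArg Subtype.val hab
      apply Subtype.ext
      rw [← hj, ← hj, h1]
    refine ⟨fun x => ?_⟩
    have hxF : IsAlgebraic F x := Algebra.IsAlgebraic.isAlgebraic x
    obtain ⟨q, hq0, hq⟩ := (IsFractionRing.isAlgebraic_iff R F K1).2 hxF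
    refine ⟨q.map φ, ?_, ?_⟩
    · intro h0
      apply hq0
      apply Polynomial.map_injective φ hφi
      rw [h0, Polynomial.map_zero]
    · rw [Polynomial.aeval_def, Polynomial.eval₂_map]
      rw [Polynomial.aeval_def] at hq
      have hcomp : (algebraMap (Algebra.adjoin ℤ (A : Set K1)) K1).comp φ = algebraMap R K1 := by
        refine RingHom.ext fun r => ?_
        exact (IsScalarTower.algebraMap_apply R F K1 r).symm
      rw [hcomp, hq]
  obtain ⟨x, hx, hxH⟩ := Av_main A hA f1 hTri hcond1 H1 (by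
    rintro rfl
    rw [map_zero] at hH1
    exact hH hH1.symm)
  refine ⟨fun i => ι (x i), ?_, ?_⟩
  · have := DSa ι f1 x hx
    rwa [hff] at this
  · intro t h0
    apply hxH t
    have h1 := Tn_iter_map ι f1 x t
    rw [hff] at h1
    apply ι.injective
    rw [Tn_eval_map, hH1, map_zero, ← h0, ← h1]

/-- The endomorphism of affine space given by `f`, on polynomials: `P ↦ P ∘ f`. -/
theorem Fin_eval_bind {K : Type*} [Field K] {n : ℕ} (f : Fin n → MvPolynomial (Fin n) K)
    (x : Fin n → K) (P : MvPolynomial (Fin n) K) : eval x (bind₁ f P) = eval (act f x) P := by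
  rw [← coe_aeval_eq_eval, ← coe_aeval_eq_eval]
  simp only [RingHom.coe_coe]
  rw [aeval_bind₁]
  rfl

theorem Fin_eval_bind_iter {K : Type*} [Field K] {n : ℕ} (f : Fin n → MvPolynomial (Fin n) K)
    (P : MvPolynomial (Fin n) K) (t : ℕ) :
    ∀ x : Fin n → K, eval x ((bind₁ f)^[t] P) = eval ((act f)^[t] x) P := by
  induction t with
  | zero => intro x; rfl
  | succ t ih =>
    intro x
    rw [Function.iterate_succ_apply', Fin_eval_bind, ih, ← Function.iterate_succ_apply]

/-- The main theorem for maps some iterate of which is conjugate to a triangular map. -/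
theorem Fin_conj {K : Type u} [Field K] [CharZero K] [IsAlgClosed K] {n : ℕ}
    (f F : Fin n → MvPolynomial (Fin n) K) (m : ℕ) (hm : 0 < m)
    (Θ : MvPolynomial (Fin n) K ≃ₐ[K] MvPolynomial (Fin n) K)
    (hF : ∀ P, Θ ((bind₁ f)^[m] P) = bind₁ F (Θ P)) (hT : Tri F) :
    Function.Injective (bind₁ f) ∧
      ((∀ i, 2 ≤ degreeOf i (F i)) ∨ ¬ Inv f → ∀ H : MvPolynomial (Fin n) K, H ≠ 0 →
        ∃ x : Fin n → K, Dense f x ∧ ∀ t : ℕ, eval ((act f)^[t] x) H ≠ 0) := by
  have hFt : ∀ (t : ℕ) P, Θ ((bind₁ f)^[m * t] P) = (bind₁ F)^[t] (Θ P) := by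
    intro t
    induction t with
    | zero => intro P; rfl
    | succ t ih =>
      intro P
      rw [Function.iterate_succ_apply, ← hF, ← ih, Nat.mul_succ, Function.iterate_add_apply]
  have hinjm : Function.Injective ((bind₁ f)^[m]) := by
    intro P Q h
    apply Θ.injective
    apply Fin_inj n F hT
    rw [← hF, ← hF, h]
  have hinj : Function.Injective (bind₁ f) := by
    intro P Q h
    apply hinjm
    obtain ⟨M, rfl⟩ : ∃ M, m = M + 1 := ⟨m - 1, by omega⟩
    rw [Function.iterate_succ_apply, Function.iterate_succ_apply, h]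
  refine ⟨hinj, fun hcond H hH => ?_⟩
  have hcondF : (∀ i, 2 ≤ degreeOf i (F i)) ∨ ¬ Inv F := by
    rcases hcond with hc | hc
    · exact Or.inl hc
    · refine Or.inr fun hI => hc ?_
      obtain ⟨P, Q, hQ, hc', he⟩ := hI
      have h1 : InvR (K := K) ((bind₁ f)^[m] : MvPolynomial (Fin n) K → MvPolynomial (Fin n) K) := by
        refine ⟨Θ.symm P, Θ.symm Q, ?_, ?_, ?_⟩
        · intro h0; exact hQ ((map_eq_zero_iff _ Θ.symm.injective).1 h0)
        · intro c h0
          apply hc' c
          have := congrArg Θ h0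
          rw [map_mul, AlgEquiv.apply_symm_apply, AlgEquiv.apply_symm_apply, AlgEquiv.commutes]
            at this
          exact this
        · apply Θ.injective
          rw [map_mul, map_mul, hF, hF, AlgEquiv.apply_symm_apply, AlgEquiv.apply_symm_apply]
          exact he
      obtain ⟨P', Q', hQ', hc'', he'⟩ := Fr_main (bind₁ f) hinj m hm h1
      exact ⟨P', Q', hQ', hc'', he'⟩
  have hpow0 : ∀ (s : ℕ) (P : MvPolynomial (Fin n) K), P ≠ 0 → Θ ((bind₁ f)^[s] P) ≠ 0 := by
    intro s P hP h0
    have h1 : (bind₁ f)^[s] P = 0 := (map_eq_zero_iff _ Θ.injective).1 h0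
    have h2 : ∀ s : ℕ, (bind₁ f)^[s] (0 : MvPolynomial (Fin n) K) = 0 := by
      intro s
      induction s with
      | zero => rfl
      | succ s ih => rw [Function.iterate_succ_apply', ih, map_zero]
    exact hP (hinj.iterate s (h1.trans (h2 s).symm))
  obtain ⟨x, hx, hxH⟩ := Fin_tri F hT hcondF (∏ s ∈ Finset.range m, Θ ((bind₁ f)^[s] H))
    (Finset.prod_ne_zero_iff.2 fun s _ => hpow0 s H hH)
  have hΘ : ∀ P, eval (fun i => eval x (Θ (X i))) P = eval x (Θ P) := by
    intro P
    have h1 : (aeval fun i => Θ (X i) : MvPolynomial (Fin n) K →ₐ[K] MvPolynomial (Fin n) K) =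
        (Θ : MvPolynomial (Fin n) K →ₐ[K] MvPolynomial (Fin n) K) := by
      apply algHom_ext
      intro i
      simp
    have h2 : Θ P = aeval (fun i => Θ (X i)) P := by
      rw [h1]; rfl
    rw [h2]
    exact (Fin_eval_bind (fun i => Θ (X i)) x P).symm
  have hev : ∀ (s t : ℕ) (P : MvPolynomial (Fin n) K),
      eval ((act f)^[s + m * t] fun i => eval x (Θ (X i))) P =
        eval ((act F)^[t] x) (Θ ((bind₁ f)^[s] P)) := by
    intro s t P
    rw [← Fin_eval_bind_iter, hΘ, ← Fin_eval_bind_iter, ← hFt, add_comm,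
      Function.iterate_add_apply]
  refine ⟨fun i => eval x (Θ (X i)), ?_, ?_⟩
  · intro P hP
    obtain ⟨t, ht⟩ := hx (Θ P) (hpow0 0 P hP)
    refine ⟨0 + m * t, ?_⟩
    rw [hev]
    exact ht
  · intro t h0
    have ht : t = t % m + m * (t / m) := (Nat.mod_add_div t m).symm
    rw [ht, hev] at h0
    have := hxH (t / m)
    rw [map_prod, Finset.prod_ne_zero_iff] at this
    exact this (t % m) (Finset.mem_range.2 (Nat.mod_lt _ hm)) h0

end H42.ZD
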