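import Pool.Agent.H42.ZD.Pl

/-!
# ZD row GP: existence of places

PROOF. Let `D = Algebra.adjoin ℤ (A ∪ B ∪ {b, b⁻¹}) ⊆ K`, a finitely generated `ℤ`-algebra.

(1) There is a prime `p > N` that is not a unit in `D`. Otherwise let
`D' = Algebra.adjoin ℤ (A ∪ B ∪ {b, b⁻¹, (N!)⁻¹})`; it is finitely generated over `ℤ` and every
prime number is a unit in it (`≤ N`: divides `N!`; `> N`: unit already in `D`). Take a maximal ideal
`M'` of `D'`; `D' ⧸ M'` is a field and a finitely generated `ℤ`-algebra, hence finite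
(Mathlib: `finite_of_finite_type_of_isJacobsonRing` gives that a finite type algebra over a
Jacobson ring that is a field is a finite module over …; use the version available: `ℤ` is
Jacobson; the kernel of `ℤ → D'/M'` is a maximal ideal `(p)` and `D'/M'` is a finite
`ℤ/p`-module). So it has some prime characteristic `p`, i.e. `p ∈ M'`, contradicting that `p` is a
unit in `D'`.

(2) Fix such `p`. Let `D1 = Algebra.adjoin ℤ (A ∪ B ∪ {b, b⁻¹} ∪ {(s : K)⁻¹ | s : ℕ, ¬ p ∣ s})`.
For every `a ∈ D1` there is `s : ℕ` with `¬ p ∣ s` and `s * a ∈ D` (`Algebra.adjoin_induction`: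
generators clear; sums/products multiply the `s`'s, `p` prime). `p` is not a unit of `D1`: if
`p * a = 1` with `a ∈ D1`, then `s = p * (s a)` with `s a ∈ D`; by Bezout `u s + v p = 1` so
`1 = p (u (s a) + v)` and `p` is a unit in `D`, contradiction. So there is a maximal ideal `m1` of
`D1` containing `p` (`Ideal.exists_le_maximal` for `span {p} ≠ ⊤`). The map `D → D1 ⧸ m1` is
surjective: for `a ∈ D1`, `a = u s a + v p a ≡ u (s a) mod m1`. So `F1 = D1 ⧸ m1` is a field that is a
finitely generated `ℤ`-algebra, hence a finite field, of characteristic `p`.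

(3) Let `Λ` be the integral closure of `D1` in `K` (`integralClosure D1 K`, as a subring of `K`).
`Λ` is integral over `D1`, so there is a maximal ideal `M` of `Λ` with `M ∩ D1 = m1`
(`Ideal.exists_ideal_over_maximal_of_isIntegral`, `D1 → Λ` injective). Let `k = Λ ⧸ M`, a field,
`ψ` the quotient map (surjective). `p ∈ M`, so `CharP k p`.
* `k` is algebraically closed: `IsAlgClosed.of_exists_root`: a monic polynomial over `k` lifts to a
  monic polynomial `q` over `Λ` of the same degree (`Polynomial.lifts_and_natDegree_eq_and_monic`),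
  which has a root in `K` (algebraically closed), integral over `Λ`, hence integral over `D1`
  (`isIntegral_trans`), hence in `Λ`; its reduction is a root.
* `lf`: `y = ψ(y')`, `y'` integral over `D1`, so `y` is integral over the image of `D1`, i.e. over
  the finite field `F1` (`F1 → k`); so `F1[y]` is a finite field with `p^r` elements, `r ≥ 1`, and
  `y^(p^r) = y` (`FiniteField.pow_card` and `FiniteField.card`).
* `int`: algebraic integers are integral over `ℤ`, so over `D1`. `inv`: `s⁻¹ ∈ D1`. `A, B, b, b⁻¹ ⊆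
  D1 ⊆ Λ`.
* `fr`: `x ∈ K` is algebraic over `Algebra.adjoin ℤ A ⊆ D1` (`hA`), so there is `s ∈ adjoin ℤ A`,
  `s ≠ 0`, with `s x` integral over it (`exists_integral_multiple`), hence `s x ∈ Λ`.
* `ψ(b) ≠ 0` since `b b⁻¹ = 1` in `Λ`.
-/

namespace H42.ZD

universe u

private theorem GP_jac : IsJacobsonRing ℤ := by
  rw [isJacobsonRing_iff_prime_eq]
  intro P hP
  by_cases h : P = ⊥
  · subst h
    rw [eq_bot_iff]
    intro x hx
    rw [Ideal.mem_jacobson_bot] at hx
    rw [Ideal.mem_bot]
    rcases Int.isUnit_iff.1 (hx x) with h1 | h1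
    · have h2 : x * x = 0 := by linarith
      simpa using h2
    · exfalso
      have h2 := mul_self_nonneg x
      linarith
  · have h2 : P.IsMaximal := hP.isMaximal h
    exact Ideal.jacobson_eq_self_of_isMaximal

private theorem GP_char {F : Type*} [Field F] [Algebra ℤ F] (hf : Algebra.FiniteType ℤ F) :
    Algebra.IsIntegral ℤ F ∧ ∃ p : ℕ, p.Prime ∧ CharP F p := by
  have h0 := GP_jac
  have h1 := finite_of_finite_type_of_isJacobsonRing ℤ F
  have h2 := Algebra.IsIntegral.of_finite ℤ F
  refine ⟨h2, ?_⟩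
  obtain ⟨q, hq⟩ := CharP.exists F
  rcases CharP.char_is_prime_or_zero F q with h | rfl
  · exact ⟨q, h, hq⟩
  · exfalso
    have h3 : CharZero F := CharP.charP_to_charZero F
    exact Int.not_isField (isField_of_isIntegral_of_isField (algebraMap ℤ F).injective_int
      (Field.toIsField F))

private theorem GP_prime {K : Type u} [Field K] [CharZero K] (S : Finset K) (N : ℕ) :
    ∃ p : ℕ, p.Prime ∧ N < p ∧ (p : K)⁻¹ ∉ Algebra.adjoin ℤ (S : Set K) := by
  classical
  by_contra hcon
  obtain ⟨S', hS'⟩ : ∃ S' : Finset K, S' = insert ((N.factorial : K)⁻¹) S := ⟨_, rfl⟩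
  obtain ⟨D, hD⟩ : ∃ D, D = Algebra.adjoin ℤ (S' : Set K) := ⟨_, rfl⟩
  have hle : Algebra.adjoin ℤ (S : Set K) ≤ D := by
    rw [hD, hS']
    refine Algebra.adjoin_mono ?_
    rw [Finset.coe_insert]
    exact Set.subset_insert _ _
  have hN : (N.factorial : K)⁻¹ ∈ D := by
    rw [hD]
    refine Algebra.subset_adjoin ?_
    rw [hS', Finset.coe_insert]
    exact Set.mem_insert _ _
  have hall : ∀ p : ℕ, p.Prime → (p : K)⁻¹ ∈ D := by
    intro p hp
    rcases le_or_gt p N with h | h
    · obtain ⟨m, hm⟩ := (hp.dvd_factorial).2 h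
      have hm0 : m ≠ 0 := by
        rintro rfl
        rw [mul_zero] at hm
        exact Nat.factorial_ne_zero N hm
      have hm1 : (m : K) ≠ 0 := Nat.cast_ne_zero.2 hm0
      have e : (p : K)⁻¹ = (m : K) * (N.factorial : K)⁻¹ := by
        rw [hm, Nat.cast_mul, mul_inv, mul_left_comm, mul_inv_cancel₀ hm1, mul_one]
      rw [e]
      exact D.mul_mem (natCast_mem D m) hN
    · by_contra hnot
      exact hcon ⟨p, hp, h, fun hmem => hnot (hle hmem)⟩
  have hfg : Algebra.FiniteType ℤ D := by
    rw [hD]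
    exact (Subalgebra.fg_iff_finiteType _).1 (Subalgebra.fg_adjoin_finset _)
  obtain ⟨M, hM⟩ := Ideal.exists_maximal D
  letI := Ideal.Quotient.field M
  have hq : Algebra.FiniteType ℤ (D ⧸ M) :=
    Algebra.FiniteType.of_surjective (Ideal.Quotient.mkₐ ℤ M) (Ideal.Quotient.mkₐ_surjective ℤ M)
  obtain ⟨-, p, hp, hc⟩ := GP_char hq
  have h0 : (p : D ⧸ M) = 0 := CharP.cast_eq_zero _ p
  have hp0 : (p : K) ≠ 0 := Nat.cast_ne_zero.2 hp.ne_zero
  have h1 : (p : D) * ⟨(p : K)⁻¹, hall p hp⟩ = 1 := by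
    apply Subtype.ext
    change ((p : D) : K) * (p : K)⁻¹ = 1
    rw [show ((p : D) : K) = (p : K) from map_natCast D.val p, mul_inv_cancel₀ hp0]
  have h2 := congrArg (Ideal.Quotient.mk M) h1
  rw [map_mul, map_natCast, h0, zero_mul, map_one] at h2
  exact zero_ne_one h2

private theorem GP_clear {K : Type u} [Field K] [CharZero K] (S : Set K) {p : ℕ} (hp : p.Prime)
    {a : K} (ha : a ∈ Algebra.adjoin ℤ (S ∪ {x | ∃ s : ℕ, ¬ p ∣ s ∧ x = (s : K)⁻¹})) :
    ∃ s : ℕ, ¬ p ∣ s ∧ (s : K) * a ∈ Algebra.adjoin ℤ S := by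
  have h1 : ¬ p ∣ 1 := hp.one_lt.ne' ∘ Nat.dvd_one.1
  induction ha using Algebra.adjoin_induction with
  | mem x hx =>
    rcases hx with hx | ⟨s, hs, rfl⟩
    · refine ⟨1, h1, ?_⟩
      rw [Nat.cast_one, one_mul]
      exact Algebra.subset_adjoin hx
    · refine ⟨s, hs, ?_⟩
      have h2 : (s : K) ≠ 0 := by
        intro h
        apply hs
        rw [Nat.cast_eq_zero.1 h]
        exact dvd_zero p
      rw [mul_inv_cancel₀ h2]
      exact one_mem _
  | algebraMap r =>
    refine ⟨1, h1, ?_⟩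
    rw [Nat.cast_one, one_mul]
    exact Subalgebra.algebraMap_mem _ r
  | add x y _ _ hx hy =>
    obtain ⟨s, hs, h2⟩ := hx
    obtain ⟨t, ht, h3⟩ := hy
    refine ⟨s * t, fun h => (hp.dvd_mul.1 h).elim hs ht, ?_⟩
    have e : ((s * t : ℕ) : K) * (x + y) = t * (s * x) + s * (t * y) := by
      push_cast
      ring
    rw [e]
    exact add_mem (mul_mem (natCast_mem _ t) h2) (mul_mem (natCast_mem _ s) h3)
  | mul x y _ _ hx hy =>
    obtain ⟨s, hs, h2⟩ := hx
    obtain ⟨t, ht, h3⟩ := hy
    refine ⟨s * t, fun h => (hp.dvd_mul.1 h).elim hs ht, ?_⟩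
    have e : ((s * t : ℕ) : K) * (x * y) = (s * x) * (t * y) := by
      push_cast
      ring
    rw [e]
    exact mul_mem h2 h3

private theorem GP_bez {p s : ℕ} (hp : p.Prime) (hs : ¬ p ∣ s) : ∃ u v : ℤ, u * s + v * p = 1 := by
  have h1 : IsCoprime (s : ℤ) (p : ℤ) := by
    rw [Nat.isCoprime_iff_coprime]
    exact ((Nat.Prime.coprime_iff_not_dvd hp).2 hs).symm
  exact h1

private theorem GP_lf {k : Type*} [Field k] {p : ℕ} (hp : p.Prime) [CharP k p] {y : k}
    (hy : IsIntegral ℤ y) : ∃ r : ℕ, 0 < r ∧ y ^ (p ^ r) = y := by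
  haveI : Fact p.Prime := ⟨hp⟩
  letI : Algebra (ZMod p) k := ZMod.algebra k p
  have h1 : IsIntegral (ZMod p) y := hy.tower_top
  have h2 : FiniteDimensional (ZMod p) (IntermediateField.adjoin (ZMod p) {y}) :=
    IntermediateField.adjoin.finiteDimensional h1
  have h3 : Finite (IntermediateField.adjoin (ZMod p) {y}) := Module.finite_of_finite (ZMod p)
  letI := Fintype.ofFinite (IntermediateField.adjoin (ZMod p) {y})
  haveI : CharP (IntermediateField.adjoin (ZMod p) {y}) p :=
    charP_of_injective_algebraMap (algebraMap (ZMod p) _).injective p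
  obtain ⟨n, -, hn⟩ := FiniteField.card (IntermediateField.adjoin (ZMod p) {y}) p
  refine ⟨n, n.pos, ?_⟩
  have h4 := FiniteField.pow_card
    (⟨y, IntermediateField.mem_adjoin_simple_self _ y⟩ : IntermediateField.adjoin (ZMod p) {y})
  rw [hn] at h4
  exact congrArg Subtype.val h4

private theorem GP_ac {K : Type u} [Field K] [IsAlgClosed K] {R : Type*} [CommRing R] [Algebra R K]
    (M : Ideal (integralClosure R K)) [hM : M.IsMaximal] :
    @IsAlgClosed (integralClosure R K ⧸ M) (Ideal.Quotient.field M) := by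
  letI := Ideal.Quotient.field M
  refine IsAlgClosed.of_exists_root _ fun q hq hirr => ?_
  have hl : q ∈ Polynomial.lifts (Ideal.Quotient.mk M) := by
    rw [Polynomial.mem_lifts]
    exact Polynomial.map_surjective _ Ideal.Quotient.mk_surjective q
  obtain ⟨Q, hQ1, hQ2, hQ3⟩ := Polynomial.lifts_and_natDegree_eq_and_monic hl hq
  have hdeg : (Q.map (algebraMap (integralClosure R K) K)).degree ≠ 0 := by
    rw [hQ3.degree_map]
    intro h0
    have h1 : Q.natDegree = 0 := Polynomial.natDegree_eq_of_degree_eq_some h0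
    have h2 := hirr.natDegree_pos
    omega
  obtain ⟨x, hx⟩ := IsAlgClosed.exists_root _ hdeg
  have hx1 : IsIntegral (integralClosure R K) x := ⟨Q, hQ3, by
    rw [← Polynomial.eval_map]
    exact hx⟩
  have hx2 : IsIntegral R x := isIntegral_trans x hx1
  refine ⟨Ideal.Quotient.mk M ⟨x, hx2⟩, ?_⟩
  have h5 : Q.eval (⟨x, hx2⟩ : integralClosure R K) = 0 := by
    apply Subtype.ext
    have h6 := Polynomial.eval_map_apply (f := algebraMap (integralClosure R K) K) (p := Q)
      (x := (⟨x, hx2⟩ : integralClosure R K))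
    exact h6.symm.trans hx
  rw [← hQ1, Polynomial.eval_map_apply, h5, map_zero]

theorem GP {K : Type u} [Field K] [CharZero K] [IsAlgClosed K] (A : Finset K)
    (hA : Algebra.IsAlgebraic (Algebra.adjoin ℤ (A : Set K)) K) (B : Finset K) (b : K)
    (hb : b ≠ 0) (N : ℕ) :
    ∃ v : Plc K, N < v.p ∧ (∀ x ∈ B, x ∈ v.Λ) ∧ ∃ h : b ∈ v.Λ, v.ψ ⟨b, h⟩ ≠ 0 := by
  classical
  obtain ⟨S, hS⟩ : ∃ S : Finset K, S = A ∪ B ∪ {b, b⁻¹} := ⟨_, rfl⟩
  obtain ⟨p, hp, hNp, hpD⟩ := GP_prime S N
  obtain ⟨D, hD⟩ : ∃ D, D = Algebra.adjoin ℤ (S : Set K) := ⟨_, rfl⟩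
  obtain ⟨D1, hD1⟩ : ∃ D1, D1 = Algebra.adjoin ℤ ((S : Set K) ∪ {x | ∃ s : ℕ, ¬ p ∣ s ∧ x = (s : K)⁻¹}) :=
    ⟨_, rfl⟩
  rw [← hD] at hpD
  have hle : D ≤ D1 := by
    rw [hD, hD1]
    exact Algebra.adjoin_mono Set.subset_union_left
  have hclear : ∀ a ∈ D1, ∃ s : ℕ, ¬ p ∣ s ∧ (s : K) * a ∈ D := by
    intro a ha
    rw [hD1] at ha
    rw [hD]
    exact GP_clear _ hp ha
  have hp0 : (p : K) ≠ 0 := Nat.cast_ne_zero.2 hp.ne_zero
  -- `p` is not a unit in `D1`
  have hpD1 : (p : K)⁻¹ ∉ D1 := by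
    intro hmem
    obtain ⟨s, hs, h1⟩ := hclear _ hmem
    obtain ⟨u, v, huv⟩ := GP_bez hp hs
    apply hpD
    have e : (p : K)⁻¹ = (u : K) * ((s : K) * (p : K)⁻¹) + (v : K) := by
      have h2 : (u : K) * s + v * p = 1 := by exact_mod_cast congrArg (Int.cast : ℤ → K) huv
      have h3 : (v : K) = v * p * (p : K)⁻¹ := by rw [mul_assoc, mul_inv_cancel₀ hp0, mul_one]
      rw [h3]
      linear_combination (-(p : K)⁻¹) * h2
    rw [e]
    exact add_mem (mul_mem (intCast_mem D u) h1) (intCast_mem D v)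
  have hnu : Ideal.span {(p : D1)} ≠ ⊤ := by
    intro htop
    rw [Ideal.span_singleton_eq_top] at htop
    obtain ⟨c, hc⟩ := htop.exists_right_inv
    apply hpD1
    have h1 : (p : K) * (c : K) = 1 := by
      have h2 := congrArg D1.val hc
      rw [map_mul, map_natCast, map_one] at h2
      exact h2
    rw [inv_eq_of_mul_eq_one_right h1]
    exact c.2
  obtain ⟨m1, hm1, hle1⟩ := Ideal.exists_le_maximal _ hnu
  have hpm1 : (p : D1) ∈ m1 := hle1 (Ideal.mem_span_singleton_self _)
  -- the residue field of `D1`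
  have hsur : Function.Surjective ((Ideal.Quotient.mkₐ ℤ m1).comp (Subalgebra.inclusion hle)) := by
    intro z
    obtain ⟨a, rfl⟩ := Ideal.Quotient.mk_surjective z
    obtain ⟨s, hs, h1⟩ := hclear a a.2
    obtain ⟨u, v, huv⟩ := GP_bez hp hs
    refine ⟨(u : D) * ⟨(s : K) * a, h1⟩, ?_⟩
    change Ideal.Quotient.mk m1 (Subalgebra.inclusion hle ((u : D) * ⟨(s : K) * a, h1⟩)) = _
    rw [Ideal.Quotient.eq]
    have e : Subalgebra.inclusion hle ((u : D) * ⟨(s : K) * a, h1⟩) - a = (p : D1) * (-(v : D1) * a) := by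
      apply Subtype.ext
      change ((u : D) : K) * ((s : K) * a) - (a : K) = ((p : D1) : K) * (-((v : D1) : K) * (a : K))
      have h2 : (u : K) * s + v * p = 1 := by exact_mod_cast congrArg (Int.cast : ℤ → K) huv
      rw [show ((u : D) : K) = (u : K) from map_intCast D.val u,
        show ((p : D1) : K) = (p : K) from map_natCast D1.val p,
        show ((v : D1) : K) = (v : K) from map_intCast D1.val v]
      linear_combination (a : K) * h2
    rw [e]
    exact Ideal.mul_mem_right _ _ hpm1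
  have hfgD : Algebra.FiniteType ℤ D := by
    rw [hD]
    exact (Subalgebra.fg_iff_finiteType _).1 (Subalgebra.fg_adjoin_finset _)
  have hftF : Algebra.FiniteType ℤ (D1 ⧸ m1) := Algebra.FiniteType.of_surjective _ hsur
  have hintF : Algebra.IsIntegral ℤ (D1 ⧸ m1) := by
    let hfF := Ideal.Quotient.field m1
    exact (GP_char hftF).1
  -- the integral closure
  have hker : RingHom.ker (algebraMap D1 (integralClosure D1 K)) ≤ m1 := by
    have hinj : Function.Injective (algebraMap D1 (integralClosure D1 K)) := by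
      intro x y hxy
      have h := congrArg (fun z : integralClosure D1 K => (z : K)) hxy
      exact Subtype.ext h
    rw [(RingHom.injective_iff_ker_eq_bot _).1 hinj]
    exact bot_le
  obtain ⟨M, hM, hMm⟩ := Ideal.exists_ideal_over_maximal_of_isIntegral
    (S := integralClosure D1 K) m1 hker
  have hpM : (p : integralClosure D1 K) ∈ M := by
    rw [← hMm, Ideal.mem_comap, map_natCast] at hpm1
    exact hpm1
  let hfk := Ideal.Quotient.field M
  have hpk : (p : integralClosure D1 K ⧸ M) = 0 := by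
    rw [← map_natCast (Ideal.Quotient.mk M), Ideal.Quotient.eq_zero_iff_mem]
    exact hpM
  have hcp : CharP (integralClosure D1 K ⧸ M) p := by
    obtain ⟨q, hq⟩ := CharP.exists (integralClosure D1 K ⧸ M)
    have h1 : q ∣ p := (CharP.cast_eq_zero_iff _ q p).1 hpk
    rcases (Nat.dvd_prime hp).1 h1 with h2 | h2
    · rw [h2] at hq
      exact absurd (CharP.false_of_nontrivial_of_char_one (R := integralClosure D1 K ⧸ M)) id
    · rw [← h2]
      exact hq
  have hint : ∀ y : integralClosure D1 K ⧸ M, IsIntegral ℤ y := by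
    intro y
    obtain ⟨z, rfl⟩ := Ideal.Quotient.mk_surjective y
    let f : (D1 ⧸ m1) →+* (integralClosure D1 K ⧸ M) :=
      Ideal.quotientMap M (algebraMap D1 (integralClosure D1 K)) hMm.ge
    let _ : Algebra (D1 ⧸ m1) (integralClosure D1 K ⧸ M) := f.toAlgebra
    have h1 : IsIntegral D1 z := integralClosure.isIntegral z
    have h2 : IsIntegral (D1 ⧸ m1) (Ideal.Quotient.mk M z) := by
      refine IsIntegral.map_of_comp_eq (Ideal.Quotient.mk m1) (Ideal.Quotient.mk M) ?_ h1
      ext x
      rfl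
    have : IsScalarTower ℤ (D1 ⧸ m1) (integralClosure D1 K ⧸ M) := by
      refine ⟨fun n a c => ?_⟩
      change f (n • a) * c = n • (f a * c)
      rw [map_zsmul, smul_mul_assoc]
    exact isIntegral_trans _ h2
  have hsub : ∀ x ∈ S, IsIntegral D1 x := by
    intro x hx
    have h1 : x ∈ D1 := by
      rw [hD1]
      exact Algebra.subset_adjoin (Or.inl hx)
    exact isIntegral_algebraMap (x := (⟨x, h1⟩ : D1))
  let v : Plc K :=
    { p := p
      k := integralClosure D1 K ⧸ M
      fld := hfk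
      ac := GP_ac M
      cp := hcp
      hp := hp
      lf := fun y => GP_lf hp (hint y)
      Λ := (integralClosure D1 K).toSubring
      ψ := (Ideal.Quotient.mk M : integralClosure D1 K →+* integralClosure D1 K ⧸ M)
      surj := Ideal.Quotient.mk_surjective
      int := fun x hx => hx.tower_top
      inv := fun s hs => by
        have h1 : (s : K)⁻¹ ∈ D1 := by
          rw [hD1]
          exact Algebra.subset_adjoin (Or.inr ⟨s, hs, rfl⟩)
        exact isIntegral_algebraMap (x := (⟨(s : K)⁻¹, h1⟩ : D1))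
      fr := fun x => by
        have hAD : Algebra.adjoin ℤ (A : Set K) ≤ D1 := by
          rw [hD1]
          refine Algebra.adjoin_mono fun z hz => Or.inl ?_
          rw [hS]
          simp only [Finset.coe_union]
          exact Or.inl (Or.inl hz)
        obtain ⟨s, hs, h1⟩ := (hA.isAlgebraic x).exists_integral_multiple
        have h2 : IsIntegral D1 ((s : K) * x) :=
          h1.map_of_comp_eq (Subalgebra.inclusion hAD).toRingHom (RingHom.id K) rfl
        refine ⟨s, isIntegral_algebraMap (x := (⟨s, hAD s.2⟩ : D1)), fun h => hs (Subtype.ext h), h2⟩ }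
  have hbS : b ∈ S := by simp [hS]
  have hbS' : b⁻¹ ∈ S := by simp [hS]
  refine ⟨v, hNp, fun x hx => hsub x ?_, hsub b hbS, ?_⟩
  · rw [hS]
    exact Finset.mem_union_left _ (Finset.mem_union_right _ hx)
  · intro h0
    have h1 : (⟨b, hsub b hbS⟩ : integralClosure D1 K) * ⟨b⁻¹, hsub _ hbS'⟩ = 1 := by
      apply Subtype.ext
      exact mul_inv_cancel₀ hb
    have h2 := congrArg (Ideal.Quotient.mk M) h1
    have h3 : Ideal.Quotient.mk M (⟨b, hsub b hbS⟩ : integralClosure D1 K) = 0 := h0
    rw [map_mul, h3, zero_mul, map_one] at h2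
    exact zero_ne_one h2

end H42.ZD
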