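import Pool.Agent.H42.ZD.RL

/-!
# ZD row GR: the growth lemma (fibre degree `≥ 2`)

`S` is a noetherian domain inside a field `K`, `I` a maximal ideal with finite residue field,
`0 ≠ π ∈ I` (a prime number later). The base orbit `x_t = (act g)^[t] x` is periodic modulo `I` with
invertible diagonal derivatives; the fibre orbit `Y t ∈ K` starts at `Y 0 = z / π` with `z ∉ I`.
Then a polynomial `P` in the fibre coordinate vanishing along the orbit has a leading coefficient
vanishing along the base orbit.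

PROOF. `d = h.natDegree ≥ 2`; for `q ∈ MvPolynomial (Fin n) S` write `q(t) = eval (x_t) q ∈ S`;
`c = h.leadingCoeff`, `c(t) ∉ I`. Let `ι = algebraMap S K` (injective).

(1) There are `u_t ∈ S \ I` with `ι(π)^(d^t) * Y t = ι(u_t)`. `u_0 = z` (`hY0`, `d^0 = 1`).
Given `u_t`: `Y (t+1) = Σ_{j ≤ d} ι(h_j(t)) (Y t)^j`, so
`ι(π)^(d^(t+1)) Y (t+1) = Σ_{j≤d} ι(h_j(t)) ι(u_t)^j ι(π)^((d-j) d^t)`, because
`d^(t+1) = j d^t + (d-j) d^t`. Take
`u_{t+1} = Σ_{j≤d} h_j(t) u_t^j π^((d-j) d^t)`. The terms with `j < d` lie in `I` (`π ∈ I`,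
exponent `(d-j) d^t ≥ 1`) and the term `j = d` is `c(t) u_t^d ∉ I` (`I` prime). So `u_{t+1} ∉ I`.

(2) Let `D = P.natDegree`, `P_D = P.leadingCoeff`. Multiply `hP t` by `ι(π)^(D d^t)`:
`Σ_{j≤D} ι(P_j(t)) ι(u_t)^j ι(π)^((D-j) d^t) = 0`, so in `S` (injectivity)
`P_D(t) u_t^D = - Σ_{j<D} P_j(t) u_t^j π^((D-j) d^t) ∈ I^(d^t)`. Since `u_t ∉ I` and `I` is maximal,
`u_t^D` is a unit modulo `I^(d^t)` (choose `a u_t^D + e = 1` with `e ∈ I`, then
`(a u_t^D + e)^M = 1` shows `1 ∈ (u_t^D) + I^M`), hence `P_D(t) ∈ I^(d^t)`.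

(3) Fix `t` and `k`. By `RL` (`I.FG` since `S` noetherian) there is `N > 0` with
`x_{s+N} ≡ x_s mod I^k` for all `s`, so by induction `x_{t+jN} ≡ x_t mod I^k` for all `j`, so
`P_D(t) ≡ P_D(t + jN) mod I^k`; choose `j = k` : `d^(t + kN) ≥ 2^k ≥ k`, so
`P_D(t + kN) ∈ I^(d^(t+kN)) ⊆ I^k`. Hence `P_D(t) ∈ I^k` for all `k`, and
`⨅ k, I^k = ⊥` (Krull: `Ideal.iInf_pow_eq_bot_of_isDomain`, `S` noetherian domain, `I ≠ ⊤`) gives
`P_D(t) = 0`.
-/

open MvPolynomial

namespace H42.ZD

theorem GR_hom {R S K : Type*} [CommRing R] [CommRing S] [Field K] (φ : R →+* S) (ι : S →+* K)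
    (p : Polynomial R) (D : ℕ) (hD : p.natDegree ≤ D) (a u : S) (y : K) (h : ι a * y = ι u) :
    ι a ^ D * p.eval₂ (ι.comp φ) y =
      ι (∑ j ∈ Finset.range (D + 1), φ (p.coeff j) * u ^ j * a ^ (D - j)) := by
  rw [Polynomial.eval₂_eq_sum_range' (ι.comp φ) (n := D + 1) (Nat.lt_succ_of_le hD), Finset.mul_sum,
    map_sum]
  refine Finset.sum_congr rfl fun j hj => ?_
  have hj' : j ≤ D := Nat.lt_succ_iff.1 (Finset.mem_range.1 hj)
  rw [map_mul, map_mul, map_pow, map_pow, ← h, mul_pow, RingHom.comp_apply]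
  have e : ι a ^ D = ι a ^ j * ι a ^ (D - j) := by
    rw [← pow_add, Nat.add_sub_cancel' hj']
  rw [e]
  ring

theorem GR_congr {S : Type*} [CommRing S] (J : Ideal S) {n : ℕ} (u v : Fin n → S)
    (h : ∀ i, u i - v i ∈ J) (p : MvPolynomial (Fin n) S) : eval u p - eval v p ∈ J := by
  induction p using MvPolynomial.induction_on with
  | C a =>
    rw [eval_C, eval_C, sub_self]
    exact J.zero_mem
  | add p q hp hq =>
    rw [map_add, map_add]
    have e : eval u p + eval u q - (eval v p + eval v q) =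
        (eval u p - eval v p) + (eval u q - eval v q) := by ring
    rw [e]
    exact J.add_mem hp hq
  | mul_X p i hp =>
    rw [map_mul, map_mul, eval_X, eval_X]
    have e : eval u p * u i - eval v p * v i =
        (eval u p - eval v p) * u i + eval v p * (u i - v i) := by ring
    rw [e]
    exact J.add_mem (J.mul_mem_right _ hp) (J.mul_mem_left _ (h i))

theorem GR_unit {S : Type*} [CommRing S] (I : Ideal S) [I.IsMaximal] {M : ℕ} {a u : S}
    (hu : u ∉ I) (h : a * u ∈ I ^ M) : a ∈ I ^ M := by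
  by_cases hM : M = 0
  · rw [hM, pow_zero, Ideal.one_eq_top]
    exact Submodule.mem_top
  · have hr : (I ^ M).radical = I := by
      rw [Ideal.radical_pow I hM]
      exact Ideal.IsPrime.radical inferInstance
    have hp : (I ^ M).IsPrimary := Ideal.isPrimary_of_isMaximal_radical (by rw [hr]; infer_instance)
    rcases (Ideal.isPrimary_iff.1 hp).2 h with h1 | h1
    · exact h1
    · rw [hr] at h1
      exact absurd h1 hu

theorem GR {S K : Type*} [CommRing S] [IsDomain S] [IsNoetherianRing S] [Field K] [Algebra S K]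
    (hinj : Function.Injective (algebraMap S K)) (I : Ideal S) [I.IsMaximal] [Finite (S ⧸ I)]
    (π : S) (hπ : π ∈ I) {n : ℕ} (g : Fin n → MvPolynomial (Fin n) S)
    (hg : ∀ i, ∀ j ∈ (g i).vars, i ≤ j) (h : Polynomial (MvPolynomial (Fin n) S))
    (hd : 2 ≤ h.natDegree) (x : Fin n → S) (N0 : ℕ) (hN0 : 0 < N0)
    (hper : ∀ i, (act g)^[N0] x i - x i ∈ I)
    (hun : ∀ t i, eval ((act g)^[t] x) (pderiv i (g i)) ∉ I)
    (hc : ∀ t, eval ((act g)^[t] x) h.leadingCoeff ∉ I) (z : S) (hz : z ∉ I) (Y : ℕ → K)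
    (hY0 : algebraMap S K π * Y 0 = algebraMap S K z)
    (hY : ∀ t, Y (t + 1) = h.eval₂ ((algebraMap S K).comp (eval ((act g)^[t] x))) (Y t))
    (P : Polynomial (MvPolynomial (Fin n) S))
    (hP : ∀ t, P.eval₂ ((algebraMap S K).comp (eval ((act g)^[t] x))) (Y t) = 0) (t : ℕ) :
    eval ((act g)^[t] x) P.leadingCoeff = 0 := by
  set d := h.natDegree with hdd
  have hdpos : ∀ t, 1 ≤ d ^ t := fun t => Nat.one_le_pow _ _ (by omega)
  have h1 : ∀ t, ∃ u : S, u ∉ I ∧ algebraMap S K (π ^ d ^ t) * Y t = algebraMap S K u := by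
    intro t
    induction t with
    | zero => exact ⟨z, hz, by rw [pow_zero, pow_one]; exact hY0⟩
    | succ t ih =>
      obtain ⟨u, hu, hu'⟩ := ih
      have h2 := GR_hom (eval ((act g)^[t] x)) (algebraMap S K) h d le_rfl _ _ _ hu'
      rw [← hY t] at h2
      refine ⟨∑ j ∈ Finset.range (d + 1), eval ((act g)^[t] x) (h.coeff j) * u ^ j *
        (π ^ d ^ t) ^ (d - j), ?_, ?_⟩
      rotate_left
      · rw [pow_succ, pow_mul, map_pow]
        exact h2
      · rw [Finset.sum_range_succ, Nat.sub_self, pow_zero, mul_one]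
        intro hcon
        have h3 : ∑ j ∈ Finset.range d, eval ((act g)^[t] x) (h.coeff j) * u ^ j *
            (π ^ d ^ t) ^ (d - j) ∈ I := by
          refine I.sum_mem fun j hj => I.mul_mem_left _ ?_
          have hj' := Finset.mem_range.1 hj
          exact I.pow_mem_of_mem (I.pow_mem_of_mem hπ _ (hdpos t)) _ (by omega)
        have h4 := (I.add_mem_iff_right h3).1 hcon
        have hprime : I.IsPrime := inferInstance
        rcases hprime.mem_or_mem h4 with h5 | h5
        · exact hc t h5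
        · exact hu (hprime.mem_of_pow_mem _ h5)
  have h2 : ∀ t, eval ((act g)^[t] x) P.leadingCoeff ∈ I ^ (d ^ t) := by
    intro t
    obtain ⟨u, hu, hu'⟩ := h1 t
    have h3 := GR_hom (eval ((act g)^[t] x)) (algebraMap S K) P P.natDegree le_rfl _ _ _ hu'
    rw [hP t, mul_zero] at h3
    have h4 := (map_eq_zero_iff _ hinj).1 h3.symm
    rw [Finset.sum_range_succ, Nat.sub_self, pow_zero, mul_one] at h4
    have hprime : I.IsPrime := inferInstance
    have hu2 : u ^ P.natDegree ∉ I := fun hcon => hu (hprime.mem_of_pow_mem _ hcon)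
    refine GR_unit I hu2 ?_
    have h5 : eval ((act g)^[t] x) P.leadingCoeff * u ^ P.natDegree =
        -∑ j ∈ Finset.range P.natDegree, eval ((act g)^[t] x) (P.coeff j) * u ^ j *
          (π ^ d ^ t) ^ (P.natDegree - j) := by
      rw [Polynomial.leadingCoeff]
      exact eq_neg_of_add_eq_zero_right h4
    rw [h5]
    refine (I ^ d ^ t).neg_mem ((I ^ d ^ t).sum_mem fun j hj => (I ^ d ^ t).mul_mem_left _ ?_)
    have hj' := Finset.mem_range.1 hj
    exact (I ^ d ^ t).pow_mem_of_mem (Ideal.pow_mem_pow hπ _) _ (by omega)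
  have h3 : ∀ k, eval ((act g)^[t] x) P.leadingCoeff ∈ I ^ k := by
    intro k
    obtain ⟨N, hN, hNk⟩ := RL I (IsNoetherian.noetherian I) g hg x N0 hN0 hper hun k
    have h4 : ∀ j, eval ((act g)^[t + j * N] x) P.leadingCoeff -
        eval ((act g)^[t] x) P.leadingCoeff ∈ I ^ k := by
      intro j
      induction j with
      | zero =>
        rw [Nat.zero_mul, Nat.add_zero, sub_self]
        exact (I ^ k).zero_mem
      | succ j ih =>
        have h5 := GR_congr (I ^ k) _ _ (hNk (t + j * N)) P.leadingCoeff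
        have e : t + (j + 1) * N = t + j * N + N := by ring
        rw [e]
        have h6 := (I ^ k).add_mem h5 ih
        rwa [sub_add_sub_cancel] at h6
    have h7 : eval ((act g)^[t + k * N] x) P.leadingCoeff ∈ I ^ k := by
      refine Ideal.pow_le_pow_right ?_ (h2 (t + k * N))
      have e1 : k ≤ t + k * N := (Nat.le_mul_of_pos_right k hN).trans (Nat.le_add_left _ _)
      calc k ≤ 2 ^ k := Nat.lt_two_pow_self.le
        _ ≤ 2 ^ (t + k * N) := Nat.pow_le_pow_right (by norm_num) e1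
        _ ≤ d ^ (t + k * N) := Nat.pow_le_pow_left hd _
    have h8 := (I ^ k).sub_mem h7 (h4 k)
    rwa [sub_sub_cancel] at h8
  have h4 : eval ((act g)^[t] x) P.leadingCoeff ∈ (⨅ k : ℕ, I ^ k) := by
    rw [Submodule.mem_iInf]
    exact h3
  have h5 : (⨅ k : ℕ, I ^ k) = ⊥ :=
    Ideal.iInf_pow_eq_bot_of_isDomain I (Ideal.IsMaximal.ne_top inferInstance)
  rw [h5] at h4
  exact (Submodule.mem_bot S).1 h4

end H42.ZD
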