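import Pool.Agent.H42.ZD.Df

/-!
# ZD row L1: the degree-one fibre step

Skew map `(y, x) ↦ (a(x) y + b(x), g(x))`; `x` has a dense orbit `x_t = (act g)^[t] x` for `g` and
`a(x_t) ≠ 0` for all `t`. If two different `y` give non-dense orbits, then there is a non-constant
invariant rational function.

PROOF. `R = MvPolynomial (Fin n) K`, a domain; `γ = bind₁ g : R → R`; `h = C a * X + C b ∈ R[Y]`;
`Θ = Th g h : R[Y] → R[Y]`, `Θ(P)(Y) = P^γ (aY + b)`, a ring hom (`Th_add`, `Th_mul`, `Th_C`,
`Th_X` of `Df.lean`), and `bind_step`: `finSuccEquiv (bind₁ (Step g h) P) = Θ (finSuccEquiv P)`.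
For `y ∈ K` let `EV_t(P) = (P.map (eval x_t)).eval (fib g h x y t)`. It is a ring hom in `P`, and
`EV_{t+1}(P) = EV_t(Θ P)` (check on `C p` and `X`: `eval x_{t+1} p = eval x_t (bind₁ g p)` and
`fib (t+1) = a(x_t) fib t + b(x_t)`).
By `dense_step`, `y` is bad iff there is `P ≠ 0` with `EV_t(P) = 0` for all `t`. Let `I_y` be the set
of all such `P` together with `0` (an ideal), `Θ(I_y) ⊆ I_y`.

(1) `y` bad. Take `0 ≠ P ∈ I_y` of minimal degree `m` (`Y`-degree, `Nat.find`), `c = P.coeff m` its
leading coefficient, `e = P.coeff (m-1)`. `m ≥ 1`, because a non-zero constant `C c` has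
`EV_t (C c) = eval x_t c ≠ 0` for some `t` (density `hx`).
`Θ P ∈ I_y` has degree `≤ m` and coefficient `a^m γ(c)` at `Y^m`. So
`c · Θ P - a^m γ(c) · P ∈ I_y` has degree `< m`, hence is `0` by minimality:
  (A)  `C c * Θ P = C (a^m * γ c) * P`.
Compare the coefficients of `Y^(m-1)`. `Θ P = γ(c) (aY+b)^m + γ(e) (aY+b)^(m-1) + …` has
`Y^(m-1)`-coefficient `m γ(c) a^(m-1) b + γ(e) a^(m-1)`. So
`c (m γ(c) a^(m-1) b + γ(e) a^(m-1)) = a^m γ(c) e`; cancel `a^(m-1)` (`a ≠ 0`, as `a(x_0) ≠ 0`):
  (B)  `c (m γ(c) b + γ(e)) = a γ(c) e`.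
Let `N = C (m c) * X + C e`. Then `Θ N = C (m γ(c) a) * X + C (m γ(c) b + γ(e))`, so by (B)
  (C)  `C c * Θ N = C (a * γ c) * N`.
Let `U = N^m`, `V = P * C (c^(m-1))`. Then `U * Θ V = V * Θ U`: multiply by `C c^m` and use (A), (C):
`c^m ΘU V = a^m γ(c)^m N^m P c^(m-1)` and
`c^m U ΘV = c^(m-1) N^m (c ΘP) γ(c)^(m-1) = c^(m-1) N^m a^m γ(c)^m P`; cancel `C c^m ≠ 0`.
If `U ≠ λ V` for all `λ ∈ K`, then `(finSuccEquiv.symm U, finSuccEquiv.symm V)` witnesses `Inv`
(`V ≠ 0`), and we are done. Otherwise `U = λ V`, and then `U ∈ I_y`, so `EV_t(N)^m = 0`,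
`EV_t(N) = 0` for all `t`, `N ∈ I_y` has degree `1` (`m c ≠ 0`, characteristic 0), so `m = 1` by
minimality. So from now on (if `Inv` fails) every bad `y` has `P = C c * X + C e ∈ I_y`, `c ≠ 0`,
satisfying (A) with `m = 1`: `C c * Θ P = C (a γ c) * P`.

(2) Two bad `y1 ≠ y2`, with `P_i = C c_i * X + C e_i`, `c_i ≠ 0`. Let `U = P_1 C c_2`,
`V = P_2 C c_1 ≠ 0`. Then `U ΘV = V ΘU`: multiply by `c_1 c_2`:
`c_1 c_2 U ΘV = c_1 P_1 c_2 γ(c_1) (c_2 ΘP_2) = c_1 P_1 c_2 γ(c_1) a γ(c_2) P_2` and
`c_1 c_2 V ΘU = c_2 P_2 c_1 γ(c_2) (c_1 ΘP_1) = c_2 P_2 c_1 γ(c_2) a γ(c_1) P_1`, equal.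
If `U ≠ λ V` for all `λ ∈ K`, `Inv` holds. Otherwise comparing leading coefficients
`c_1 c_2 = λ c_1 c_2`, `λ = 1`, `U = V`, and `e_1 c_2 = e_2 c_1`. Choose `t` with
`eval x_t (c_1 c_2) ≠ 0` (density). `c_i(x_t) fib_i(t) + e_i(x_t) = 0` gives
`fib_1(t) = -e_1/c_1 (x_t) = -e_2/c_2 (x_t) = fib_2(t)`. But `fib_1(t+1) - fib_2(t+1) =
a(x_t) (fib_1(t) - fib_2(t))`, so by induction `fib_1(t) ≠ fib_2(t)` for all `t` as `y1 ≠ y2` and
`a(x_s) ≠ 0`. Contradiction.
-/

open MvPolynomial

namespace H42.ZD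

section L1aux

variable {K : Type*} [Field K] {n : ℕ}

/-- evaluation at the point number `t` of the orbit -/
noncomputable def L1_EV (g : Fin n → MvPolynomial (Fin n) K)
    (h : Polynomial (MvPolynomial (Fin n) K)) (x : Fin n → K) (y : K) (t : ℕ) :
    Polynomial (MvPolynomial (Fin n) K) →+* K :=
  (Polynomial.evalRingHom (fib g h x y t)).comp (Polynomial.mapRingHom (eval ((act g)^[t] x)))

theorem L1_EV_apply (g : Fin n → MvPolynomial (Fin n) K)
    (h : Polynomial (MvPolynomial (Fin n) K)) (x : Fin n → K) (y : K) (t : ℕ)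
    (P : Polynomial (MvPolynomial (Fin n) K)) :
    L1_EV g h x y t P = (P.map (eval ((act g)^[t] x))).eval (fib g h x y t) := rfl

theorem L1_EV_succ (g : Fin n → MvPolynomial (Fin n) K)
    (h : Polynomial (MvPolynomial (Fin n) K)) (x : Fin n → K) (y : K) (t : ℕ)
    (P : Polynomial (MvPolynomial (Fin n) K)) :
    L1_EV g h x y (t + 1) P = L1_EV g h x y t (Th g h P) := by
  have h1 : (eval ((act g)^[t] x)).comp
      ((bind₁ g : MvPolynomial (Fin n) K →ₐ[K] MvPolynomial (Fin n) K) :
        MvPolynomial (Fin n) K →+* MvPolynomial (Fin n) K) =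
      eval ((act g)^[t + 1] x) := by
    refine MvPolynomial.ringHom_ext (fun r => ?_) (fun i => ?_)
    · rw [RingHom.comp_apply, RingHom.coe_coe, bind₁_C_right, eval_C, eval_C]
    · rw [RingHom.comp_apply, RingHom.coe_coe, bind₁_X_right, eval_X,
        Function.iterate_succ_apply']
      rfl
  rw [L1_EV_apply, L1_EV_apply, Th, Polynomial.map_comp, Polynomial.map_map, h1,
    Polynomial.eval_comp]
  rfl

theorem L1_EV_C (g : Fin n → MvPolynomial (Fin n) K)
    (h : Polynomial (MvPolynomial (Fin n) K)) (x : Fin n → K) (y : K) (t : ℕ)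
    (p : MvPolynomial (Fin n) K) :
    L1_EV g h x y t (Polynomial.C p) = eval ((act g)^[t] x) p := by
  rw [L1_EV_apply, Polynomial.map_C, Polynomial.eval_C]

theorem L1_inv (g : Fin n → MvPolynomial (Fin n) K)
    (h : Polynomial (MvPolynomial (Fin n) K)) (U V : Polynomial (MvPolynomial (Fin n) K))
    (hV : V ≠ 0) (hUV : ∀ c : K, U ≠ Polynomial.C (C c) * V)
    (hT : Th g h U * V = U * Th g h V) : Inv (Step g h) := by
  have hinj := (finSuccEquiv K n).injective
  refine ⟨(finSuccEquiv K n).symm U, (finSuccEquiv K n).symm V, ?_, ?_, ?_⟩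
  · intro h0
    apply hV
    have := congrArg (finSuccEquiv K n) h0
    rwa [AlgEquiv.apply_symm_apply, map_zero] at this
  · intro c hc
    apply hUV c
    have := congrArg (finSuccEquiv K n) hc
    rwa [AlgEquiv.apply_symm_apply, map_mul, AlgEquiv.apply_symm_apply, fse_C] at this
  · apply hinj
    rw [map_mul, map_mul, bind_step, bind_step, AlgEquiv.apply_symm_apply,
      AlgEquiv.apply_symm_apply, hT]

theorem L1_Th_derivative (g : Fin n → MvPolynomial (Fin n) K) (a b : MvPolynomial (Fin n) K)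
    (P : Polynomial (MvPolynomial (Fin n) K)) :
    Polynomial.derivative (Th g (Polynomial.C a * Polynomial.X + Polynomial.C b) P) =
      Polynomial.C a *
        Th g (Polynomial.C a * Polynomial.X + Polynomial.C b) (Polynomial.derivative P) := by
  rw [Th, Polynomial.derivative_comp, Polynomial.derivative_map]
  congr 1
  simp

theorem L1_Th_natDegree (g : Fin n → MvPolynomial (Fin n) K) (a b : MvPolynomial (Fin n) K)
    (P : Polynomial (MvPolynomial (Fin n) K)) :
    (Th g (Polynomial.C a * Polynomial.X + Polynomial.C b) P).natDegree ≤ P.natDegree := by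
  rw [Th]
  refine Polynomial.natDegree_comp_le.trans ?_
  have h1 : (Polynomial.C a * Polynomial.X + Polynomial.C b).natDegree ≤ 1 :=
    Polynomial.natDegree_linear_le
  have h2 := Polynomial.natDegree_map_le
    (f := ((bind₁ g : MvPolynomial (Fin n) K →ₐ[K] MvPolynomial (Fin n) K) :
      MvPolynomial (Fin n) K →+* MvPolynomial (Fin n) K)) (p := P)
  calc _ ≤ P.natDegree * 1 := Nat.mul_le_mul h2 h1
    _ = _ := mul_one _

theorem L1_Th_coeff (g : Fin n → MvPolynomial (Fin n) K) (a b : MvPolynomial (Fin n) K)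
    (P : Polynomial (MvPolynomial (Fin n) K)) :
    (Th g (Polynomial.C a * Polynomial.X + Polynomial.C b) P).coeff P.natDegree =
      a ^ P.natDegree * bind₁ g P.leadingCoeff := by
  have h0 : ∀ (m : ℕ) (Q : Polynomial (MvPolynomial (Fin n) K)), Q.natDegree ≤ m →
      (Q.comp (Polynomial.C a * Polynomial.X + Polynomial.C b)).coeff m =
        Q.coeff m * a ^ m := by
    intro m Q hQ
    have h1 : (Polynomial.C a * Polynomial.X + Polynomial.C b).natDegree ≤ 1 :=
      Polynomial.natDegree_linear_le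
    have h2 : ∀ i, i ≤ m → ((Polynomial.C a * Polynomial.X + Polynomial.C b) ^ i).coeff m =
        if i = m then a ^ m else 0 := by
      intro i hi
      split_ifs with him
      · subst him
        have h3 := Polynomial.coeff_pow_of_natDegree_le (m := i) (n := 1) h1
        rw [mul_one] at h3
        rw [h3]
        simp
      · apply Polynomial.coeff_eq_zero_of_natDegree_lt
        have h4 := Polynomial.natDegree_pow_le_of_le i h1
        omega
    rw [Polynomial.comp, Polynomial.eval₂_eq_sum_range' Polynomial.C (Nat.lt_succ_of_le hQ),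
      Polynomial.finsetSum_coeff, Finset.sum_eq_single m]
    · rw [Polynomial.coeff_C_mul, h2 m le_rfl, if_pos rfl]
    · intro i hi him
      rw [Polynomial.coeff_C_mul, h2 i (Nat.lt_succ_iff.1 (Finset.mem_range.1 hi)), if_neg him,
        mul_zero]
    · intro hm
      exact absurd (Finset.mem_range.2 (Nat.lt_succ_self m)) hm
  rw [Th, h0 _ _ Polynomial.natDegree_map_le, Polynomial.coeff_map, mul_comm]
  rfl

theorem L1_one [CharZero K] (g : Fin n → MvPolynomial (Fin n) K)
    (a b : MvPolynomial (Fin n) K) (x : Fin n → K) (hx : Dense g x)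
    (ha : a ≠ 0) (y : K)
    (h1 : ¬ Dense (Step g (Polynomial.C a * Polynomial.X + Polynomial.C b))
      (Fin.cons y x : Fin (n + 1) → K)) :
    Inv (Step g (Polynomial.C a * Polynomial.X + Polynomial.C b)) ∨
      ∃ P : Polynomial (MvPolynomial (Fin n) K), P.natDegree = 1 ∧
        (∀ t, L1_EV g (Polynomial.C a * Polynomial.X + Polynomial.C b) x y t P = 0) ∧
        Polynomial.C P.leadingCoeff *
          Th g (Polynomial.C a * Polynomial.X + Polynomial.C b) P =
            Polynomial.C (a * bind₁ g P.leadingCoeff) * P := by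
  classical
  obtain ⟨h, hh⟩ : ∃ h, h = Polynomial.C a * Polynomial.X + Polynomial.C b := ⟨_, rfl⟩
  rw [← hh] at h1 ⊢
  rw [dense_step] at h1
  push Not at h1
  obtain ⟨P0, hP0, hP0'⟩ := h1
  have hex : ∃ m : ℕ, ∃ P : Polynomial (MvPolynomial (Fin n) K), P ≠ 0 ∧ P.natDegree = m ∧
      ∀ t, L1_EV g h x y t P = 0 := ⟨_, P0, hP0, rfl, hP0'⟩
  obtain ⟨P, hP, hm, hPt⟩ := Nat.find_spec hex
  have hmin : ∀ Q : Polynomial (MvPolynomial (Fin n) K), Q ≠ 0 →
      (∀ t, L1_EV g h x y t Q = 0) → P.natDegree ≤ Q.natDegree := by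
    intro Q hQ hQt
    rw [hm]
    exact Nat.find_min' hex ⟨Q, hQ, rfl, hQt⟩
  obtain ⟨m, hmd⟩ : ∃ m, m = P.natDegree := ⟨_, rfl⟩
  obtain ⟨c, hc⟩ : ∃ c, c = P.leadingCoeff := ⟨_, rfl⟩
  have hc0 : c ≠ 0 := by
    rw [hc]
    exact Polynomial.leadingCoeff_ne_zero.2 hP
  have hm1 : 1 ≤ m := by
    by_contra hlt
    have hm0 : P.natDegree = 0 := by omega
    rw [Polynomial.natDegree_eq_zero] at hm0
    obtain ⟨d, hd⟩ := hm0
    have hd0 : d ≠ 0 := by
      rintro rfl
      apply hP
      rw [← hd, map_zero]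
    obtain ⟨t, ht⟩ := hx d hd0
    apply ht
    rw [← L1_EV_C g h x y t d, hd]
    exact hPt t
  have hTt : ∀ t, L1_EV g h x y t (Th g h P) = 0 := fun t => by
    rw [← L1_EV_succ]
    exact hPt (t + 1)
  have hA : Polynomial.C c * Th g h P = Polynomial.C (a ^ m * bind₁ g c) * P := by
    by_contra hne
    have hW0 : Polynomial.C c * Th g h P - Polynomial.C (a ^ m * bind₁ g c) * P ≠ 0 :=
      sub_ne_zero.2 hne
    have hW := hmin _ hW0 (fun t => by
      rw [map_sub, map_mul, map_mul, hTt, hPt, mul_zero, mul_zero, sub_zero])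
    have hlt : (Polynomial.C c * Th g h P - Polynomial.C (a ^ m * bind₁ g c) * P).natDegree <
        m := by
      rw [Nat.lt_iff_le_pred hm1, Polynomial.natDegree_le_iff_coeff_eq_zero]
      intro i hi
      have hi' : m ≤ i := by omega
      rw [Polynomial.coeff_sub, Polynomial.coeff_C_mul, Polynomial.coeff_C_mul]
      rcases hi'.eq_or_lt with hi'' | hi''
      · rw [← hi'', hmd, hh, L1_Th_coeff, hc, Polynomial.coeff_natDegree]
        ring
      · rw [Polynomial.coeff_eq_zero_of_natDegree_lt (by omega : P.natDegree < i),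
          Polynomial.coeff_eq_zero_of_natDegree_lt (p := Th g h P), mul_zero, mul_zero, sub_zero]
        have := L1_Th_natDegree g a b P
        rw [← hh] at this
        omega
    omega
  have hB : ∀ j, j ≤ m → Polynomial.C c * Th g h (Polynomial.derivative^[j] P) =
      Polynomial.C (a ^ (m - j) * bind₁ g c) * Polynomial.derivative^[j] P := by
    intro j
    induction j with
    | zero =>
      intro _
      exact hA
    | succ j ih =>
      intro hj
      have h2 := congrArg Polynomial.derivative (ih (by omega))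
      rw [Polynomial.derivative_C_mul, Polynomial.derivative_C_mul, hh, L1_Th_derivative, ← hh,
        ← Function.iterate_succ_apply' Polynomial.derivative] at h2
      have h3 : m - j = (m - (j + 1)) + 1 := by omega
      have ha' : Polynomial.C a ≠ 0 := Polynomial.C_ne_zero.2 ha
      apply mul_left_cancel₀ ha'
      calc _ = Polynomial.C c * (Polynomial.C a * Th g h (Polynomial.derivative^[j + 1] P)) := by
            ring
        _ = _ := h2
        _ = _ := by
            rw [h3, pow_succ]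
            simp only [map_mul, map_pow]
            ring
  obtain ⟨N, hN⟩ : ∃ N, N = Polynomial.derivative^[m - 1] P := ⟨_, rfl⟩
  have hC : Polynomial.C c * Th g h N = Polynomial.C (a * bind₁ g c) * N := by
    have h2 := hB (m - 1) (by omega)
    rw [← hN] at h2
    rw [h2]
    congr 3
    rw [show m - (m - 1) = 1 from by omega, pow_one]
  have hNd : N.natDegree ≤ 1 := by
    rw [hN]
    refine (Polynomial.natDegree_iterate_derivative P (m - 1)).trans ?_
    omega
  have hN0 : N ≠ 0 := by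
    intro h0
    have h2 : N.coeff 1 = 0 := by rw [h0, Polynomial.coeff_zero]
    rw [hN, Polynomial.coeff_iterate_derivative, show 1 + (m - 1) = P.natDegree from by omega,
      Polynomial.coeff_natDegree, ← hc, nsmul_eq_mul] at h2
    rcases mul_eq_zero.1 h2 with h3 | h3
    · have h4 : P.natDegree.descFactorial (m - 1) ≠ 0 := by
        rw [Ne, Nat.descFactorial_eq_zero_iff_lt]
        omega
      exact h4 (by exact_mod_cast h3)
    · exact hc0 h3
  have hTpow : ∀ (Q : Polynomial (MvPolynomial (Fin n) K)) (i : ℕ), Th g h (Q ^ i) = Th g h Q ^ i := by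
    intro Q i
    rw [Th, Th, Polynomial.map_pow, Polynomial.pow_comp]
  have hCc : Polynomial.C c ≠ 0 := Polynomial.C_ne_zero.2 hc0
  by_cases hI : ∀ l : K, N ^ m ≠ Polynomial.C (C l) * (P * Polynomial.C (c ^ (m - 1)))
  · left
    refine L1_inv g h (N ^ m) (P * Polynomial.C (c ^ (m - 1))) ?_ hI ?_
    · exact mul_ne_zero hP (Polynomial.C_ne_zero.2 (pow_ne_zero _ hc0))
    · apply mul_left_cancel₀ (pow_ne_zero m hCc)
      rw [hTpow, Th_mul, Th_C]
      obtain ⟨m', rfl⟩ : ∃ m', m = m' + 1 := ⟨m - 1, by omega⟩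
      rw [Nat.add_sub_cancel]
      calc Polynomial.C c ^ (m' + 1) * (Th g h N ^ (m' + 1) * (P * Polynomial.C (c ^ m')))
          = (Polynomial.C c * Th g h N) ^ (m' + 1) * (P * Polynomial.C (c ^ m')) := by
            rw [mul_pow]
            ring
        _ = (Polynomial.C (a * bind₁ g c) * N) ^ (m' + 1) * (P * Polynomial.C (c ^ m')) := by
            rw [hC]
        _ = N ^ (m' + 1) * ((Polynomial.C (a ^ (m' + 1) * bind₁ g c) * P) *
              (Polynomial.C (bind₁ g c) ^ m' * Polynomial.C c ^ m')) := by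
            simp only [map_mul, map_pow]
            ring
        _ = N ^ (m' + 1) * ((Polynomial.C c * Th g h P) *
              (Polynomial.C (bind₁ g c) ^ m' * Polynomial.C c ^ m')) := by
            rw [hA]
        _ = _ := by
            simp only [map_pow]
            ring
  · right
    push Not at hI
    obtain ⟨l, hl⟩ := hI
    have hNt : ∀ t, L1_EV g h x y t N = 0 := by
      intro t
      have h2 := congrArg (L1_EV g h x y t) hl
      rw [map_pow, map_mul, map_mul, hPt, zero_mul, mul_zero] at h2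
      exact pow_eq_zero_iff (by omega) |>.1 h2
    have hm' := hmin N hN0 hNt
    have hm1' : m = 1 := by omega
    refine ⟨P, by omega, hPt, ?_⟩
    rw [← hc, hA, hm1', pow_one]

end L1aux

theorem L1 {K : Type*} [Field K] [CharZero K] {n : ℕ} (g : Fin n → MvPolynomial (Fin n) K)
    (a b : MvPolynomial (Fin n) K) (x : Fin n → K) (hx : Dense g x)
    (ha : ∀ t : ℕ, eval ((act g)^[t] x) a ≠ 0) (y1 y2 : K) (hy : y1 ≠ y2)
    (h1 : ¬ Dense (Step g (Polynomial.C a * Polynomial.X + Polynomial.C b))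
      (Fin.cons y1 x : Fin (n + 1) → K))
    (h2 : ¬ Dense (Step g (Polynomial.C a * Polynomial.X + Polynomial.C b))
      (Fin.cons y2 x : Fin (n + 1) → K)) :
    Inv (Step g (Polynomial.C a * Polynomial.X + Polynomial.C b)) := by
  have ha0 : a ≠ 0 := by
    rintro rfl
    exact ha 0 (map_zero _)
  rcases L1_one g a b x hx ha0 y1 h1 with hI | ⟨P1, hd1, ht1, hA1⟩
  · exact hI
  rcases L1_one g a b x hx ha0 y2 h2 with hI | ⟨P2, hd2, ht2, hA2⟩
  · exact hI
  obtain ⟨h, hh⟩ : ∃ h, h = Polynomial.C a * Polynomial.X + Polynomial.C b := ⟨_, rfl⟩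
  rw [← hh] at ht1 hA1 ht2 hA2 ⊢
  obtain ⟨c1, hc1⟩ : ∃ c, c = P1.leadingCoeff := ⟨_, rfl⟩
  obtain ⟨c2, hc2⟩ : ∃ c, c = P2.leadingCoeff := ⟨_, rfl⟩
  rw [← hc1] at hA1
  rw [← hc2] at hA2
  have hP1 : P1 ≠ 0 := by
    rintro rfl
    rw [Polynomial.natDegree_zero] at hd1
    omega
  have hP2 : P2 ≠ 0 := by
    rintro rfl
    rw [Polynomial.natDegree_zero] at hd2
    omega
  have hc1' : c1 ≠ 0 := by
    rw [hc1]
    exact Polynomial.leadingCoeff_ne_zero.2 hP1
  have hc2' : c2 ≠ 0 := by
    rw [hc2]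
    exact Polynomial.leadingCoeff_ne_zero.2 hP2
  by_cases hI : ∀ l : K, P1 * Polynomial.C c2 ≠ Polynomial.C (C l) * (P2 * Polynomial.C c1)
  · refine L1_inv g h (P1 * Polynomial.C c2) (P2 * Polynomial.C c1)
      (mul_ne_zero hP2 (Polynomial.C_ne_zero.2 hc1')) hI ?_
    apply mul_left_cancel₀ (mul_ne_zero (Polynomial.C_ne_zero.2 hc1')
      (Polynomial.C_ne_zero.2 hc2'))
    rw [Th_mul, Th_mul, Th_C, Th_C]
    calc Polynomial.C c1 * Polynomial.C c2 * (Th g h P1 * Polynomial.C (bind₁ g c2) *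
          (P2 * Polynomial.C c1))
        = (Polynomial.C c1 * Th g h P1) * (Polynomial.C c2 * Polynomial.C (bind₁ g c2) * P2 *
            Polynomial.C c1) := by ring
      _ = (Polynomial.C c2 * Th g h P2) * (Polynomial.C (bind₁ g c1) * P1 * Polynomial.C c2 *
            Polynomial.C c1) := by
          rw [hA1, hA2]
          simp only [map_mul]
          ring
      _ = _ := by ring
  · exfalso
    push Not at hI
    obtain ⟨l, hl⟩ := hI
    have h3 := congrArg (fun Q => Polynomial.coeff Q 1) hl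
    simp only [Polynomial.coeff_mul_C, Polynomial.coeff_C_mul] at h3
    have e1 : P1.coeff 1 = c1 := by
      rw [hc1, Polynomial.leadingCoeff, hd1]
    have e2 : P2.coeff 1 = c2 := by
      rw [hc2, Polynomial.leadingCoeff, hd2]
    rw [e1, e2, mul_comm c2 c1] at h3
    have h4 : (C l : MvPolynomial (Fin n) K) = 1 := by
      have h5 : (1 : MvPolynomial (Fin n) K) * (c1 * c2) = C l * (c1 * c2) := by
        rw [one_mul]
        exact h3
      exact (mul_right_cancel₀ (mul_ne_zero hc1' hc2') h5).symm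
    rw [h4, map_one, one_mul] at hl
    obtain ⟨t, ht⟩ := hx (c1 * c2) (mul_ne_zero hc1' hc2')
    have hU : ∀ y, L1_EV g h x y t (P1 * Polynomial.C c2) =
        eval ((act g)^[t] x) (c1 * c2) * fib g h x y t +
          eval ((act g)^[t] x) (P1.coeff 0 * c2) := by
      intro y
      have h6 : P1 = Polynomial.C c1 * Polynomial.X + Polynomial.C (P1.coeff 0) := by
        conv_lhs => rw [Polynomial.eq_X_add_C_of_natDegree_le_one hd1.le]
        rw [e1]
      rw [L1_EV_apply]
      conv_lhs => rw [h6]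
      simp only [Polynomial.map_add, Polynomial.map_mul, Polynomial.map_C, Polynomial.map_X,
        Polynomial.eval_add, Polynomial.eval_mul, Polynomial.eval_C, Polynomial.eval_X, map_mul]
      ring
    have hz1 : L1_EV g h x y1 t (P1 * Polynomial.C c2) = 0 := by
      rw [map_mul, ht1, zero_mul]
    have hz2 : L1_EV g h x y2 t (P1 * Polynomial.C c2) = 0 := by
      rw [hl, map_mul, ht2, zero_mul]
    rw [hU] at hz1 hz2
    have hne : ∀ s, fib g h x y1 s ≠ fib g h x y2 s := by
      intro s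
      induction s with
      | zero => exact hy
      | succ s ih =>
        intro he
        apply ih
        simp only [fib, hh, Polynomial.map_add, Polynomial.map_mul, Polynomial.map_C,
          Polynomial.map_X, Polynomial.eval_add, Polynomial.eval_mul, Polynomial.eval_C,
          Polynomial.eval_X] at he
        have h7 := add_right_cancel he
        rw [hh]
        exact mul_left_cancel₀ (ha s) h7
    apply hne t
    have h8 : eval ((act g)^[t] x) (c1 * c2) * fib g h x y1 t =
        eval ((act g)^[t] x) (c1 * c2) * fib g h x y2 t := by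
      linear_combination hz1 - hz2
    exact mul_left_cancel₀ ht h8

end H42.ZD
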