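import Mathlib

/-!
# MP_dd25b9 (Zariski dense orbits), project ZD: places

A `Plc K` is a good reduction `ψ : Λ → k` from a subring `Λ` of `K` onto an algebraically closed,
locally finite field `k` of characteristic `p`.
-/

namespace H42.ZD

universe u

/-- A place of `K`: a prime `p`, an algebraically closed field `k` of characteristic `p` in which
every element satisfies some equation `y ^ (p ^ r) = y` (so `k` is an algebraic closure of `F_p`),
a subring `Λ ⊆ K` with a surjection `ψ : Λ → k`, such that `Λ` contains the algebraic integers of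
`K` and the inverses of the integers prime to `p`, and every element of `K` is a fraction with
numerator and denominator in `Λ`. -/
structure Plc (K : Type u) [Field K] where
  p : ℕ
  k : Type u
  [fld : Field k]
  [ac : IsAlgClosed k]
  [cp : CharP k p]
  hp : p.Prime
  lf : ∀ y : k, ∃ r : ℕ, 0 < r ∧ y ^ (p ^ r) = y
  Λ : Subring K
  ψ : Λ →+* k
  surj : Function.Surjective ψ
  int : ∀ x : K, IsIntegral ℤ x → x ∈ Λ
  inv : ∀ s : ℕ, ¬ p ∣ s → ((s : K))⁻¹ ∈ Λ
  fr : ∀ x : K, ∃ s ∈ Λ, s ≠ 0 ∧ s * x ∈ Λ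

attribute [instance] Plc.fld Plc.ac Plc.cp

/-- `x ∈ K` is integral at `v` and reduces to `ρ`. -/
def Red {K : Type u} [Field K] (v : Plc K) (x : K) (ρ : v.k) : Prop :=
  ∃ h : x ∈ v.Λ, v.ψ ⟨x, h⟩ = ρ

theorem Red.natCast {K : Type u} [Field K] (v : Plc K) (m : ℕ) : Red v (m : K) (m : v.k) :=
  ⟨natCast_mem _ m, by
    have : (⟨(m : K), natCast_mem v.Λ m⟩ : v.Λ) = (m : v.Λ) := by ext; simp
    rw [this, map_natCast]⟩

theorem Red.add {K : Type u} [Field K] {v : Plc K} {x y : K} {a b : v.k}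
    (hx : Red v x a) (hy : Red v y b) : Red v (x + y) (a + b) := by
  obtain ⟨h1, rfl⟩ := hx
  obtain ⟨h2, rfl⟩ := hy
  exact ⟨v.Λ.add_mem h1 h2, by rw [← map_add]; rfl⟩

theorem Red.mul {K : Type u} [Field K] {v : Plc K} {x y : K} {a b : v.k}
    (hx : Red v x a) (hy : Red v y b) : Red v (x * y) (a * b) := by
  obtain ⟨h1, rfl⟩ := hx
  obtain ⟨h2, rfl⟩ := hy
  exact ⟨v.Λ.mul_mem h1 h2, by rw [← map_mul]; rfl⟩

theorem Red.unique {K : Type u} [Field K] {v : Plc K} {x : K} {a b : v.k}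
    (hx : Red v x a) (hy : Red v x b) : a = b := by
  obtain ⟨h1, rfl⟩ := hx
  obtain ⟨h2, rfl⟩ := hy
  rfl

end H42.ZD
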