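import Pool.Agent.H42.ZD.Df
import Pool.Agent.H42.ZD.Pl
import Pool.Agent.H42.ZD.GR

/-!
# ZD row L2: growth lemma over a place

`w : Plc K`, prime `p = w.p`. `gL`, `hL` are the base map and the fibre polynomial with coefficients
in `w.Λ`; over `K` they are `gK = fun i => map w.Λ.subtype (gL i)` and
`hK = hL.map (map w.Λ.subtype)`, over `w.k` they are `fun i => map w.ψ (gL i)` etc.
`x : Fin n → w.Λ` has a dense orbit over `K`, and its reduction is periodic, with
`lead(hL) * ∏ ∂_i g_i` non-zero along the cycle. Then for `z ∈ Λ` with `ψ z ≠ 0`, the point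
`(z / p, x)` has a dense orbit under `Step gK hK`.

PROOF. By `dense_step` we have to show: if `P : Polynomial (MvPolynomial (Fin n) K)` and
`(P.map (eval (x_t))).eval (fib … t) = 0` for all `t` (`x_t = (act gK)^[t] x`), then `P = 0`.
Suppose `P ≠ 0`. `P` has finitely many coefficients `a ∈ K`; by `w.fr` (finitely many times, take
products of the `s`) there is `s ∈ w.Λ`, `s ≠ 0`, with `s * a ∈ w.Λ` for all of them; replacing `P` by
`s P` we may assume `P = PL.map (map w.Λ.subtype)` with `PL : Polynomial (MvPolynomial (Fin n) w.Λ)`,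
`PL ≠ 0`.

Let `S0 ⊆ w.Λ` be the subring (`Algebra.adjoin ℤ`) generated by the finite set of all coefficients
of the `gL i`, of (the coefficients of) `hL` and `PL`, the `x i`, and `z`. `S0` is a finitely
generated `ℤ`-algebra, so noetherian, and it is a domain. Everything lifts to `S0`:
`gS : Fin n → MvPolynomial (Fin n) S0` with `map S0.subtype (gS i) = gL i`
(`MvPolynomial.mem_range_map_iff_coeffs_subset` or similar; or build it by `Finsupp`/sum over the
support), `hS`, `PS`, `xS`, `zS`. The support/`vars`/`natDegree`/`leadingCoeff` are preserved since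
the maps `S0 → w.Λ → K` are injective (`MvPolynomial.map_injective`,
`Polynomial.natDegree_map_eq_of_injective`, `Polynomial.leadingCoeff_map_of_injective`).
Let `I = RingHom.ker (w.ψ.comp S0.subtype) ⊆ S0` (`Ideal.comap`). `S0 ⧸ I` is isomorphic to the
range of `w.ψ.comp S0.subtype` in `w.k`, a ring generated by finitely many elements
`y_1, …, y_m` of `w.k`; by `w.lf` there is `r > 0` with `y_i^(p^r) = y_i` for all `i` (product of the
individual exponents), so the range is contained in the finite set `{y | y^(p^r) = y}`, which is a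
subring (char `p`); so `S0 ⧸ I` is a finite domain, hence a field and `I` is maximal.
`π = p ∈ I` since `w.k` has characteristic `p`.

Apply `GR` with `S = S0`, `Algebra S0 K` (injective), `g = gS`, `h = hS`, `x = xS`, `z = zS`,
`Y t = fib gK hK x (z / p) t`, `P = PS`. The hypotheses: orbits commute with the ring homs
(`φ (act g x i) = act (map φ ∘ g) (φ ∘ x) i` for a ring hom `φ`, by `MvPolynomial.map_eval` /
`eval₂_comp`; iterate), so
`w.ψ ((act gS)^[t] xS i) = (act (fun i => map w.ψ (gL i)))^[t] (w.ψ ∘ x) i`, which gives `hper` from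
the periodicity of the reduction, and `hun`, `hc` from `hH` (`eval` of a product and
`map w.ψ (pderiv i q) = pderiv i (map w.ψ q)`; `MvPolynomial.pderiv_map`).
`hY`, `hP` are the definitions of `fib` and the assumption on `P`, rewritten with `eval₂`/`map`.
Conclusion: `eval (xS_t) PS.leadingCoeff = 0` for all `t`, so over `K` the polynomial
`P.leadingCoeff ≠ 0` vanishes on the orbit of `x`, contradicting the density `hx`.
-/

open MvPolynomial

namespace H42.ZD

/-! ### Generalities -/

section gen

variable {R R' : Type*} [CommRing R] [CommRing R'] {n : ℕ}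

private theorem L2_eval (φ : R →+* R') (x : Fin n → R) (q : MvPolynomial (Fin n) R) :
    φ (eval x q) = eval (fun i => φ (x i)) (map φ q) := by
  rw [eval_map, ← eval₂_id, eval₂_comp_left, RingHom.comp_id]
  rfl

private theorem L2_iter (φ : R →+* R') (f : Fin n → MvPolynomial (Fin n) R) (x : Fin n → R)
    (t : ℕ) : (fun i => φ ((act f)^[t] x i)) = (act fun i => map φ (f i))^[t] (fun i => φ (x i)) := by
  induction t with
  | zero => rfl
  | succ t ih =>
    have h1 : (act fun i => map φ (f i))^[t + 1] (fun i => φ (x i)) =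
        (act fun i => map φ (f i)) (fun i => φ ((act f)^[t] x i)) := by
      rw [ih, Function.iterate_succ_apply']
    rw [h1]
    funext i
    rw [Function.iterate_succ_apply']
    exact L2_eval φ _ _

private theorem L2_lift1 (φ : R →+* R') (q : MvPolynomial (Fin n) R')
    (h : ∀ c ∈ q.coeffs, c ∈ Set.range φ) : ∃ q' : MvPolynomial (Fin n) R, map φ q' = q := by
  have h1 : q ∈ Set.range (MvPolynomial.map (σ := Fin n) φ) :=
    mem_range_map_iff_coeffs_subset.2 fun c hc => h c hc
  exact h1

private theorem L2_lift2 (φ : R →+* R') (P : Polynomial (MvPolynomial (Fin n) R'))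
    (h : ∀ i ∈ P.support, ∀ c ∈ (P.coeff i).coeffs, c ∈ Set.range φ) :
    ∃ P' : Polynomial (MvPolynomial (Fin n) R), P'.map (map φ) = P := by
  have h1 : P ∈ Polynomial.lifts (map (σ := Fin n) φ) := by
    rw [Polynomial.lifts_iff_coeff_lifts]
    intro i
    by_cases hi : i ∈ P.support
    · exact L2_lift1 φ _ (h i hi)
    · rw [Polynomial.notMem_support_iff] at hi
      rw [hi]
      exact ⟨0, map_zero _⟩
  exact (Polynomial.mem_lifts P).1 h1

private theorem L2_fib (φ : R →+* R') (g : Fin n → MvPolynomial (Fin n) R)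
    (x : Fin n → R) (t : ℕ) :
    ((eval ((act fun i => map φ (g i))^[t] (fun i => φ (x i)))).comp (map φ) :
      MvPolynomial (Fin n) R →+* R') = φ.comp (eval ((act g)^[t] x)) := by
  rw [← L2_iter]
  refine RingHom.ext fun q => ?_
  exact (L2_eval φ _ q).symm

end gen

universe u

private theorem L2_den {K : Type u} [Field K] (w : Plc K) (T : Finset K) :
    ∃ s ∈ w.Λ, s ≠ 0 ∧ ∀ a ∈ T, s * a ∈ w.Λ := by
  classical
  induction T using Finset.induction_on with
  | empty => exact ⟨1, w.Λ.one_mem, one_ne_zero, fun a ha => absurd ha (Finset.notMem_empty a)⟩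
  | insert b T _ ih =>
    obtain ⟨s, hs, hs0, h⟩ := ih
    obtain ⟨s', hs', hs0', h'⟩ := w.fr b
    refine ⟨s * s', w.Λ.mul_mem hs hs', mul_ne_zero hs0 hs0', fun a ha => ?_⟩
    rcases Finset.mem_insert.1 ha with rfl | ha
    · rw [mul_assoc]
      exact w.Λ.mul_mem hs h'
    · rw [mul_right_comm]
      exact w.Λ.mul_mem (h a ha) hs'

private theorem L2_clear {K : Type u} [Field K] (w : Plc K) {n : ℕ}
    (P : Polynomial (MvPolynomial (Fin n) K)) :
    ∃ s : K, s ≠ 0 ∧ ∃ PL : Polynomial (MvPolynomial (Fin n) w.Λ),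
      PL.map (map w.Λ.subtype) = Polynomial.C (C s) * P := by
  classical
  obtain ⟨s, hs, hs0, h⟩ := L2_den w (P.support.biUnion fun i => (P.coeff i).coeffs)
  refine ⟨s, hs0, L2_lift2 w.Λ.subtype _ fun i _ c hc => ?_⟩
  rw [Polynomial.coeff_C_mul] at hc
  obtain ⟨m, hm, rfl⟩ := mem_coeffs_iff.1 hc
  rw [coeff_C_mul]
  by_cases h0 : coeff m (P.coeff i) = 0
  · rw [h0, mul_zero]
    exact ⟨0, map_zero _⟩
  · have h1 : coeff m (P.coeff i) ∈ (P.coeff i).coeffs := coeff_mem_coeffs m h0
    have h2 : i ∈ P.support := by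
      rw [Polynomial.mem_support_iff]
      intro h3
      rw [h3, coeff_zero] at h0
      exact h0 rfl
    exact ⟨⟨_, h _ (Finset.mem_biUnion.2 ⟨i, h2, h1⟩)⟩, rfl⟩

/-- finite residue rings -/
private theorem L2_fin {K : Type u} [Field K] (w : Plc K) (T : Finset w.Λ) :
    (RingHom.ker (w.ψ.comp (Subring.closure (T : Set w.Λ)).subtype)).IsMaximal ∧
      Finite (Subring.closure (T : Set w.Λ) ⧸
        RingHom.ker (w.ψ.comp (Subring.closure (T : Set w.Λ)).subtype)) := by
  classical
  have : Fact w.p.Prime := ⟨w.hp⟩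
  have : CharP w.k w.p := w.cp
  have : ExpChar w.k w.p := ExpChar.prime w.hp
  choose r hr0 hr using w.lf
  obtain ⟨e, he⟩ : ∃ e : ℕ, e = ∏ a ∈ T, r (w.ψ a) := ⟨_, rfl⟩
  have he0 : 0 < e := by
    rw [he]
    exact Finset.prod_pos fun a _ => hr0 _
  have hpow : ∀ (y : w.k) (a k : ℕ), y ^ (w.p ^ a) = y → y ^ (w.p ^ (a * k)) = y := by
    intro y a k h
    induction k with
    | zero => rw [mul_zero, pow_zero, pow_one]
    | succ k ih => rw [mul_add, mul_one, pow_add, pow_mul, ih, h]
  have hT : ∀ a ∈ T, w.ψ a ^ (w.p ^ e) = w.ψ a := by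
    intro a ha
    have h1 : e = r (w.ψ a) * ∏ b ∈ T.erase a, r (w.ψ b) := by
      rw [he, Finset.mul_prod_erase T (fun b => r (w.ψ b)) ha]
    rw [h1]
    exact hpow _ _ _ (hr _)
  have hS : ∀ a : Subring.closure (T : Set w.Λ), w.ψ (a : w.Λ) ^ (w.p ^ e) = w.ψ (a : w.Λ) := by
    have h1 : Subring.closure (T : Set w.Λ) ≤
        RingHom.eqLocus ((iterateFrobenius w.k w.p e).comp w.ψ) w.ψ := by
      rw [Subring.closure_le]
      intro a ha
      exact hT a ha
    intro a
    exact h1 a.2
  have hfin : Finite {y : w.k // y ^ (w.p ^ e) = y} := by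
    have h1 : (Polynomial.X ^ (w.p ^ e) - Polynomial.X : Polynomial w.k) ≠ 0 :=
      FiniteField.X_pow_card_pow_sub_X_ne_zero w.k he0.ne' w.hp.one_lt
    refine Set.Finite.subset (Polynomial.finite_setOfPred_isRoot h1) fun y hy => ?_
    change Polynomial.IsRoot _ y
    rw [Polynomial.IsRoot.def, Polynomial.eval_sub, Polynomial.eval_pow, Polynomial.eval_X,
      sub_eq_zero]
    exact hy
  have hq : Finite (Subring.closure (T : Set w.Λ) ⧸
      RingHom.ker (w.ψ.comp (Subring.closure (T : Set w.Λ)).subtype)) := by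
    refine Finite.of_injective (β := {y : w.k // y ^ (w.p ^ e) = y}) (fun a =>
      ⟨RingHom.kerLift (w.ψ.comp (Subring.closure (T : Set w.Λ)).subtype) a, ?_⟩) ?_
    · obtain ⟨b, rfl⟩ := Ideal.Quotient.mk_surjective a
      exact hS b
    · intro a b hab
      exact RingHom.kerLift_injective _ (Subtype.ext_iff.1 hab)
  refine ⟨?_, hq⟩
  have hprime := RingHom.ker_isPrime (w.ψ.comp (Subring.closure (T : Set w.Λ)).subtype)
  exact Ideal.Quotient.maximal_of_isField _ (Finite.isDomain_to_isField _)

theorem L2 {K : Type u} [Field K] [CharZero K] (w : Plc K) {n : ℕ}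
    (gL : Fin n → MvPolynomial (Fin n) w.Λ) (hg : ∀ i, ∀ j ∈ (gL i).vars, i ≤ j)
    (hL : Polynomial (MvPolynomial (Fin n) w.Λ)) (hd : 2 ≤ hL.natDegree) (x : Fin n → w.Λ)
    (hx : Dense (fun i => map w.Λ.subtype (gL i)) (fun i => (x i : K)))
    (N0 : ℕ) (hN0 : 0 < N0)
    (hper : (act fun i => map w.ψ (gL i))^[N0] (fun i => w.ψ (x i)) = fun i => w.ψ (x i))
    (hH : ∀ t : ℕ, eval ((act fun i => map w.ψ (gL i))^[t] (fun i => w.ψ (x i)))
      (map w.ψ hL.leadingCoeff * ∏ i, pderiv i (map w.ψ (gL i))) ≠ 0)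
    (z : w.Λ) (hz : w.ψ z ≠ 0) :
    Dense (Step (fun i => map w.Λ.subtype (gL i)) (hL.map (map w.Λ.subtype)))
      (Fin.cons ((z : K) / (w.p : K)) (fun i => (x i : K)) : Fin (n + 1) → K) := by
  classical
  rw [dense_step]
  intro P hP
  by_contra hcon
  push Not at hcon
  obtain ⟨s, hs0, PL, hPL⟩ := L2_clear w P
  -- the finite set
  obtain ⟨T, hT⟩ : ∃ T : Finset w.Λ, T = (Finset.univ.biUnion fun i => (gL i).coeffs) ∪
      ((hL.support.biUnion fun i => (hL.coeff i).coeffs) ∪
        ((PL.support.biUnion fun i => (PL.coeff i).coeffs) ∪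
          (Finset.univ.image x ∪ {z}))) := ⟨_, rfl⟩
  obtain ⟨hmax, hfin⟩ := L2_fin w T
  have hnoeth : IsNoetherianRing (Subring.closure (T : Set w.Λ)) :=
    is_noetherian_subring_closure _ T.finite_toSet
  have hsub : ∀ a ∈ T, a ∈ Set.range (Subring.closure (T : Set w.Λ)).subtype := fun a ha =>
    ⟨⟨a, Subring.subset_closure ha⟩, rfl⟩
  have hgS : ∀ i, ∃ q : MvPolynomial (Fin n) (Subring.closure (T : Set w.Λ)),
      map (Subring.closure (T : Set w.Λ)).subtype q = gL i := fun i =>
    L2_lift1 _ _ fun c hc => hsub c (by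
      rw [hT]
      exact Finset.mem_union_left _ (Finset.mem_biUnion.2 ⟨i, Finset.mem_univ _, hc⟩))
  choose gS hgS using hgS
  obtain ⟨hS, hhS⟩ := L2_lift2 (Subring.closure (T : Set w.Λ)).subtype hL fun i hi c hc =>
    hsub c (by
      rw [hT]
      exact Finset.mem_union_right _ (Finset.mem_union_left _ (Finset.mem_biUnion.2 ⟨i, hi, hc⟩)))
  obtain ⟨PS, hPS⟩ := L2_lift2 (Subring.closure (T : Set w.Λ)).subtype PL fun i hi c hc =>
    hsub c (by
      rw [hT]
      exact Finset.mem_union_right _ (Finset.mem_union_right _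
        (Finset.mem_union_left _ (Finset.mem_biUnion.2 ⟨i, hi, hc⟩))))
  have hxS : ∀ i, ∃ a : Subring.closure (T : Set w.Λ), (a : w.Λ) = x i := fun i =>
    hsub (x i) (by
      rw [hT]
      exact Finset.mem_union_right _ (Finset.mem_union_right _ (Finset.mem_union_right _
        (Finset.mem_union_left _ (Finset.mem_image_of_mem x (Finset.mem_univ i))))))
  choose xS hxS using hxS
  obtain ⟨zS, hzS⟩ : ∃ a : Subring.closure (T : Set w.Λ), (a : w.Λ) = z :=
    hsub z (by
      rw [hT]
      exact Finset.mem_union_right _ (Finset.mem_union_right _ (Finset.mem_union_right _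
        (Finset.mem_union_right _ (Finset.mem_singleton_self z)))))
  -- the ring homomorphisms
  generalize hS0 : Subring.closure (T : Set w.Λ) = S0 at *
  obtain ⟨φ, hφ⟩ : ∃ φ : S0 →+* K, φ = w.Λ.subtype.comp S0.subtype := ⟨_, rfl⟩
  obtain ⟨ρ, hρ⟩ : ∃ ρ : S0 →+* w.k, ρ = w.ψ.comp S0.subtype := ⟨_, rfl⟩
  have hinj : Function.Injective φ := by
    rw [hφ]
    exact Subtype.val_injective.comp Subtype.val_injective
  have hinj1 : Function.Injective S0.subtype := Subtype.val_injective
  have hgK : (fun i => map w.Λ.subtype (gL i)) = fun i => map φ (gS i) := by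
    funext i
    rw [← hgS i, map_map, hφ]
  have hgk : (fun i => map w.ψ (gL i)) = fun i => map ρ (gS i) := by
    funext i
    rw [← hgS i, map_map, hρ]
  have hxK : (fun i => ((x i : w.Λ) : K)) = fun i => φ (xS i) := by
    funext i
    rw [← hxS i, hφ]
    rfl
  have hxk : (fun i => w.ψ (x i)) = fun i => ρ (xS i) := by
    funext i
    rw [← hxS i, hρ]
    rfl
  have hmm : ((map w.Λ.subtype : MvPolynomial (Fin n) w.Λ →+* _).comp (map S0.subtype)) =
      (map φ : MvPolynomial (Fin n) S0 →+* _) := by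
    refine RingHom.ext fun q => ?_
    rw [RingHom.comp_apply, map_map, hφ]
  have hhK : hL.map (map w.Λ.subtype) = hS.map (map φ) := by
    rw [← hhS, Polynomial.map_map, hmm]
  have hPK : Polynomial.C (C s) * P = PS.map (map φ) := by
    rw [← hPL, ← hPS, Polynomial.map_map, hmm]
  have hinjm : Function.Injective (map φ : MvPolynomial (Fin n) S0 →+* _) :=
    map_injective φ hinj
  have hinjm1 : Function.Injective (map S0.subtype : MvPolynomial (Fin n) S0 →+* _) :=
    map_injective _ hinj1
  have hPS0 : PS ≠ 0 := by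
    rintro rfl
    rw [Polynomial.map_zero] at hPK
    rcases mul_eq_zero.1 hPK with h0 | h0
    · rw [Polynomial.C_eq_zero, C_eq_zero] at h0
      exact hs0 h0
    · exact hP h0
  rw [hgk, hxk] at hper hH
  rw [hgK, hxK] at hx hcon
  rw [hhK] at hcon
  rw [← hρ] at hmax hfin
  let _ : Algebra S0 K := φ.toAlgebra
  have halg : algebraMap S0 K = φ := rfl
  have hp0 : (w.p : K) ≠ 0 := Nat.cast_ne_zero.2 w.hp.ne_zero
  have key := fun t => GR (S := S0) (K := K) hinj (RingHom.ker ρ) (w.p : S0)
    (by
      rw [RingHom.mem_ker, map_natCast]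
      exact CharP.cast_eq_zero w.k w.p) gS
    (by
      intro i j hj
      refine hg i j ?_
      rw [← hgS i, vars_map_of_injective _ hinj1]
      exact hj) hS
    (by
      rw [← hhS, Polynomial.natDegree_map_eq_of_injective hinjm1] at hd
      exact hd) xS N0 hN0
    (by
      intro i
      rw [RingHom.mem_ker, map_sub, sub_eq_zero]
      rw [← L2_iter] at hper
      exact congrFun hper i)
    (by
      intro t i h0
      rw [RingHom.mem_ker, L2_eval, L2_iter, ← pderiv_map] at h0
      refine hH t ?_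
      rw [map_mul]
      refine mul_eq_zero_of_right _ ?_
      rw [map_prod]
      exact Finset.prod_eq_zero (Finset.mem_univ i) (by
        have := congrFun hgk i
        beta_reduce at this
        rw [this]
        exact h0))
    (by
      intro t h0
      rw [RingHom.mem_ker, L2_eval, L2_iter] at h0
      refine hH t ?_
      rw [map_mul]
      refine mul_eq_zero_of_left ?_ _
      rw [← hhS, Polynomial.leadingCoeff_map_of_injective hinjm1, map_map, ← hρ]
      exact h0) zS
    (by
      intro h0
      rw [RingHom.mem_ker, hρ] at h0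
      apply hz
      rw [← hzS]
      exact h0)
    (fib (fun i => map φ (gS i)) (hS.map (map φ)) (fun i => φ (xS i)) ((z : K) / (w.p : K)))
    (by
      rw [halg, map_natCast, hφ]
      change (w.p : K) * ((z : K) / (w.p : K)) = _
      rw [mul_div_cancel₀ _ hp0, ← hzS]
      rfl)
    (by
      intro t
      rw [halg, ← L2_fib, ← Polynomial.eval₂_map]
      change ((hS.map (map φ)).map _).eval _ = _
      rw [Polynomial.eval_map]) PS
    (by
      intro t
      have h1 := hcon t
      rw [halg, ← L2_fib, ← Polynomial.eval₂_map, ← hPK, ← Polynomial.eval_map,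
        Polynomial.map_mul, Polynomial.eval_mul, h1, mul_zero]) t
  have hlc : map φ PS.leadingCoeff ≠ 0 := by
    intro h0
    rw [← map_zero (map φ : MvPolynomial (Fin n) S0 →+* _)] at h0
    exact hPS0 (Polynomial.leadingCoeff_eq_zero.1 (hinjm h0))
  obtain ⟨t, ht⟩ := hx _ hlc
  apply ht
  rw [← L2_iter, ← L2_eval, key t, map_zero]

end H42.ZD
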