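import Pool.Agent.H42.ZD.Df

/-!
# ZD row RL: recurrence of orbits modulo powers of an ideal

PROOF. Write `F = act f : S^n → S^n`, `x_t = F^[t] x`. For an ideal `J` write `u ≡ v mod J` for
`∀ i, u i - v i ∈ J`. Polynomial maps preserve congruences: `u ≡ v mod J → F u ≡ F v mod J`
(push forward along `Ideal.Quotient.mk J`: `eval` commutes with ring homs,
`MvPolynomial.eval₂_comp_left`/`MvPolynomial.map_eval`).

(0) By `hper` and this remark, `x_{t+N0} ≡ x_t mod I` for all `t`. In particular
`eval (x_t) (pderiv i (f i))` is a unit modulo `I` for all `t`, `i` (`I` maximal).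

(1) KEY CLAIM (injectivity). Let `k ≥ 1`, `J = I^k`. Let `z, z' ∈ S^n` and suppose
`z ≡ x_s mod I`, `z' ≡ z mod I` and `F z ≡ F z' mod J`. Then `z ≡ z' mod J`.
Proof: show `z i - z' i ∈ J` by strong induction from the largest index `i` downwards. Suppose
`z j - z' j ∈ J` for all `j > i`. `f i` only involves the `X_j`, `j ≥ i`. Modulo `J`, replacing
the coordinates `j > i` of `z'` by those of `z` does not change `f_i(z')`, and coordinates `j < i`
do not matter (`MvPolynomial.eval₂Hom_congr'` / `eval` depends only on `vars`), so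
`f_i(z) ≡ f_i(z'') mod J` where `z'' = Function.update z i (z' i)`. One-variable Taylor expansion
in the `i`-th coordinate: with `δ = z' i - z i ∈ I`,
`f_i(z'') - f_i(z) = δ * (∂_i f_i (z) + δ * c)` for some `c ∈ S`
(view `f_i` evaluated at `Function.update (C ∘ z) i X` as a polynomial in one variable and use
`Polynomial.evalSubFactor`-type lemmas or
`Polynomial.binomExpansion : f.eval (x+y) = f.eval x + f.derivative.eval x * y + k * y^2`;
the derivative of `aeval (Function.update (C ∘ z) i X) f_i` is `aeval … (pderiv i f_i)`, by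
`MvPolynomial.induction_on`).
Now `∂_i f_i (z) ≡ ∂_i f_i (x_s) mod I` is a unit mod `I`, so `U = ∂_i f_i (z) + δ c` is a unit
mod `I`, i.e. `U ∉ I`, so there are `a ∈ S` and `e ∈ I` with `a U + e = 1`. Since
`δ U ∈ J = I^k`: `δ = a U δ + e δ`, so `δ ∈ I^k + e δ`, and iterating `k` times
`δ ∈ I^k + e^k δ ⊆ I^k` (or: `U` is a unit modulo `I^k` because it is a unit modulo `I` and
`I/I^k` is nilpotent; `Ideal.isUnit…`/`IsNilpotent.isUnit_…`). So `z' i - z i ∈ J`.

(2) Fix `k ≥ 1` (the case `k = 0` is trivial, `I^0 = ⊤`). `S ⧸ I^k` is finite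
(`Ideal.finite_quotient_pow hfg k`). So the sequence `t ↦ (x_t mod I^k, t mod N0)` takes two equal
values: there are `s < s'` with `x_s ≡ x_{s'} mod I^k` and `s ≡ s' mod N0`. Put `N = s' - s > 0`, a
multiple of `N0`. If `s ≥ 1` then `z = x_{s-1}`, `z' = x_{s-1+N}` satisfy `z ≡ z' mod I` by (0) and
`F z = x_s ≡ x_{s+N} = F z' mod I^k`, so by (1) `x_{s-1} ≡ x_{s-1+N} mod I^k`. Descending,
`x_0 ≡ x_N mod I^k`, and then applying `F^[t]`, `x_t ≡ x_{t+N} mod I^k` for all `t`.
-/

open MvPolynomial

namespace H42.ZD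

private theorem RL_congv {S : Type*} [CommRing S] {n : ℕ} (J : Ideal S) (u v : Fin n → S)
    (p : MvPolynomial (Fin n) S) (h : ∀ j ∈ p.vars, u j - v j ∈ J) :
    eval u p - eval v p ∈ J := by
  rw [← Ideal.Quotient.eq]
  have e : ∀ w : Fin n → S, Ideal.Quotient.mk J (eval w p) =
      eval₂Hom (Ideal.Quotient.mk J) (fun j => Ideal.Quotient.mk J (w j)) p := by
    intro w
    rw [MvPolynomial.coe_eval₂Hom]
    exact MvPolynomial.eval₂_comp _ _ _
  rw [e, e]
  refine MvPolynomial.eval₂Hom_congr' rfl (fun j hj _ => ?_) rfl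
  exact Ideal.Quotient.eq.2 (h j hj)

private theorem RL_act {S : Type*} [CommRing S] {n : ℕ} (J : Ideal S)
    (f : Fin n → MvPolynomial (Fin n) S) (u v : Fin n → S)
    (h : ∀ j, u j - v j ∈ J) : ∀ i, act f u i - act f v i ∈ J :=
  fun i => RL_congv J u v (f i) (fun j _ => h j)

private theorem RL_iter {S : Type*} [CommRing S] {n : ℕ} (J : Ideal S)
    (f : Fin n → MvPolynomial (Fin n) S) (u v : Fin n → S)
    (h : ∀ j, u j - v j ∈ J) (t : ℕ) : ∀ i, (act f)^[t] u i - (act f)^[t] v i ∈ J := by
  induction t with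
  | zero => simpa using h
  | succ t ih =>
    rw [Function.iterate_succ_apply', Function.iterate_succ_apply']
    exact RL_act J f _ _ ih

private theorem RL_taylor {S : Type*} [CommRing S] {n : ℕ} (z : Fin n → S) (i : Fin n) (δ : S)
    (p : MvPolynomial (Fin n) S) :
    ∃ c, eval (Function.update z i (z i + δ)) p = eval z p + δ * (eval z (pderiv i p) + δ * c) := by
  induction p using MvPolynomial.induction_on with
  | C a => exact ⟨0, by simp⟩
  | add p q hp hq =>
    obtain ⟨c, hc⟩ := hp
    obtain ⟨d, hd⟩ := hq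
    refine ⟨c + d, ?_⟩
    simp only [map_add, hc, hd]
    ring
  | mul_X p j hp =>
    obtain ⟨c, hc⟩ := hp
    by_cases hj : j = i
    · subst hj
      refine ⟨c * z j + eval z (pderiv j p) + δ * c, ?_⟩
      simp only [map_mul, hc, eval_X, Function.update_self, Derivation.leibniz, pderiv_X_self,
        smul_eq_mul, map_add, map_one]
      ring
    · refine ⟨c * z j, ?_⟩
      have h1 : pderiv i (X j : MvPolynomial (Fin n) S) = 0 := pderiv_X_of_ne hj
      simp only [map_mul, hc, eval_X, Function.update_of_ne hj, Derivation.leibniz, h1,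
        smul_eq_mul, map_add, map_zero, mul_zero, zero_add]
      ring

private theorem RL_unit {S : Type*} [CommRing S] (I : Ideal S) [I.IsMaximal] (U δ : S)
    (hU : U ∉ I) (k : ℕ) (h : δ * U ∈ I ^ k) : δ ∈ I ^ k := by
  obtain ⟨a, e, he, hae⟩ := Ideal.IsMaximal.exists_inv ‹I.IsMaximal› hU
  have key : ∀ m, m ≤ k → δ ∈ I ^ m := by
    intro m
    induction m with
    | zero => intro _; simp
    | succ m ih =>
      intro hm
      have h1 : δ = a * (δ * U) + e * δ := by
        calc δ = δ * (a * U + e) := by rw [hae, mul_one]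
          _ = a * (δ * U) + e * δ := by ring
      rw [h1]
      refine Ideal.add_mem _ ?_ ?_
      · exact Ideal.mul_mem_left _ _ (Ideal.pow_le_pow_right hm h)
      · rw [pow_succ']
        exact Ideal.mul_mem_mul he (ih (by omega))
  exact key k le_rfl

private theorem RL_key {S : Type*} [CommRing S] (I : Ideal S) [I.IsMaximal] {n : ℕ}
    (f : Fin n → MvPolynomial (Fin n) S) (hf : ∀ i, ∀ j ∈ (f i).vars, i ≤ j)
    (z z' : Fin n → S) (hz : ∀ i, z' i - z i ∈ I)
    (hu : ∀ i, eval z (pderiv i (f i)) ∉ I) (k : ℕ)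
    (hF : ∀ i, act f z' i - act f z i ∈ I ^ k) : ∀ i, z' i - z i ∈ I ^ k := by
  have main : ∀ m : ℕ, ∀ i : Fin n, n - i.val = m → z' i - z i ∈ I ^ k := by
    intro m
    induction m using Nat.strong_induction_on with
    | _ m ih =>
      intro i hi
      have hup : ∀ j : Fin n, i < j → z' j - z j ∈ I ^ k := by
        intro j hj
        have hj' : i.val < j.val := hj
        exact ih (n - j.val) (by have := j.isLt; omega) j rfl
      obtain ⟨c, hc⟩ := RL_taylor z i (z' i - z i) (f i)
      have e1 : z i + (z' i - z i) = z' i := by ring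
      rw [e1] at hc
      have h2 : eval z' (f i) - eval (Function.update z i (z' i)) (f i) ∈ I ^ k := by
        refine RL_congv _ _ _ _ (fun j hj => ?_)
        rcases eq_or_lt_of_le (hf i j hj) with h | h
        · subst h; simp
        · rw [Function.update_of_ne (ne_of_gt h)]
          exact hup j h
      have h3 : (z' i - z i) * (eval z (pderiv i (f i)) + (z' i - z i) * c) ∈ I ^ k := by
        have h4 := Ideal.sub_mem _ (hF i) h2
        have e2 : act f z' i - act f z i - (eval z' (f i) -
            eval (Function.update z i (z' i)) (f i)) =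
            (z' i - z i) * (eval z (pderiv i (f i)) + (z' i - z i) * c) := by
          simp only [act]
          rw [hc]; ring
        rwa [e2] at h4
      refine RL_unit I _ _ ?_ k h3
      intro h5
      apply hu i
      have h6 := Ideal.sub_mem _ h5 (Ideal.mul_mem_right c _ (hz i))
      simpa using h6
  exact fun i => main _ i rfl

theorem RL {S : Type*} [CommRing S] (I : Ideal S) [I.IsMaximal] (hfg : I.FG) [Finite (S ⧸ I)]
    {n : ℕ} (f : Fin n → MvPolynomial (Fin n) S) (hf : ∀ i, ∀ j ∈ (f i).vars, i ≤ j)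
    (x : Fin n → S) (N0 : ℕ) (hN0 : 0 < N0) (hper : ∀ i, (act f)^[N0] x i - x i ∈ I)
    (hun : ∀ t i, eval ((act f)^[t] x) (pderiv i (f i)) ∉ I) (k : ℕ) :
    ∃ N : ℕ, 0 < N ∧ ∀ t i, (act f)^[t + N] x i - (act f)^[t] x i ∈ I ^ k := by
  rcases Nat.eq_zero_or_pos k with hk | hk
  · subst hk
    exact ⟨1, one_pos, fun t i => by simp⟩
  have hfin : Finite (S ⧸ I ^ k) := Ideal.finite_quotient_pow hfg k
  have hper1 : ∀ t i, (act f)^[t + N0] x i - (act f)^[t] x i ∈ I := by
    intro t
    rw [Function.iterate_add_apply]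
    exact RL_iter I f _ _ hper t
  have hperm : ∀ m t i, (act f)^[t + N0 * m] x i - (act f)^[t] x i ∈ I := by
    intro m
    induction m with
    | zero => intro t i; simp
    | succ m ih =>
      intro t i
      have h1 := hper1 (t + N0 * m) i
      have h2 := ih t i
      have h3 := Ideal.add_mem _ h1 h2
      have e : t + N0 * (m + 1) = t + N0 * m + N0 := by ring
      rw [e]
      simpa using h3
  obtain ⟨s, s', hne, heq⟩ := Finite.exists_ne_map_eq_of_infinite
    (fun t : ℕ => ((fun i => Ideal.Quotient.mk (I ^ k) ((act f)^[t] x i)),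
      (⟨t % N0, Nat.mod_lt _ hN0⟩ : Fin N0)))
  wlog hss : s < s' generalizing s s'
  · exact this s' s hne.symm heq.symm (by omega)
  simp only [Prod.mk.injEq, Fin.mk.injEq] at heq
  obtain ⟨hq, hmod⟩ := heq
  have hdvd : N0 ∣ s' - s := (Nat.modEq_iff_dvd' hss.le).1 hmod
  obtain ⟨m, hm⟩ := hdvd
  refine ⟨s' - s, by omega, ?_⟩
  have hdown : ∀ r, r ≤ s → ∀ i, (act f)^[s - r + (s' - s)] x i - (act f)^[s - r] x i ∈ I ^ k := by
    intro r
    induction r with
    | zero =>
      intro _ i
      have h1 := congrFun hq i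
      have e : s - 0 + (s' - s) = s' := by omega
      rw [e, Nat.sub_zero]
      exact Ideal.Quotient.eq.1 h1.symm
    | succ r ih =>
      intro hr
      refine RL_key I f hf _ _ ?_ (fun i => hun _ i) k ?_
      · rw [hm]
        exact hperm m _
      · rw [← Function.iterate_succ_apply' (act f), ← Function.iterate_succ_apply' (act f)]
        have e1 : (s - (r + 1) + (s' - s)).succ = s - r + (s' - s) := by omega
        have e2 : (s - (r + 1)).succ = s - r := by omega
        rw [e1, e2]
        exact ih (by omega)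
  have h0 := hdown s le_rfl
  rw [Nat.sub_self, zero_add] at h0
  intro t
  rw [Function.iterate_add_apply]
  exact RL_iter _ f _ _ h0 t

end H42.ZD
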