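import Pool.Agent.H42.ZD.CL
import Pool.Agent.H42.ZD.L1
import Pool.Agent.H42.ZD.L2
import Pool.Agent.H42.ZD.GP
import Pool.Agent.H42.ZD.AP

/-!
# ZD: dense orbits with prescribed reductions for triangular maps (induction on the dimension)
-/

open MvPolynomial

namespace H42.ZD

universe u

theorem Tn_pderiv_ne_zero {K : Type*} [Field K] [CharZero K] {σ : Type*} (i : σ)
    (p : MvPolynomial σ K) (hi : i ∈ p.vars) : pderiv i p ≠ 0 := by
  classical
  obtain ⟨d, hd, hid⟩ := (mem_vars_iff_mem_support i).1 hi
  intro h0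
  have h1 := coeff_pderiv (i := i) p (d - Finsupp.single i 1)
  rw [h0, coeff_zero] at h1
  have hdi : d i ≠ 0 := Finsupp.mem_support_iff.1 hid
  have h2 : d - Finsupp.single i 1 + Finsupp.single i 1 = d := by
    apply tsub_add_cancel_of_le
    intro j
    by_cases hj : i = j
    · subst hj
      simp only [Finsupp.single_eq_same]
      omega
    · simp [hj]
  rw [h2] at h1
  have h3 : coeff d p ≠ 0 := mem_support_iff.1 hd
  have h4 : ((((d - Finsupp.single i 1 : σ →₀ ℕ) i : ℕ) : K) + 1) ≠ 0 := by
    exact Nat.cast_add_one_ne_zero _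
  exact (mul_ne_zero h3 h4) h1.symm

/-- The base of a triangular map without invariants has no invariants. -/
theorem Tn_inv_base {K : Type*} [Field K] {n : ℕ} (g : Fin n → MvPolynomial (Fin n) K)
    (h : Polynomial (MvPolynomial (Fin n) K)) (hI : Inv g) : Inv (Step g h) := by
  obtain ⟨P, Q, hQ, hc, he⟩ := hI
  have hren : ∀ p : MvPolynomial (Fin n) K,
      bind₁ (Step g h) (rename Fin.succ p) = rename Fin.succ (bind₁ g p) := by
    intro p
    apply (finSuccEquiv K n).injective
    rw [bind_step, fse_rename, Th_C, fse_rename]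
  refine ⟨rename Fin.succ P, rename Fin.succ Q, ?_, ?_, ?_⟩
  · intro h0
    apply hQ
    apply rename_injective _ (Fin.succ_injective n)
    rw [h0, map_zero]
  · intro c h0
    apply hc c
    apply rename_injective _ (Fin.succ_injective n)
    rw [h0, map_mul, rename_C]
  · rw [hren, hren, ← map_mul, ← map_mul, he]

/-- Lifting a polynomial with coefficients in a subring. -/
theorem Tn_lift {K : Type*} [Field K] {σ : Type*} (S : Subring K) (p : MvPolynomial σ K)
    (hp : ∀ c ∈ p.coeffs, c ∈ S) : ∃ q : MvPolynomial σ S, map S.subtype q = p := by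
  have : p ∈ Set.range (map S.subtype : MvPolynomial σ S → MvPolynomial σ K) := by
    rw [mem_range_map_iff_coeffs_subset]
    intro c hc
    exact ⟨⟨c, hp c hc⟩, rfl⟩
  obtain ⟨q, hq⟩ := this
  exact ⟨q, hq⟩

/-- A good place for a triangular map `Step g h`, with the cycle. -/
theorem Tn_place {K : Type u} [Field K] [CharZero K] [IsAlgClosed K] (A : Finset K)
    (hA : Algebra.IsAlgebraic (Algebra.adjoin ℤ (A : Set K)) K) {n : ℕ}
    (g : Fin n → MvPolynomial (Fin n) K) (hg : Tri g) (h : Polynomial (MvPolynomial (Fin n) K))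
    (hh : 1 ≤ h.natDegree) (N : ℕ) :
    ∃ (w : Plc K) (gL : Fin n → MvPolynomial (Fin n) w.Λ)
      (hL : Polynomial (MvPolynomial (Fin n) w.Λ)) (ξ : Fin n → w.k) (N0 : ℕ),
      N < w.p ∧ (∀ i, map w.Λ.subtype (gL i) = g i) ∧ hL.map (map w.Λ.subtype) = h ∧
      0 < N0 ∧ (act fun i => map w.ψ (gL i))^[N0] ξ = ξ ∧
      ∀ t : ℕ, eval ((act fun i => map w.ψ (gL i))^[t] ξ)
        (map w.ψ hL.leadingCoeff * ∏ i, pderiv i (map w.ψ (gL i))) ≠ 0 := by
  classical
  set HK : MvPolynomial (Fin n) K := h.leadingCoeff * ∏ i, pderiv i (g i) with hHK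
  have hHK0 : HK ≠ 0 := by
    refine mul_ne_zero ?_ (Finset.prod_ne_zero_iff.2 fun i _ => Tn_pderiv_ne_zero i _ (hg i).2)
    rw [Ne, Polynomial.leadingCoeff_eq_zero]
    rintro rfl
    simp at hh
  obtain ⟨m, hm⟩ := ne_zero_iff.1 hHK0
  let B : Finset K := (Finset.univ.biUnion fun i => (g i).coeffs) ∪
    h.support.biUnion fun j => (h.coeff j).coeffs
  obtain ⟨w, hwN, hwB, hb, hψb⟩ := GP A hA B (coeff m HK) hm N
  have hgl : ∀ i, ∃ q : MvPolynomial (Fin n) w.Λ, map w.Λ.subtype q = g i := by
    intro i
    refine Tn_lift _ _ fun c hc => hwB c ?_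
    refine Finset.mem_union_left _ (Finset.mem_biUnion.2 ⟨i, Finset.mem_univ _, hc⟩)
  choose gL hgL using hgl
  have hhl : ∃ q : Polynomial (MvPolynomial (Fin n) w.Λ), q.map (map w.Λ.subtype) = h := by
    rw [← Polynomial.mem_lifts, Polynomial.lifts_iff_coeff_lifts]
    intro j
    obtain ⟨q, hq⟩ := Tn_lift w.Λ (h.coeff j) (by
      intro c hc
      refine hwB c (Finset.mem_union_right _ (Finset.mem_biUnion.2 ⟨j, ?_, hc⟩))
      rw [Polynomial.mem_support_iff]
      intro h0
      rw [h0, coeffs_zero] at hc
      simp at hc)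
    exact ⟨q, hq⟩
  obtain ⟨hL, hhL⟩ := hhl
  have hinj : Function.Injective (map w.Λ.subtype :
      MvPolynomial (Fin n) w.Λ → MvPolynomial (Fin n) K) :=
    map_injective _ Subtype.val_injective
  have hlead : map w.Λ.subtype hL.leadingCoeff = h.leadingCoeff := by
    rw [← hhL]
    exact (Polynomial.leadingCoeff_map_of_injective hinj hL).symm
  set HL : MvPolynomial (Fin n) w.Λ := hL.leadingCoeff * ∏ i, pderiv i (gL i) with hHL
  have hHLK : map w.Λ.subtype HL = HK := by
    rw [hHL, hHK, map_mul, hlead, map_prod]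
    congr 1
    refine Finset.prod_congr rfl fun i _ => ?_
    rw [← pderiv_map, hgL]
  have hHred : map w.ψ HL = map w.ψ hL.leadingCoeff * ∏ i, pderiv i (map w.ψ (gL i)) := by
    rw [hHL, map_mul, map_prod]
    congr 1
    refine Finset.prod_congr rfl fun i _ => ?_
    rw [pderiv_map]
  have hHred0 : map w.ψ HL ≠ 0 := by
    rw [ne_zero_iff]
    refine ⟨m, ?_⟩
    rw [coeff_map]
    have : coeff m HL = ⟨coeff m HK, hb⟩ := by
      apply Subtype.ext
      have := congrArg (coeff m) hHLK
      rw [coeff_map] at this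
      exact this
    rw [this]
    exact hψb
  rw [hHred] at hHred0
  have hTri : Tri fun i => map w.ψ (gL i) := by
    intro i
    constructor
    · intro j hj
      refine (hg i).1 j ?_
      rw [← hgL i, vars_map_of_injective _ Subtype.val_injective]
      exact vars_map (gL i) w.ψ hj
    · by_contra hi
      have h1 : pderiv i (map w.ψ (gL i)) = 0 := pderiv_eq_zero_of_notMem_vars hi
      exact (Finset.prod_ne_zero_iff.1 (right_ne_zero_of_mul hHred0) i (Finset.mem_univ i)) h1
  have : Fact w.p.Prime := ⟨w.hp⟩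
  obtain ⟨ξ, N0, hN0, hξ, hH⟩ := CL w.lf _ hTri _ hHred0
  exact ⟨w, gL, hL, ξ, N0, hwN, hgL, hhL, hN0, hξ, hH⟩

theorem Tn_eval_map {R S : Type*} [CommRing R] [CommRing S] (φ : R →+* S) {σ : Type*}
    (q : MvPolynomial σ R) (x : σ → R) : φ (eval x q) = eval (fun i => φ (x i)) (map φ q) := by
  rw [eval_map]
  exact eval₂_comp_left φ (RingHom.id R) x q

theorem Tn_iter_map {R S : Type*} [CommRing R] [CommRing S] (φ : R →+* S) {n : ℕ}
    (g : Fin n → MvPolynomial (Fin n) R) (x : Fin n → R) (t : ℕ) :
    (fun i => φ ((act g)^[t] x i)) =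
      (act fun i => map φ (g i))^[t] (fun i => φ (x i)) := by
  induction t with
  | zero => rfl
  | succ t ih =>
    rw [Function.iterate_succ_apply', Function.iterate_succ_apply', ← ih]
    funext i
    exact Tn_eval_map φ _ _

/-- Density for the empty affine space. -/
theorem Tn_zero {K : Type*} [Field K] (f : Fin 0 → MvPolynomial (Fin 0) K) (x : Fin 0 → K) :
    Dense f x := by
  intro P hP
  refine ⟨0, ?_⟩
  intro h0
  apply hP
  rw [eq_C_of_isEmpty P] at h0 ⊢
  rw [eval_C] at h0
  rw [h0, C_0]

/-- **Dense orbits with prescribed reductions.** -/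
theorem Tn {K : Type u} [Field K] [CharZero K] [IsAlgClosed K] (A : Finset K)
    (hA : Algebra.IsAlgebraic (Algebra.adjoin ℤ (A : Set K)) K) (n : ℕ) :
    ∀ (f : Fin n → MvPolynomial (Fin n) K), Tri f →
    ((∀ i, 2 ≤ degreeOf i (f i)) ∨ ¬ Inv f) →
    ∀ (m : ℕ) (v : Fin m → Plc K), (Function.Injective fun i => (v i).p) →
    ∀ (ρ : ∀ i, Fin n → (v i).k),
    ∃ x : Fin n → K, Dense f x ∧ ∀ i j, Red (v i) (x j) (ρ i j) := by
  induction n with
  | zero =>
    intro f _ _ m v _ ρ
    exact ⟨fun i => i.elim0, Tn_zero _ _, fun i j => j.elim0⟩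
  | succ n ih =>
    intro f hf hcond m v hv ρ
    obtain ⟨g, h, hg, hh, rfl⟩ := tri_step f hf
    have hdeg0 : degreeOf 0 (Step g h 0) = h.natDegree := by
      rw [← natDegree_finSuccEquiv]
      simp only [Step, Fin.cons_zero]
      rw [AlgEquiv.apply_symm_apply]
    have hcondg : (∀ i, 2 ≤ degreeOf i (g i)) ∨ ¬ Inv g := by
      rcases hcond with hc | hc
      · left
        intro i
        have := hc i.succ
        simp only [Step, Fin.cons_succ] at this
        rwa [degreeOf_rename_of_injective (Fin.succ_injective n)] at this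
      · right
        exact fun hI => hc (Tn_inv_base g h hI)
    obtain ⟨w, gL, hL, ξ, N0, hwN, hgL, hhL, hN0, hξ, hH⟩ :=
      Tn_place A hA g hg h hh (Finset.univ.sup fun i => (v i).p)
    have hw : ∀ i, (v i).p ≠ w.p := by
      intro i
      have : (v i).p ≤ Finset.univ.sup fun i => (v i).p :=
        Finset.le_sup (f := fun i => (v i).p) (Finset.mem_univ i)
      omega
    -- the base point
    obtain ⟨x, hx, hxρ⟩ := ih g hg hcondg (m + 1) (Fin.cons w v) (by
        intro i j
        refine Fin.cases ?_ (fun i => ?_) i <;> refine Fin.cases ?_ (fun j => ?_) j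
        · simp
        · intro hij
          exact absurd hij.symm (hw j)
        · intro hij
          exact absurd hij (hw i)
        · intro hij
          exact congrArg Fin.succ (hv hij))
      (Fin.cons (α := fun i => Fin n → ((Fin.cons w v : Fin (m + 1) → Plc K) i).k) ξ
        (fun i j => ρ i j.succ))
    have hxw : ∀ j, Red w (x j) (ξ j) := fun j => hxρ 0 j
    have hxv : ∀ i j, Red (v i) (x j) (ρ i j.succ) := fun i j => hxρ i.succ j
    choose hxΛ hxξ using hxw
    set xL : Fin n → w.Λ := fun j => ⟨x j, hxΛ j⟩ with hxL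
    have hξL : (fun i => w.ψ (xL i)) = ξ := funext hxξ
    have hgK : (fun i => map w.Λ.subtype (gL i)) = g := funext hgL
    -- the fibre coordinates
    have hY := AP v (fun i => ρ i 0) hv w hw
    have key : ∃ y ∈ {y : K | (∀ i, Red (v i) y (ρ i 0)) ∧
        ∃ h : (w.p : K) * y ∈ w.Λ, w.ψ ⟨_, h⟩ ≠ 0},
        Dense (Step g h) (Fin.cons y x : Fin (n + 1) → K) := by
      have hinj : Function.Injective (map w.Λ.subtype :
          MvPolynomial (Fin n) w.Λ → MvPolynomial (Fin n) K) :=
        map_injective _ Subtype.val_injective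
      have hnd : hL.natDegree = h.natDegree := by
        rw [← hhL]
        exact (Polynomial.natDegree_map_eq_of_injective hinj hL).symm
      by_cases hd : 2 ≤ h.natDegree
      · obtain ⟨y, hy⟩ := hY.nonempty
        refine ⟨y, hy, ?_⟩
        obtain ⟨-, hyΛ, hyψ⟩ := hy
        have := L2 w gL (fun i j hj => (hg i).1 j (by
            rw [← hgL i, vars_map_of_injective _ Subtype.val_injective]; exact hj)) hL
          (by rw [hnd]; exact hd) xL (by rw [hgK]; exact hx) N0 hN0
          (by rw [hξL]; exact hξ) (by rw [hξL]; exact hH) ⟨_, hyΛ⟩ hyψ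
        rw [hgK, hhL] at this
        have hp0 : (w.p : K) ≠ 0 := by exact_mod_cast w.hp.ne_zero
        have hyy : (((⟨_, hyΛ⟩ : w.Λ) : K)) / (w.p : K) = y := by
          simp only
          field_simp
        rw [hyy] at this
        exact this
      · have hd1 : h.natDegree = 1 := by omega
        have hcI : ¬ Inv (Step g h) := by
          rcases hcond with hc | hc
          · have := hc 0
            rw [hdeg0] at this
            exact absurd this hd
          · exact hc
        have hform : h = Polynomial.C h.leadingCoeff * Polynomial.X + Polynomial.C (h.coeff 0) := by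
          have := Polynomial.eq_X_add_C_of_natDegree_le_one (p := h) (by omega)
          rw [Polynomial.leadingCoeff, hd1]
          exact this
        by_contra hno
        push Not at hno
        obtain ⟨y1, hy1, y2, hy2, hne⟩ := hY.nontrivial
        apply hcI
        rw [hform]
        refine L1 g _ _ x hx ?_ y1 y2 hne ?_ ?_
        · intro t h0
          have e1 : (fun i => ((act gL)^[t] xL i : K)) = (act g)^[t] x := by
            have := Tn_iter_map w.Λ.subtype gL xL t
            rw [hgK] at this
            exact this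
          have e2 : (fun i => w.ψ ((act gL)^[t] xL i)) =
              (act fun i => map w.ψ (gL i))^[t] ξ := by
            have := Tn_iter_map w.ψ gL xL t
            rw [hξL] at this
            exact this
          have hlead : map w.Λ.subtype hL.leadingCoeff = h.leadingCoeff := by
            rw [← hhL]
            exact (Polynomial.leadingCoeff_map_of_injective hinj hL).symm
          have e3 : eval ((act gL)^[t] xL) hL.leadingCoeff = 0 := by
            apply Subtype.val_injective
            have := Tn_eval_map w.Λ.subtype hL.leadingCoeff ((act gL)^[t] xL)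
            rw [hlead] at this
            have e4 : (fun i => w.Λ.subtype ((act gL)^[t] xL i)) = (act g)^[t] x := e1
            rw [e4, h0] at this
            exact this
          have e5 := Tn_eval_map w.ψ hL.leadingCoeff ((act gL)^[t] xL)
          rw [e3, map_zero, e2] at e5
          apply hH t
          rw [map_mul, ← e5, zero_mul]
        · rw [← hform]; exact hno y1 hy1
        · rw [← hform]; exact hno y2 hy2
    obtain ⟨y, ⟨hyρ, -⟩, hyd⟩ := key
    refine ⟨Fin.cons y x, hyd, ?_⟩
    intro i j
    refine Fin.cases ?_ (fun j => ?_) j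
    · exact hyρ i
    · exact hxv i j

end H42.ZD
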